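import Pool.Agent.T9h61.AH.Stm
import Pool.Agent.H382R2.Deep0

/-! Local windows around a centre, and basic facts on the width `T ^ η`. -/

set_option autoImplicit false

open Complex Filter Topology Set MeasureTheory

namespace Pool.Agent.T9h61.AH

open SG Pool.Agent.N806.HG

/-- local heights around the centre `t0` -/
def WinL (T D t0 U1 U2 : ℝ) : Prop :=
  T ≤ U1 ∧ U1 ≤ t0 - D ^ 2 / 2 ∧ t0 + D ^ 2 / 2 ≤ U2 ∧ U2 ≤ 2 * T

lemma DE_pos (η : ℝ) {T : ℝ} (hT : 0 < T) : 0 < DE η T := Real.rpow_pos_of_pos hT _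

lemma DE_basic (η : ℝ) (hη : 0 < η) (hη2 : η ≤ 1 / 8) (T : ℝ) (hT : 256 ≤ T) :
    1 ≤ DE η T ∧ DE η T ^ 2 ≤ T / 8 ∧ DE η T ≤ T / 8 := by
  have hT0 : 0 < T := by linarith
  have h1 : 1 ≤ DE η T := Real.one_le_rpow (by linarith) hη.le
  set w := T ^ (1 / 8 : ℝ) with hw
  have hw8 : w ^ 8 = T := by
    rw [hw, ← Real.rpow_natCast, ← Real.rpow_mul hT0.le]
    norm_num
  have hw0 : 0 < w := Real.rpow_pos_of_pos hT0 _
  have hw2 : 2 ≤ w := by
    by_contra hc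
    push Not at hc
    have : w ^ 8 < 2 ^ 8 := pow_lt_pow_left₀ hc hw0.le (by norm_num)
    rw [hw8] at this
    norm_num at this
    linarith
  have hD : DE η T ≤ w := Real.rpow_le_rpow_of_exponent_le (by linarith) hη2
  have hD2 : DE η T ^ 2 ≤ w ^ 2 := pow_le_pow_left₀ (by linarith) hD 2
  have h6 : (2 : ℝ) ^ 6 ≤ w ^ 6 := pow_le_pow_left₀ (by norm_num) hw2 6
  have e : w ^ 8 = w ^ 2 * w ^ 6 := by ring
  have h7 : w ^ 2 * 64 ≤ w ^ 2 * w ^ 6 := by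
    apply mul_le_mul_of_nonneg_left _ (by positivity)
    norm_num at h6
    exact h6
  rw [← e, hw8] at h7
  have h8 : DE η T ≤ DE η T ^ 2 := by nlinarith
  refine ⟨h1, by linarith [sq_nonneg w], by linarith [sq_nonneg w]⟩

lemma DE_tendsto (η : ℝ) (hη : 0 < η) : Tendsto (fun T : ℝ => DE η T) atTop atTop :=
  tendsto_rpow_atTop hη

/-- far from the centre `φ` is tiny -/
theorem phi_tinyL (t0 D : ℝ) (hD : 9 ≤ D) (s : ℂ) (h1 : |s.re - 1 / 2| ≤ D)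
    (h2 : D ^ 2 / 2 ≤ |s.im - t0|) : ‖phi t0 D s‖ ≤ Real.exp (-D) := by
  have hD0 : 0 < D := by linarith
  rw [phi_norm _ _ hD0]
  apply Real.exp_le_exp.mpr
  have hre : (s.re - 1 / 2) ^ 2 ≤ D ^ 2 := by
    rw [← sq_abs]
    exact pow_le_pow_left₀ (abs_nonneg _) h1 2
  have him : (D ^ 2 / 2) ^ 2 ≤ (s.im - t0) ^ 2 := by
    rw [← sq_abs (s.im - t0)]
    exact pow_le_pow_left₀ (by positivity) h2 2
  rw [div_le_iff₀ (by positivity)]
  have h3 : 1 - D ^ 2 / 4 + 2 * D ≤ 0 := by nlinarith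
  have h4 : D ^ 2 * (1 - D ^ 2 / 4 + 2 * D) ≤ 0 :=
    mul_nonpos_of_nonneg_of_nonpos (by positivity) h3
  nlinarith

lemma tendsto_pow_expL (A η : ℝ) (hη : 0 < η) :
    Tendsto (fun T : ℝ => T ^ A * Real.exp (-(DE η T))) atTop (𝓝 0) := by
  have h := SG.Deep.tendsto_pow_exp A 1 (2 * η) one_pos (by linarith)
  refine h.congr fun T => ?_
  unfold DE
  rw [show 2 * η / 2 = η by ring, neg_one_mul]

end Pool.Agent.T9h61.AH
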