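import Pool.Agent.T9h61.AH.Abd
import Pool.Agent.T9h61.AH.WL
import Pool.Agent.N806.HG.Avg
import Pool.Agent.N806.HG.LINE
import Pool.Agent.N806.HG.NEARD
import Pool.Agent.H382R2.Hor

/-! Averages: Gaussian majorants, a bound for the mean square under RH, and the near terms for a
general width. -/

set_option autoImplicit false

open Complex Filter Topology Set MeasureTheory

namespace Pool.Agent.T9h61.AH

open SG Pool.Agent.N806.HG

/-- the Gaussian -/
noncomputable def ga (D u : ℝ) : ℝ := Real.exp (-u ^ 2 / (2 * D ^ 2))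

lemma ga_cont (D : ℝ) : Continuous (ga D) := by
  unfold ga
  fun_prop

lemma ga_pos (D u : ℝ) : 0 < ga D u := Real.exp_pos _

lemma ga_int (D : ℝ) (hD : 0 < D) (a b : ℝ) (hab : a ≤ b) :
    ∫ u in a..b, ga D u ≤ D * Real.sqrt (2 * Real.pi) := by
  have h1 := SG.Deep.gauss_integral D 0 hD
  have h2 := SG.Deep.gauss_integrable D 0 hD
  simp only [sub_zero] at h1 h2
  rw [← h1, intervalIntegral.integral_of_le hab]
  exact setIntegral_le_integral h2 (ae_of_all _ fun t => (Real.exp_pos _).le)

lemma AV_conv (T M : ℝ) (hT : 0 ≤ T) (e : ℝ → ℝ) (he : Continuous e)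
    (heM : ∀ a b : ℝ, a ≤ b → ∫ u in a..b, e u ≤ M) (G : ℝ → ℝ) (hG : Continuous G)
    (hG0 : ∀ t, 0 ≤ G t) :
    AV T (fun t0 => ∫ t in T..2 * T, e (t - t0) * G t) ≤ T / 4 * (M * ∫ t in T..2 * T, G t) := by
  unfold AV
  have hin : ∀ x : ℝ, (∫ y in (0 : ℝ)..T / 4, ∫ t in T..2 * T, e (t - (5 / 4 * T + x + y)) * G t) ≤
      M * ∫ t in T..2 * T, G t := by
    intro x
    have hcu : Continuous (Function.uncurry fun y t : ℝ => e (t - (5 / 4 * T + x + y)) * G t) := by
      apply Continuous.mul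
      · exact he.comp (by fun_prop)
      · exact hG.comp continuous_snd
    rw [MeasureTheory.intervalIntegral_intervalIntegral_swap
      ((hcu.continuousOn.integrableOn_compact (isCompact_uIcc.prod isCompact_uIcc)).mono_set
        (Set.prod_mono uIoc_subset_uIcc uIoc_subset_uIcc))]
    rw [← intervalIntegral.integral_const_mul]
    apply intervalIntegral.integral_mono_on (by linarith)
    · apply Continuous.intervalIntegrable
      apply intervalIntegral.continuous_parametric_intervalIntegral_of_continuous'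
      exact hcu.comp (continuous_snd.prodMk continuous_fst)
    · exact (continuous_const.mul hG).intervalIntegrable _ _
    intro t _
    rw [intervalIntegral.integral_mul_const]
    apply mul_le_mul_of_nonneg_right _ (hG0 t)
    have e1 : (∫ y in (0 : ℝ)..T / 4, e (t - (5 / 4 * T + x + y))) =
        ∫ y in (0 : ℝ)..T / 4, e ((t - 5 / 4 * T - x) - y) := by
      apply intervalIntegral.integral_congr
      intro y _
      simp only
      congr 1
      ring
    rw [e1, intervalIntegral.integral_comp_sub_left (fun y => e y)]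
    apply heM
    linarith
  have hcx : Continuous fun x : ℝ => ∫ y in (0 : ℝ)..T / 4,
      ∫ t in T..2 * T, e (t - (5 / 4 * T + x + y)) * G t := by
    apply intervalIntegral.continuous_parametric_intervalIntegral_of_continuous'
    apply intervalIntegral.continuous_parametric_intervalIntegral_of_continuous'
    apply Continuous.mul
    · exact he.comp (by fun_prop)
    · exact hG.comp continuous_snd
  calc _ ≤ ∫ x in (0 : ℝ)..T / 4, M * ∫ t in T..2 * T, G t := by
        apply intervalIntegral.integral_mono_on (by linarith)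
        · exact hcx.intervalIntegrable _ _
        · exact continuous_const.intervalIntegrable _ _
        · intro x _
          exact hin x
    _ = _ := by
        rw [intervalIntegral.integral_const, smul_eq_mul]
        ring

lemma AV_shift (T M β : ℝ) (hT : 0 ≤ T) (e : ℝ → ℝ) (he : Continuous e)
    (heM : ∀ a b : ℝ, a ≤ b → ∫ u in a..b, e u ≤ M) :
    AV T (fun t0 => e (t0 - β)) ≤ T / 4 * M := by
  unfold AV
  calc _ ≤ ∫ x in (0 : ℝ)..T / 4, M := by
        apply intervalIntegral.integral_mono_on (by linarith)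
        · apply Continuous.intervalIntegrable
          apply intervalIntegral.continuous_parametric_intervalIntegral_of_continuous'
          exact he.comp (by fun_prop)
        · exact continuous_const.intervalIntegrable _ _
        intro x _
        have e1 : (∫ y in (0 : ℝ)..T / 4, e (5 / 4 * T + x + y - β)) =
            ∫ y in (0 : ℝ)..T / 4, e (y + (5 / 4 * T + x - β)) := by
          apply intervalIntegral.integral_congr
          intro y _
          simp only
          congr 1
          ring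
        rw [e1, intervalIntegral.integral_comp_add_right (fun y => e y)]
        apply heM
        linarith
    _ = _ := by
        rw [intervalIntegral.integral_const, smul_eq_mul]
        ring

lemma AV_sum {ι : Type*} (s : Finset ι) (T : ℝ) (f : ι → ℝ → ℝ) (hf : ∀ i, Continuous (f i)) :
    AV T (fun t => ∑ i ∈ s, f i t) = ∑ i ∈ s, AV T (f i) := by
  classical
  induction s using Finset.induction_on with
  | empty =>
      simp only [Finset.sum_empty]
      rw [AV_const, mul_zero]
  | insert a s ha ih =>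
      simp only [Finset.sum_insert ha]
      rw [AV_add T (hf a) (continuous_finsetSum _ fun i _ => hf i), ih]

/-- elementary inequality for the Gaussian -/
lemma gauss_lin (D u : ℝ) (hD : 1 ≤ D) :
    Real.exp (-u ^ 2 / (2 * D ^ 2)) * (1 + |u|) ≤
      2 * D * Real.exp (-u ^ 2 / (2 * (√2 * D) ^ 2)) := by
  have hD0 : 0 < D := by linarith
  have hs2 : (√2 * D) ^ 2 = 2 * D ^ 2 := by
    rw [mul_pow, Real.sq_sqrt (by norm_num)]
  rw [hs2]
  have e1 : -u ^ 2 / (2 * D ^ 2) = -u ^ 2 / (2 * (2 * D ^ 2)) + -(u ^ 2 / (4 * D ^ 2)) := by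
    field_simp
    ring
  rw [e1, Real.exp_add]
  have h1 : Real.exp (-(u ^ 2 / (4 * D ^ 2))) * (1 + |u|) ≤ 2 * D := by
    rw [Real.exp_neg, ← div_eq_inv_mul, div_le_iff₀ (Real.exp_pos _)]
    have h2 := Real.add_one_le_exp (u ^ 2 / (4 * D ^ 2))
    have h3 : 2 * D * (u ^ 2 / (4 * D ^ 2) + 1) = |u| ^ 2 / (2 * D) + 2 * D := by
      rw [sq_abs]
      field_simp
      ring
    have h4 : 1 + |u| ≤ |u| ^ 2 / (2 * D) + 2 * D := by
      have h5 : |u| ^ 2 / (2 * D) + 2 * D - (1 + |u|) = ((|u| - D) ^ 2 + D * (3 * D - 2)) / (2 * D) := by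
        field_simp
        ring
      have h6 : 0 ≤ ((|u| - D) ^ 2 + D * (3 * D - 2)) / (2 * D) := by
        apply div_nonneg _ (by linarith)
        have : 0 ≤ D * (3 * D - 2) := mul_nonneg hD0.le (by linarith)
        positivity
      linarith
    calc 1 + |u| ≤ 2 * D * (u ^ 2 / (4 * D ^ 2) + 1) := by rw [h3]; exact h4
      _ ≤ _ := mul_le_mul_of_nonneg_left h2 (by linarith)
  have h7 := Real.exp_pos (-u ^ 2 / (2 * (2 * D ^ 2)))
  calc _ = Real.exp (-u ^ 2 / (2 * (2 * D ^ 2))) *
        (Real.exp (-(u ^ 2 / (4 * D ^ 2))) * (1 + |u|)) := by ring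
    _ ≤ Real.exp (-u ^ 2 / (2 * (2 * D ^ 2))) * (2 * D) := mul_le_mul_of_nonneg_left h1 h7.le
    _ = _ := by ring

/-- the mean square is small under RH -/
theorem MS_le (RH : RiemannHypothesis) (ε : ℝ) (hε : 0 < ε) (hε2 : ε ≤ 1 / 2) :
    ∃ C : ℝ, 0 < C ∧ ∀ T : ℝ, 256 ≤ T → ∀ t0 D a : ℝ, Cen T t0 → 1 ≤ D → |a| ≤ 1 → ∀ N : ℕ,
      1 ≤ N → (N : ℝ) ≤ T ^ 2 → MS t0 D a N ≤ C * T ^ (12 * ε) * D ^ 2 := by
  obtain ⟨C, hC, hA⟩ := AA_half RH hε (by linarith)
  refine ⟨12 * C ^ 2, by positivity, ?_⟩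
  intro T hT t0 D a hc hD ha N hN1 hN
  obtain ⟨hc1, hc2⟩ := hc
  have hT0 : 0 < T := by linarith
  have hD0 : 0 < D := by linarith
  have hNr : (1 : ℝ) ≤ N := by exact_mod_cast hN1
  have hpt : ∀ t : ℝ, Real.exp (-(t - t0) ^ 2 / (2 * D ^ 2)) * ‖AA N (1 / 2 + I * (t + a))‖ ^ 2 ≤
      C ^ 2 * T ^ (12 * ε) * (2 * D * Real.exp (-(t - t0) ^ 2 / (2 * (√2 * D) ^ 2))) := by
    intro t
    have h1 : ‖AA N (1 / 2 + I * (t + a))‖ ≤ C * ((N : ℝ) ^ (2 * ε) * (1 + |t + a|) ^ ε) := by
      have := hA (t + a) N hN1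
      push_cast at this
      exact this
    have h2 : ‖AA N (1 / 2 + I * (t + a))‖ ^ 2 ≤ C ^ 2 * T ^ (12 * ε) * (1 + |t - t0|) := by
      have h3 : (1 + |t + a|) ≤ T ^ 2 * (1 + |t - t0|) := by
        have h4 : |t + a| ≤ |t - t0| + |t0| + |a| := by
          calc |t + a| = |(t - t0) + t0 + a| := by ring_nf
            _ ≤ |(t - t0) + t0| + |a| := abs_add_le _ _
            _ ≤ _ := by
                have := abs_add_le (t - t0) t0
                linarith
        have h5 : |t0| ≤ 7 / 4 * T := by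
          rw [abs_of_nonneg (by linarith)]
          exact hc2
        have h6 : 2 + 7 / 4 * T ≤ T ^ 2 := by nlinarith
        have h7 := abs_nonneg (t - t0)
        nlinarith
      have h4 : (1 + |t + a|) ^ (2 * ε) ≤ T ^ (4 * ε) * (1 + |t - t0|) := by
        have h7 := abs_nonneg (t - t0)
        calc (1 + |t + a|) ^ (2 * ε) ≤ (T ^ 2 * (1 + |t - t0|)) ^ (2 * ε) :=
              Real.rpow_le_rpow (by positivity) h3 (by positivity)
          _ = (T ^ 2) ^ (2 * ε) * (1 + |t - t0|) ^ (2 * ε) :=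
              Real.mul_rpow (by positivity) (by positivity)
          _ ≤ (T ^ 2) ^ (2 * ε) * (1 + |t - t0|) ^ (1 : ℝ) := by
              apply mul_le_mul_of_nonneg_left _ (by positivity)
              exact Real.rpow_le_rpow_of_exponent_le (by linarith) (by linarith)
          _ = T ^ (4 * ε) * (1 + |t - t0|) := by
              rw [Real.rpow_one, ← Real.rpow_natCast, ← Real.rpow_mul hT0.le]
              congr 2
              push_cast
              ring
      have h5 : (N : ℝ) ^ (4 * ε) ≤ T ^ (8 * ε) := by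
        calc (N : ℝ) ^ (4 * ε) ≤ (T ^ 2) ^ (4 * ε) :=
              Real.rpow_le_rpow (by positivity) hN (by positivity)
          _ = _ := by
              rw [← Real.rpow_natCast, ← Real.rpow_mul hT0.le]
              congr 1
              push_cast
              ring
      calc ‖AA N (1 / 2 + I * (t + a))‖ ^ 2 ≤ (C * ((N : ℝ) ^ (2 * ε) * (1 + |t + a|) ^ ε)) ^ 2 :=
            pow_le_pow_left₀ (norm_nonneg _) h1 2
        _ = C ^ 2 * ((N : ℝ) ^ (4 * ε) * (1 + |t + a|) ^ (2 * ε)) := by
            have g1 : (N : ℝ) ^ (4 * ε) = ((N : ℝ) ^ (2 * ε)) ^ 2 := by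
              rw [← Real.rpow_natCast, ← Real.rpow_mul (by positivity)]
              congr 1
              push_cast
              ring
            have g2 : (1 + |t + a|) ^ (2 * ε) = ((1 + |t + a|) ^ ε) ^ 2 := by
              rw [← Real.rpow_natCast, ← Real.rpow_mul (by positivity)]
              congr 1
              push_cast
              ring
            rw [g1, g2]
            ring
        _ ≤ C ^ 2 * (T ^ (8 * ε) * (T ^ (4 * ε) * (1 + |t - t0|))) := by
            apply mul_le_mul_of_nonneg_left _ (by positivity)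
            exact mul_le_mul h5 h4 (by positivity) (by positivity)
        _ = C ^ 2 * (T ^ (8 * ε) * T ^ (4 * ε)) * (1 + |t - t0|) := by ring
        _ = _ := by
            rw [← Real.rpow_add hT0]
            ring_nf
    have h8 := gauss_lin D (t - t0) hD
    have h9 := Real.exp_pos (-(t - t0) ^ 2 / (2 * D ^ 2))
    calc _ ≤ Real.exp (-(t - t0) ^ 2 / (2 * D ^ 2)) * (C ^ 2 * T ^ (12 * ε) * (1 + |t - t0|)) :=
          mul_le_mul_of_nonneg_left h2 h9.le
      _ = C ^ 2 * T ^ (12 * ε) * (Real.exp (-(t - t0) ^ 2 / (2 * D ^ 2)) * (1 + |t - t0|)) := by ring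
      _ ≤ _ := mul_le_mul_of_nonneg_left h8 (by positivity)
  have hs2D : 0 < √2 * D := by positivity
  have hgi := Deep.gauss_integrable (√2 * D) t0 hs2D
  have hgI := Deep.gauss_integral (√2 * D) t0 hs2D
  have hs : Real.sqrt (2 * Real.pi) ≤ 3 := by
    rw [Real.sqrt_le_left (by norm_num)]
    have := Real.pi_lt_d2
    norm_num at this ⊢
    linarith
  have hsq2 : √2 ≤ 2 := by
    rw [Real.sqrt_le_left (by norm_num)]; norm_num
  unfold MS
  calc _ ≤ ∫ t : ℝ, C ^ 2 * T ^ (12 * ε) *
        (2 * D * Real.exp (-(t - t0) ^ 2 / (2 * (√2 * D) ^ 2))) := by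
        apply integral_mono (LINE.ms_int N D t0 a hD0) ((hgi.const_mul _).const_mul _)
        exact hpt
    _ = C ^ 2 * T ^ (12 * ε) * (2 * D * (√2 * D * Real.sqrt (2 * Real.pi))) := by
        rw [integral_const_mul, integral_const_mul, hgI]
    _ ≤ C ^ 2 * T ^ (12 * ε) * (2 * D * (2 * D * 3)) := by
        gcongr
    _ = _ := by ring

open NearD in
/-- the terms near the diagonal, for any width -/
theorem NEARDL (hw : S_WWB) : ∀ K : ℝ, 0 ≤ K → ∀ H : ℕ, 1 ≤ H → ∀ ε : ℝ, 0 < ε →
  ∃ ε' : ℝ, 0 < ε' ∧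
  ∃ T0 : ℕ, ∀ T : ℕ, T0 ≤ T →
  (∀ h : ℕ, 1 ≤ h → h ≤ H → ∀ x : ℕ, T ≤ x → (x : ℝ) ≤ Real.exp K * T →
    |∑ n ∈ Finset.range x, mu n * mu (n + h)| ≤ ε' * x) →
  ∀ (D δ : ℝ) (N : ℕ), 0 ≤ D → D ≤ T → 0 < δ → δ * Real.log T ≤ 4 → (N : ℝ) ≤ Real.exp K * T →
    |∑ m ∈ Finset.Icc 1 N, ∑ n ∈ Finset.Icc 1 N,
      (if m ≠ n ∧ (T : ℝ) < m ∧ (T : ℝ) < n ∧ m ≤ n + H ∧ n ≤ m + H then
        TT T D δ m n else 0)| ≤ ε * (T : ℝ) ^ 2 := by
  intro K hK H hH ε hε
  have hH0 : (0 : ℝ) < H := by exact_mod_cast hH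
  set V : ℝ := (H : ℝ) ^ 2 + 2 * H + 4 with hV
  have hV0 : 0 < V := by positivity
  set G : ℝ := 2 * H * Real.exp K * (2 + Real.exp K * V) with hG
  have hG0 : 0 < G := by positivity
  refine ⟨ε / G, by positivity, 100, ?_⟩
  intro T hT0 hS D δ N hD hDT hδ hδT hN
  have hT100 : (100 : ℝ) ≤ T := by exact_mod_cast hT0
  have hT1 : (1 : ℝ) ≤ T := by linarith
  have hTp : (0 : ℝ) < T := by linarith
  have hlog : 4 ≤ Real.log T := SG.Hor.four_le_log T hT100
  have hδ1 : δ ≤ 1 := by
    by_contra hc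
    rw [not_le] at hc
    nlinarith
  have e1 : ∑ m ∈ Finset.Icc 1 N, ∑ n ∈ Finset.Icc 1 N,
      (if m ≠ n ∧ (T : ℝ) < m ∧ (T : ℝ) < n ∧ m ≤ n + H ∧ n ≤ m + H then
        TT T D δ m n else 0) =
      2 * ∑ h ∈ Finset.Icc 1 H, ∑ m ∈ Finset.Ico (T + 1) (N + 1 - h),
        TT T D δ m (m + h) := by
    rw [← reorg (fun m n => TT T D δ m n) (fun m n => TT_symm _ _ _ m n) T N H]
    apply Finset.sum_congr rfl
    intro m _
    apply Finset.sum_congr rfl
    intro n _
    simp only [Nat.cast_lt]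
  rw [e1, abs_mul, abs_two]
  have e2 : ∀ h ∈ Finset.Icc 1 H, |∑ m ∈ Finset.Ico (T + 1) (N + 1 - h), TT T D δ m (m + h)| ≤
      ε / G * Real.exp K * (2 + Real.exp K * V) * (T : ℝ) ^ 2 := by
    intro h hh
    rw [Finset.mem_Icc] at hh
    have e3 : ∑ m ∈ Finset.Ico (T + 1) (N + 1 - h), TT T D δ m (m + h) =
        ∑ m ∈ Finset.Ico (T + 1) (N + 1 - h), (mu m * mu (m + h)) * ww T D δ h m := by
      apply Finset.sum_congr rfl
      intro m _
      exact TT_eq _ _ _ _ _
    rw [e3]
    by_cases hab : T + 1 < N + 1 - h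
    · have hM : ∀ x : ℕ, T + 1 ≤ x → x ≤ N + 1 - h →
          |∑ n ∈ Finset.range x, mu n * mu (n + h)| ≤ ε / G * (Real.exp K * T) := by
        intro x hx1 hx2
        have hxN : (x : ℝ) ≤ Real.exp K * T := by
          have : x ≤ N := by omega
          have : (x : ℝ) ≤ N := by exact_mod_cast this
          linarith
        refine (hS h hh.1 hh.2 x (by omega) hxN).trans ?_
        apply mul_le_mul_of_nonneg_left hxN (by positivity)
      have hp := parts (fun n => mu n * mu (n + h)) (fun m => ww T D δ h m) (T + 1)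
        (N + 1 - h) _ hab hM
      refine hp.trans ?_
      have b1 : |ww T D δ h (N + 1 - h - 1)| ≤ T := by
        apply ww_le hw T D δ hT1 hD hDT
        have : T ≤ N + 1 - h - 1 := by omega
        exact_mod_cast this
      have b2 : |ww T D δ h (T + 1)| ≤ T := by
        apply ww_le hw T D δ hT1 hD hDT
        have : T ≤ T + 1 := by omega
        exact_mod_cast this
      have b3 : ∑ i ∈ Finset.Ico (T + 1) (N + 1 - h - 1),
          |ww T D δ h (i + 1) - ww T D δ h i| ≤ Real.exp K * T * V := by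
        calc _ ≤ ∑ i ∈ Finset.Ico (T + 1) (N + 1 - h - 1), V := by
              apply Finset.sum_le_sum
              intro i hi
              rw [Finset.mem_Ico] at hi
              apply ww_step hw T D δ hT1 hD hDT hδ hδ1 H h i hh.1 hh.2
              have : T ≤ i := by omega
              exact_mod_cast this
          _ = ((N + 1 - h - 1 - (T + 1) : ℕ) : ℝ) * V := by
              rw [Finset.sum_const, Nat.card_Ico, nsmul_eq_mul]
          _ ≤ (N : ℝ) * V := by
              apply mul_le_mul_of_nonneg_right _ hV0.le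
              have : N + 1 - h - 1 - (T + 1) ≤ N := by omega
              exact_mod_cast this
          _ ≤ Real.exp K * T * V := mul_le_mul_of_nonneg_right hN hV0.le
      calc _ ≤ ε / G * (Real.exp K * T) * ((T : ℝ) + T + Real.exp K * T * V) := by
            apply mul_le_mul_of_nonneg_left _ (by positivity)
            exact add_le_add (add_le_add b1 b2) b3
        _ = _ := by ring
    · rw [Finset.Ico_eq_empty hab, Finset.sum_empty, abs_zero]
      positivity
  calc 2 * |∑ h ∈ Finset.Icc 1 H, ∑ m ∈ Finset.Ico (T + 1) (N + 1 - h), TT T D δ m (m + h)|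
      ≤ 2 * ∑ h ∈ Finset.Icc 1 H, ε / G * Real.exp K * (2 + Real.exp K * V) * (T : ℝ) ^ 2 := by
        apply mul_le_mul_of_nonneg_left _ (by norm_num)
        exact (Finset.abs_sum_le_sum_abs _ _).trans (Finset.sum_le_sum e2)
    _ = ε * (T : ℝ) ^ 2 * ((2 * H * Real.exp K * (2 + Real.exp K * V)) / G) := by
        rw [Finset.sum_const, Nat.card_Icc, nsmul_eq_mul, Nat.add_sub_cancel]
        ring
    _ = ε * (T : ℝ) ^ 2 := by
        rw [← hG, div_self hG0.ne', mul_one]

end Pool.Agent.T9h61.AH
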