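import Pool.Agent.T9h61.AH.Mob
import Pool.Agent.N806.HG.Stm

/-! Pointwise bound for `A(s) = ∑_{n ≤ N} μ(n) n^{-s}` on the critical line under RH. -/

set_option autoImplicit false

open MeasureTheory Filter Topology Set

namespace Pool.Agent.T9h61.AH

open Pool.Agent.H295R2 (Zs Zs_eq Zs_ne_zero_of_one_le)

lemma Zs_ne (RH : RiemannHypothesis) : ∀ s : ℂ, 1 / 2 < s.re → Zs s ≠ 0 := by
  intro s hs h
  rcases le_or_gt 1 s.re with h1 | h1
  · exact Zs_ne_zero_of_one_le h1 h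
  · have hs1 : s ≠ 1 := by
      rintro rfl
      simp at h1
    rw [← Zs_eq hs1, mul_eq_zero] at h
    rcases h with h | h
    · exact hs1 (sub_eq_zero.1 h)
    · have h2 := RH s h (by
        rintro ⟨n, hn⟩
        have := congrArg Complex.re hn
        simp at this
        have h3 : (0 : ℝ) ≤ n := Nat.cast_nonneg _
        linarith) hs1
      linarith

lemma abel_id (a : ℕ → ℂ) (b : ℕ → ℝ) (N : ℕ) :
    ∑ n ∈ Finset.Icc 1 N, a n * (b n : ℂ) =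
      (∑ n ∈ Finset.Icc 1 N, a n) * (b (N + 1) : ℂ) +
      ∑ n ∈ Finset.Icc 1 N, (∑ m ∈ Finset.Icc 1 n, a m) * ((b n : ℂ) - b (n + 1)) := by
  induction N with
  | zero => simp
  | succ N ih =>
    rw [Finset.sum_Icc_succ_top (by omega), Finset.sum_Icc_succ_top (by omega : 1 ≤ N + 1) a,
      Finset.sum_Icc_succ_top (by omega : 1 ≤ N + 1)
        (fun n => (∑ m ∈ Finset.Icc 1 n, a m) * ((b n : ℂ) - b (n + 1))), ih,
      Finset.sum_Icc_succ_top (by omega : 1 ≤ N + 1) a]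
    ring

lemma AA_eq (N : ℕ) (t : ℝ) : SG.AA N (1 / 2 + Complex.I * t) =
    ∑ n ∈ Finset.Icc 1 N, (((ArithmeticFunction.moebius n : ℤ) : ℂ) *
      Complex.exp (((-(t * Real.log n) : ℝ) : ℂ) * Complex.I)) * (((n : ℝ) ^ (-(1 / 2) : ℝ) : ℝ) : ℂ) := by
  unfold SG.AA
  refine Finset.sum_congr rfl fun n hn => ?_
  rw [Finset.mem_Icc] at hn
  have hn0 : (0 : ℝ) < n := by exact_mod_cast hn.1
  have hn0' : (n : ℂ) ≠ 0 := by exact_mod_cast hn0.ne'
  rw [mul_assoc]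
  congr 1
  rw [Complex.cpow_def_of_ne_zero hn0', Real.rpow_def_of_pos hn0, Complex.ofReal_exp,
    ← Complex.exp_add]
  congr 1
  rw [← Complex.natCast_log]
  push_cast
  ring

theorem AA_half (RH : RiemannHypothesis) {ε : ℝ} (hε : 0 < ε) (hε1 : ε ≤ 1) :
    ∃ C : ℝ, 0 < C ∧ ∀ (t : ℝ) (N : ℕ), 1 ≤ N →
      ‖SG.AA N (1 / 2 + Complex.I * t)‖ ≤ C * ((N : ℝ) ^ (2 * ε) * (1 + |t|) ^ ε) := by
  obtain ⟨C, hC, h⟩ := Mt_bound (Zs_ne RH) hε hε1
  refine ⟨C * (2 + 1 / ε), by positivity, fun t N hN => ?_⟩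
  set τ : ℝ := (1 + |t|) ^ ε with hτ
  have hτ0 : 0 ≤ τ := by positivity
  have hNr : (1 : ℝ) ≤ N := by exact_mod_cast hN
  have hN0 : (0 : ℝ) < N := by linarith
  set a : ℕ → ℂ := fun n => ((ArithmeticFunction.moebius n : ℤ) : ℂ) *
      Complex.exp (((-(t * Real.log n) : ℝ) : ℂ) * Complex.I) with ha
  set b : ℕ → ℝ := fun n => (n : ℝ) ^ (-(1 / 2) : ℝ) with hb
  have hM : ∀ n : ℕ, 1 ≤ n → n ≤ N → ‖∑ m ∈ Finset.Icc 1 n, a m‖ ≤
      (C * τ * (N : ℝ) ^ ε) * (n : ℝ) ^ (1 / 2 : ℝ) := by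
    intro n hn1 hnN
    have h1 := h t n hn1
    have hn0 : (0 : ℝ) < n := by exact_mod_cast hn1
    have h2 : (n : ℝ) ^ ε ≤ (N : ℝ) ^ ε :=
      Real.rpow_le_rpow hn0.le (by exact_mod_cast hnN) hε.le
    have h3 : (n : ℝ) ^ (1 / 2 + ε) = (n : ℝ) ^ (1 / 2 : ℝ) * (n : ℝ) ^ ε := Real.rpow_add hn0 _ _
    have h4 : (∑ m ∈ Finset.Icc 1 n, a m) = Mt t n := rfl
    rw [h4]
    refine h1.trans ?_
    rw [h3]
    calc C * ((n : ℝ) ^ (1 / 2 : ℝ) * (n : ℝ) ^ ε * τ)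
        ≤ C * ((n : ℝ) ^ (1 / 2 : ℝ) * (N : ℝ) ^ ε * τ) := by gcongr
      _ = _ := by ring
  have hbn : ∀ n : ℕ, 1 ≤ n → (n : ℝ) ^ (1 / 2 : ℝ) * (b n - b (n + 1)) ≤ 1 / n ∧
      0 ≤ b n - b (n + 1) ∧ (n : ℝ) ^ (1 / 2 : ℝ) * b (n + 1) ≤ 1 := by
    intro n hn
    have hn0 : (0 : ℝ) < n := by exact_mod_cast hn
    have hn1 : (0 : ℝ) < (n : ℝ) + 1 := by linarith
    have e1 : (n : ℝ) ^ (1 / 2 : ℝ) * b n = 1 := by
      simp only [hb]
      rw [← Real.rpow_add hn0]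
      norm_num
    set u : ℝ := (n : ℝ) ^ (1 / 2 : ℝ) * b (n + 1) with hu
    have e2 : u = ((n : ℝ) / (n + 1)) ^ (1 / 2 : ℝ) := by
      rw [hu]
      simp only [hb]
      push_cast
      rw [Real.div_rpow hn0.le hn1.le, Real.rpow_neg hn1.le]
      rfl
    have hq0 : 0 ≤ (n : ℝ) / (n + 1) := by positivity
    have hq1 : (n : ℝ) / (n + 1) ≤ 1 := by rw [div_le_one hn1]; linarith
    have hu1 : u ≤ 1 := by
      rw [e2]; exact Real.rpow_le_one hq0 hq1 (by norm_num)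
    have hu2 : (n : ℝ) / (n + 1) ≤ u := by
      rw [e2]
      calc (n : ℝ) / (n + 1) = ((n : ℝ) / (n + 1)) ^ (1 : ℝ) := (Real.rpow_one _).symm
        _ ≤ _ := Real.rpow_le_rpow_of_exponent_ge (by positivity) hq1 (by norm_num)
    refine ⟨?_, ?_, hu1⟩
    · rw [mul_sub, e1, ← hu]
      have : 1 - (n : ℝ) / (n + 1) = 1 / (n + 1) := by field_simp; ring
      have h5 : 1 / ((n : ℝ) + 1) ≤ 1 / n := one_div_le_one_div_of_le hn0 (by linarith)
      linarith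
    · simp only [hb]
      have : ((n + 1 : ℕ) : ℝ) ^ (-(1 / 2) : ℝ) ≤ (n : ℝ) ^ (-(1 / 2) : ℝ) :=
        Real.rpow_le_rpow_of_nonpos hn0 (by push_cast; linarith) (by norm_num)
      linarith
  have hharm : ∑ n ∈ Finset.Icc 1 N, (1 / (n : ℝ)) ≤ 1 + Real.log N := by
    have := harmonic_le_one_add_log N
    rw [harmonic_eq_sum_Icc] at this
    push_cast at this
    simpa [one_div] using this
  have hlog : Real.log N ≤ (N : ℝ) ^ ε / ε := Real.log_le_rpow_div hN0.le hε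
  have hNε : 1 ≤ (N : ℝ) ^ ε := Real.one_le_rpow hNr hε.le
  set P : ℝ := C * τ * (N : ℝ) ^ ε with hP
  have hP0 : 0 ≤ P := by positivity
  rw [AA_eq]
  have key := abel_id a b N
  simp only [ha, hb] at key ⊢
  rw [key]
  refine (norm_add_le _ _).trans ?_
  have t1 : ‖(∑ n ∈ Finset.Icc 1 N, a n) * (b (N + 1) : ℂ)‖ ≤ P := by
    rw [norm_mul, Complex.norm_real, Real.norm_of_nonneg (by simp only [hb]; positivity)]
    calc ‖∑ n ∈ Finset.Icc 1 N, a n‖ * b (N + 1) ≤ (P * (N : ℝ) ^ (1 / 2 : ℝ)) * b (N + 1) :=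
          mul_le_mul_of_nonneg_right (hM N hN le_rfl) (by simp only [hb]; positivity)
      _ = P * ((N : ℝ) ^ (1 / 2 : ℝ) * b (N + 1)) := by ring
      _ ≤ P * 1 := mul_le_mul_of_nonneg_left (hbn N hN).2.2 hP0
      _ = P := mul_one _
  have t2 : ‖∑ n ∈ Finset.Icc 1 N, (∑ m ∈ Finset.Icc 1 n, a m) * ((b n : ℂ) - b (n + 1))‖ ≤
      P * (1 + Real.log N) := by
    calc _ ≤ ∑ n ∈ Finset.Icc 1 N, P * (1 / (n : ℝ)) := by
          apply norm_sum_le_of_le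
          intro n hn
          rw [Finset.mem_Icc] at hn
          obtain ⟨g1, g2, -⟩ := hbn n hn.1
          have e : ((b n : ℂ) - b (n + 1)) = ((b n - b (n + 1) : ℝ) : ℂ) := by push_cast; ring
          rw [norm_mul, e, Complex.norm_real, Real.norm_of_nonneg g2]
          calc ‖∑ m ∈ Finset.Icc 1 n, a m‖ * (b n - b (n + 1)) ≤
                (P * (n : ℝ) ^ (1 / 2 : ℝ)) * (b n - b (n + 1)) :=
                mul_le_mul_of_nonneg_right (hM n hn.1 hn.2) g2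
            _ = P * ((n : ℝ) ^ (1 / 2 : ℝ) * (b n - b (n + 1))) := by ring
            _ ≤ P * (1 / n) := mul_le_mul_of_nonneg_left g1 hP0
      _ = P * ∑ n ∈ Finset.Icc 1 N, (1 / (n : ℝ)) := by rw [Finset.mul_sum]
      _ ≤ _ := mul_le_mul_of_nonneg_left hharm hP0
  refine (add_le_add t1 t2).trans ?_
  have e2 : (N : ℝ) ^ (2 * ε) = (N : ℝ) ^ ε * (N : ℝ) ^ ε := by
    rw [← Real.rpow_add hN0]; congr 1; ring
  calc P + P * (1 + Real.log N) = P * (2 + Real.log N) := by ring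
    _ ≤ P * (2 * (N : ℝ) ^ ε + (N : ℝ) ^ ε / ε) := by
        apply mul_le_mul_of_nonneg_left _ hP0
        linarith
    _ = C * (2 + 1 / ε) * ((N : ℝ) ^ (2 * ε) * τ) := by
        rw [hP, e2]; ring

end Pool.Agent.T9h61.AH
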