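import Pool.Agent.T9h61.AH.MAINL
import Pool.Agent.N806.HG.Win
import Pool.Agent.N806.HG.RR
import Pool.Agent.N806.HG.TAIL
import Pool.Agent.N806.HG.AVJ
import Pool.Agent.N806.HG.AVMS
import Pool.Agent.N806.HG.WWB
import Pool.Agent.N806.HG.PAIR
import Pool.Agent.N806.HG.DIAG

/-! Many bad ordinates at every scale with small correlations, and the passage to indices. -/

set_option autoImplicit false

open Complex Filter Topology Set MeasureTheory

namespace Pool.Agent.T9h61.AH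

open SG Pool.Agent.N806.HG

/-- many bad ordinates at a scale at which the correlations of the Möbius function are small -/
theorem coreL (RH : RiemannHypothesis) (ef : ℝ) (hef : 0 < ef) (hef1 : ef ≤ 1) (C : ℝ)
    (hC : 0 ≤ C) :
    ∃ (K ε : ℝ) (H T0 : ℕ), 0 < ε ∧ ∀ T : ℕ, T0 ≤ T →
      (∀ h : ℕ, 1 ≤ h → h ≤ H → ∀ x : ℕ, T ≤ x → (x : ℝ) ≤ Real.exp K * T →
        |∑ n ∈ Finset.range x, mu n * mu (n + h)| ≤ ε * x) →
      ∀ Bd : Finset ℝ, (∀ g : ℝ, Bad (dc C T) T g → g ∈ Bd) →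
        (T : ℝ) ^ (1 - ef) ≤ (Bd.card : ℝ) := by
  have hη : 0 < ef / 8 := by positivity
  have hη2 : ef / 8 ≤ 1 / 8 := by linarith
  have hRRB := p_RRB
  have hWWB := p_WWB
  obtain ⟨B, C0, hB, hC0, hA⟩ := averagedL RH (ef / 8) (p_IDL hRRB (ef / 8) hη hη2)
    (p_NEARL hRRB p_TAIL (ef / 8) hη hη2) hη hη2 (ef / 48) (by positivity) (by linarith) p_RRP
    p_AVJ p_CONT (p_AVMS p_PAIR)
  obtain ⟨B3, hB3, -, hP⟩ := p_PAIR
  obtain ⟨c, B4, hc, hB4, hDi⟩ := p_DIAG
  set K : ℝ := (16 * (B + 8 * B3 + 2) + B4 * (1 + C)) / c with hK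
  have hK0 : 0 ≤ K := by positivity
  have hcK : c * K = 16 * (B + 8 * B3 + 2) + B4 * (1 + C) := by
    rw [hK]; field_simp
  obtain ⟨H, hH⟩ := exists_nat_ge (Real.exp (2 * K))
  have hH1 : 1 ≤ H := by
    have : (1 : ℝ) ≤ H := (Real.one_le_exp (by positivity)).trans hH
    exact_mod_cast this
  have hHpos : (0 : ℝ) < H := by exact_mod_cast hH1
  obtain ⟨T1, hT1, h1⟩ := hA K hK0
  obtain ⟨T2, hT2, h2⟩ := hP K hK0 H hH1
  obtain ⟨T3, hT3, h3⟩ := hDi C K hC hK0
  obtain ⟨ε, hε, T4, h4⟩ := NEARDL hWWB K hK0 H hH1 1 one_pos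
  have ev : ∀ᶠ T : ℝ in atTop, 4 * C + 4 ≤ Real.log T :=
    Real.tendsto_log_atTop.eventually_ge_atTop _
  have ev2 : ∀ᶠ T : ℝ in atTop, C0 ≤ T ^ (3 * ef / 8) :=
    (tendsto_rpow_atTop (show 0 < 3 * ef / 8 by positivity)).eventually_ge_atTop _
  obtain ⟨T6, hT6⟩ := eventually_atTop.mp (ev.and ev2)
  obtain ⟨T8, hT8⟩ := exists_nat_ge (max (max T1 T2) (max T3 T6))
  refine ⟨K, ε, H, T4 + T8, hε, ?_⟩
  intro T hT hcor Bd hBd
  have hT8r : (T8 : ℝ) ≤ T := by exact_mod_cast (by omega : T8 ≤ T)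
  have g1 : T1 ≤ T := ((le_max_left _ _).trans (le_max_left _ _)).trans (hT8.trans hT8r)
  have g2 : T2 ≤ T := ((le_max_right _ _).trans (le_max_left _ _)).trans (hT8.trans hT8r)
  have g3 : T3 ≤ T := ((le_max_left _ _).trans (le_max_right _ _)).trans (hT8.trans hT8r)
  have g6 : T6 ≤ T := ((le_max_right _ _).trans (le_max_right _ _)).trans (hT8.trans hT8r)
  have hT256 : (256 : ℝ) ≤ T := hT1.trans g1
  have hT100 : (100 : ℝ) ≤ T := by linarith
  have hT0 : (0 : ℝ) < T := by linarith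
  obtain ⟨hlogC, hTC0⟩ := hT6 T g6
  have hlog : 0 < Real.log T := by linarith
  have hpi := Real.pi_gt_three
  have hpi4 := Real.pi_lt_four
  -- the size of the distance
  have hδL : dc C T * Real.log T = Real.pi * (1 - C / Real.log T) := by
    unfold dc
    field_simp
  have hCL : C / Real.log T ≤ 1 / 4 := by
    rw [div_le_iff₀ hlog]
    linarith
  have hCL0 : 0 ≤ C / Real.log T := by positivity
  have hδ2 : 2 ≤ dc C T * Real.log T := by
    rw [hδL]
    have := mul_le_mul_of_nonneg_left (show (3 : ℝ) / 4 ≤ 1 - C / Real.log T by linarith)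
      Real.pi_pos.le
    linarith
  have hδ4 : dc C T * Real.log T ≤ 4 := by
    rw [hδL]
    have := mul_le_mul_of_nonneg_left (show 1 - C / Real.log T ≤ 1 by linarith) Real.pi_pos.le
    linarith
  have hδ0 : 0 < dc C T := by
    by_contra h
    push Not at h
    have := mul_nonpos_of_nonpos_of_nonneg h hlog.le
    linarith
  -- the length
  set N := NK K T with hN
  have hNle : (N : ℝ) ≤ Real.exp K * T := Nat.floor_le (by positivity)
  have hNT2 : (T : ℝ) / 2 ≤ N := by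
    have h5 : Real.exp K * T < (⌊Real.exp K * (T : ℝ)⌋₊ : ℝ) + 1 := Nat.lt_floor_add_one _
    have h6 := Real.one_le_exp hK0
    have h7 : (T : ℝ) ≤ Real.exp K * T := le_mul_of_one_le_left hT0.le h6
    have h8 : (N : ℝ) = (⌊Real.exp K * (T : ℝ)⌋₊ : ℝ) := rfl
    rw [h8]
    linarith
  have k1 := h1 T g1 (dc C T) hδ2 hδ4 N hNT2 hNle Bd hBd
  have k2 := h2 T g2 N hNle
  have k3 := h3 T g3
  rw [← hN] at k3
  obtain ⟨hD1, -, hD8⟩ := DE_basic (ef / 8) hη hη2 T hT256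
  set D := DE (ef / 8) T with hDdef
  have hD0 : 0 < D := by linarith
  have k4 := h4 T (by omega) hcor D (dc C T) N hD0.le (by linarith) hδ0 hδ4 hNle
  have k5 := decomp hWWB T D (dc C T) (by linarith) hD0.le (by linarith) N H
  set S := ∑ m ∈ Finset.Icc 1 N, ∑ n ∈ Finset.Icc 1 N, TT T D (dc C T) m n
  set S1 := ∑ n ∈ Finset.Icc 1 N, mu n ^ 2 / n *
        Real.sin (dc C T * Real.log T / 2 + dc C T * Real.log n)
  set S2 := ∑ m ∈ Finset.Icc 1 N, ∑ n ∈ Finset.Icc 1 N,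
        (if m ≠ n ∧ (T : ℝ) < m ∧ (T : ℝ) < n ∧ m ≤ n + H ∧ n ≤ m + H then
          TT T D (dc C T) m n else 0)
  set S3 := ∑ m ∈ Finset.Icc 1 N, ∑ n ∈ Finset.Icc 1 N,
        (if m = n ∨ ((T : ℝ) < m ∧ (T : ℝ) < n ∧ m ≤ n + H ∧ n ≤ m + H) then 0 else
        1 / (Real.sqrt (m * n) * (Real.log n - Real.log m) ^ 2))
  have hT2 : (0 : ℝ) < (T : ℝ) ^ 2 := by positivity
  have hS3 : S3 ≤ 2 * B3 * (T : ℝ) ^ 2 := by
    refine k2.trans ?_
    have : Real.exp (2 * K) / H ≤ 1 := by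
      rw [div_le_one hHpos]
      exact hH
    have h6 : B3 * (1 + Real.exp (2 * K) / H) ≤ 2 * B3 := by
      have := mul_le_mul_of_nonneg_left (show 1 + Real.exp (2 * K) / H ≤ 2 by linarith) hB3.le
      linarith
    exact mul_le_mul_of_nonneg_right h6 hT2.le
  have hS2 := (abs_le.mp k4).2
  have hS1 : (T : ℝ) ^ 2 / 16 * S1 ≤ (T : ℝ) ^ 2 / 16 * (-(c * K) + B4 * (1 + C)) :=
    mul_le_mul_of_nonneg_left k3 (by positivity)
  have hS1' : (T : ℝ) ^ 2 / 16 * (-(c * K) + B4 * (1 + C)) = -(B + 8 * B3 + 2) * (T : ℝ) ^ 2 := by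
    rw [hcK]; ring
  -- the count
  have m1 : (T : ℝ) ^ 2 ≤ C0 * (Bd.card : ℝ) * T * (T : ℝ) ^ (12 * (ef / 48)) * D ^ 3 := by
    linarith
  have m2 : (T : ℝ) ^ (12 * (ef / 48)) * D ^ 3 = (T : ℝ) ^ (5 * ef / 8) := by
    rw [hDdef]
    unfold DE
    rw [← Real.rpow_natCast ((T : ℝ) ^ (ef / 8)), ← Real.rpow_mul hT0.le, ← Real.rpow_add hT0]
    congr 1
    push_cast
    ring
  have m3 : (T : ℝ) ^ 2 ≤ (C0 * (Bd.card : ℝ) * (T : ℝ) ^ (5 * ef / 8)) * T := by
    calc (T : ℝ) ^ 2 ≤ C0 * (Bd.card : ℝ) * T * (T : ℝ) ^ (12 * (ef / 48)) * D ^ 3 := m1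
      _ = C0 * (Bd.card : ℝ) * T * ((T : ℝ) ^ (12 * (ef / 48)) * D ^ 3) := by ring
      _ = _ := by rw [m2]; ring
  have m4 : (T : ℝ) ≤ C0 * (Bd.card : ℝ) * (T : ℝ) ^ (5 * ef / 8) := by
    rw [sq] at m3
    exact le_of_mul_le_mul_right m3 hT0
  have m5 : (T : ℝ) ≤ (T : ℝ) ^ (3 * ef / 8) * (Bd.card : ℝ) * (T : ℝ) ^ (5 * ef / 8) := by
    refine m4.trans ?_
    have hp : 0 < (T : ℝ) ^ (5 * ef / 8) := Real.rpow_pos_of_pos hT0 _
    gcongr
  have m6 : (T : ℝ) ^ (3 * ef / 8) * (Bd.card : ℝ) * (T : ℝ) ^ (5 * ef / 8) =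
      (T : ℝ) ^ ef * (Bd.card : ℝ) := by
    have : (T : ℝ) ^ (3 * ef / 8) * (T : ℝ) ^ (5 * ef / 8) = (T : ℝ) ^ ef := by
      rw [← Real.rpow_add hT0]
      congr 1
      ring
    rw [← this]
    ring
  rw [m6] at m5
  rw [Real.rpow_sub hT0, Real.rpow_one, div_le_iff₀ (Real.rpow_pos_of_pos hT0 _)]
  linarith

/-- a bad ordinate is one of the two ordinates of a small gap -/
theorem idx_of_bad {δ T g : ℝ} (hT : 1 ≤ T) (hδ : 0 ≤ δ) (hδ1 : δ ≤ 1 / 2) (h : Bad δ T g) :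
    ∃ i : ℕ, 1 ≤ i ∧ (ord i = g ∨ ord (i + 1) = g) ∧ ord (i + 1) - ord i ≤ δ := by
  obtain ⟨h1, h2, h3, h4⟩ := h
  have hg0 : 0 < g := by linarith
  have pt : ∀ t : ℝ, (1 / 2 + I * (t : ℂ)).re = 1 / 2 ∧ (1 / 2 + I * (t : ℂ)).im = t := by
    intro t
    constructor <;> simp
  have jmp : ∀ t : ℝ, 0 < t → riemannZeta (1 / 2 + I * t) = 0 → ∀ u : ℝ, u < t →
      NZ u + zmult (1 / 2 + I * t) ≤ NZ t := by
    intro t ht hz u hu
    have := jump_one (s := 1 / 2 + I * t) hz (by rw [(pt t).1]; norm_num)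
      (by rw [(pt t).1]; norm_num) (by rw [(pt t).2]; exact ht) u (by rw [(pt t).2]; exact hu)
    rwa [(pt t).2] at this
  have zp : ∀ t : ℝ, 0 < t → riemannZeta (1 / 2 + I * t) = 0 → 1 ≤ zmult (1 / 2 + I * t) := by
    intro t ht hz
    exact zmult_pos (by rw [(pt t).2]; exact ht) hz
  -- the last index with ordinate t
  have last : ∀ t : ℝ, 0 < t → riemannZeta (1 / 2 + I * t) = 0 → 1 ≤ NZ t ∧ ord (NZ t) = t := by
    intro t ht hz
    have j0 := jmp t ht hz 0 ht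
    have z0 := zp t ht hz
    have hn : 1 ≤ NZ t := by omega
    refine ⟨hn, le_antisymm ((ord_le_iff hn t).mpr le_rfl) ?_⟩
    by_contra hlt
    push Not at hlt
    have j1 := jmp t ht hz _ hlt
    have j2 := le_NZ_ord hn
    omega
  obtain ⟨hn, hog⟩ := last g hg0 h3
  rcases h4 with h4 | ⟨g', hne, hz', hd⟩
  · -- multiple zero
    have z2 : 2 ≤ zmult (1 / 2 + I * g) := zmult_two (by rw [(pt g).2]; exact hg0) h3 h4
    have j0 := jmp g hg0 h3 0 hg0
    have hn2 : 1 ≤ NZ g - 1 := by omega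
    have e1 : ord (NZ g - 1) = g := by
      refine le_antisymm ((ord_le_iff hn2 g).mpr (by omega)) ?_
      by_contra hlt
      push Not at hlt
      have j1 := jmp g hg0 h3 _ hlt
      have j2 := le_NZ_ord hn2
      omega
    refine ⟨NZ g - 1, hn2, Or.inl e1, ?_⟩
    rw [show NZ g - 1 + 1 = NZ g by omega, hog, e1]
    linarith
  · rw [abs_le] at hd
    have hg'0 : 0 < g' := by linarith
    obtain ⟨hn', hog'⟩ := last g' hg'0 hz'
    rcases lt_or_gt_of_ne hne with hlt | hgt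
    · -- g' < g: the first index with ordinate at least g
      have hex : ∃ n : ℕ, 1 ≤ n ∧ g ≤ ord n := ⟨NZ g, hn, hog.ge⟩
      classical
      set m := Nat.find hex with hm
      obtain ⟨hm1, hm2⟩ := Nat.find_spec hex
      have hmn : m ≤ NZ g := Nat.find_min' hex ⟨hn, hog.ge⟩
      have hm3 : ord m = g := by
        apply le_antisymm _ hm2
        have := ord_mono hm1 hmn
        rwa [hog] at this
      have hm4 : NZ g' < m := by
        by_contra hle
        push Not at hle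
        have := ord_mono hm1 hle
        rw [hog'] at this
        linarith
      have hm5 : ord (NZ g') ≤ ord (m - 1) := ord_mono hn' (by omega)
      refine ⟨m - 1, by omega, Or.inr ?_, ?_⟩
      · rw [show m - 1 + 1 = m by omega]
        exact hm3
      · rw [show m - 1 + 1 = m by omega, hm3]
        rw [hog'] at hm5
        linarith [hd.2]
    · -- g' > g
      have j1 := jmp g' hg'0 hz' g hgt
      have z1 := zp g' hg'0 hz'
      have h5 : ord (NZ g + 1) ≤ g' := (ord_le_iff (by omega) g').mpr (by omega)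
      refine ⟨NZ g, hn, Or.inl hog, ?_⟩
      rw [hog]
      linarith [hd.1]

/-- many indices with a small gap -/
theorem idx_count (T δ X : ℝ) (hT : 2 ≤ T) (hδ : 0 ≤ δ) (hδ1 : δ ≤ 1 / 2)
    (h : ∀ Bd : Finset ℝ, (∀ g : ℝ, Bad δ T g → g ∈ Bd) → X ≤ (Bd.card : ℝ)) :
    X ≤ 2 * ({i : ℕ | 1 ≤ i ∧ T / 2 ≤ ord i ∧ ord (i + 1) ≤ 4 * T ∧
      ord (i + 1) - ord i ≤ δ}.ncard : ℝ) := by
  classical
  set A : Set ℕ := {i : ℕ | 1 ≤ i ∧ T / 2 ≤ ord i ∧ ord (i + 1) ≤ 4 * T ∧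
      ord (i + 1) - ord i ≤ δ} with hA
  have hfin : A.Finite := by
    apply (Set.finite_Icc 1 (NZ (4 * T))).subset
    rintro i ⟨h1, _, h3, _⟩
    have h4 := (ord_le_iff (by omega : 1 ≤ i + 1) (4 * T)).mp h3
    exact ⟨h1, by omega⟩
  set F := hfin.toFinset with hF
  have hcard : A.ncard = F.card := Set.ncard_eq_toFinset_card A hfin
  set Bd : Finset ℝ := F.image ord ∪ F.image (fun i => ord (i + 1)) with hBd
  have hmem : ∀ g : ℝ, Bad δ T g → g ∈ Bd := by
    intro g hg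
    obtain ⟨i, hi1, hi2, hi3⟩ := idx_of_bad (by linarith) hδ hδ1 hg
    obtain ⟨g1, g2, -, -⟩ := hg
    have hm := ord_mono hi1 (by omega : i ≤ i + 1)
    have hiF : i ∈ F := by
      rw [hF, Set.Finite.mem_toFinset]
      refine ⟨hi1, ?_, ?_, hi3⟩
      · rcases hi2 with h5 | h5 <;> linarith
      · rcases hi2 with h5 | h5 <;> linarith
    rw [hBd, Finset.mem_union, Finset.mem_image, Finset.mem_image]
    rcases hi2 with h5 | h5
    · exact Or.inl ⟨i, hiF, h5⟩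
    · exact Or.inr ⟨i, hiF, h5⟩
  have h1 := h Bd hmem
  have h2 : Bd.card ≤ F.card + F.card := by
    calc Bd.card ≤ (F.image ord).card + (F.image (fun i => ord (i + 1))).card :=
          Finset.card_union_le _ _
      _ ≤ _ := Nat.add_le_add Finset.card_image_le Finset.card_image_le
  have h3 : (Bd.card : ℝ) ≤ (F.card : ℝ) + F.card := by exact_mod_cast h2
  rw [hcard]
  linarith

/-- from the gap at the scale `T` to the normalised gap -/
lemma norm_gap2 (C β : ℝ) : ∃ C' T0 : ℝ, 0 < C' ∧ 100 ≤ T0 ∧ ∀ T : ℝ, T0 ≤ T → ∀ n : ℕ,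
    T / 2 ≤ ord n → ord n ≤ ord (n + 1) → ord (n + 1) ≤ 4 * T → ord (n + 1) - ord n ≤ dc C' T →
    (ord (n + 1) * Real.log (ord (n + 1)) - ord n * Real.log (ord n)) / (2 * Real.pi) +
      β * (ord (n + 1) - ord n) < 1 / 2 - C / Real.log (ord n) := by
  set C1 : ℝ := max C 0 with hC1
  have hC10 : 0 ≤ C1 := le_max_right _ _
  have hCC1 : C ≤ C1 := le_max_left _ _
  obtain ⟨b, hb0⟩ : ∃ b : ℝ, b = 3 + 7 * |β| := ⟨_, rfl⟩
  have hβ0 : 0 ≤ |β| := abs_nonneg β
  have hb1 : 0 ≤ b := by rw [hb0]; positivity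
  set C2 : ℝ := 4 * C1 + b + 1 with hC2
  refine ⟨C2, max 100 (Real.exp (C2 + 1)), by positivity, le_max_left _ _, ?_⟩
  intro T hT n h3 h4 h5 h6
  have h8 : Real.exp (C2 + 1) ≤ T := (le_max_right _ _).trans hT
  have hT100 : (100 : ℝ) ≤ T := (le_max_left _ _).trans hT
  have hTpos : (0 : ℝ) < T := by linarith
  have hlogT : C2 + 1 ≤ Real.log T := by rwa [Real.le_log_iff_exp_le hTpos]
  have hL : 0 < Real.log T := by linarith
  have hL4 : 4 ≤ Real.log T := SG.Hor.four_le_log T hT100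
  have hord : 0 < ord n := by linarith
  have hord1 : 0 < ord (n + 1) := by linarith
  have hpi := Real.pi_pos
  have hlog2 := Real.log_two_lt_d9
  have hgap : 0 ≤ ord (n + 1) - ord n := by linarith
  have e1 : ord (n + 1) * Real.log (ord (n + 1)) - ord n * Real.log (ord n) ≤
      (ord (n + 1) - ord n) * (Real.log T + 3) := by
    have h7 : Real.log (ord (n + 1)) ≤ Real.log T + 2 := by
      have := Real.log_le_log hord1 h5
      rw [Real.log_mul (by norm_num) hTpos.ne', show (4 : ℝ) = 2 ^ 2 by norm_num,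
        Real.log_pow] at this
      push_cast at this
      linarith
    have h9 := Real.log_le_sub_one_of_pos (show 0 < ord (n + 1) / ord n by positivity)
    rw [Real.log_div hord1.ne' hord.ne'] at h9
    have h10 : ord n * (Real.log (ord (n + 1)) - Real.log (ord n)) ≤ ord (n + 1) - ord n := by
      calc ord n * (Real.log (ord (n + 1)) - Real.log (ord n)) ≤
            ord n * (ord (n + 1) / ord n - 1) := mul_le_mul_of_nonneg_left h9 hord.le
        _ = ord (n + 1) - ord n := by field_simp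
    have h11 : (ord (n + 1) - ord n) * Real.log (ord (n + 1)) ≤
        (ord (n + 1) - ord n) * (Real.log T + 2) :=
      mul_le_mul_of_nonneg_left h7 (by linarith)
    nlinarith
  have e2 : (ord (n + 1) * Real.log (ord (n + 1)) - ord n * Real.log (ord n)) / (2 * Real.pi) +
      β * (ord (n + 1) - ord n) ≤ (ord (n + 1) - ord n) * (Real.log T + b) / (2 * Real.pi) := by
    have h12 : β * (ord (n + 1) - ord n) ≤ 7 * |β| * (ord (n + 1) - ord n) / (2 * Real.pi) := by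
      rw [le_div_iff₀ (by positivity)]
      have h13 : β * (ord (n + 1) - ord n) ≤ |β| * (ord (n + 1) - ord n) :=
        mul_le_mul_of_nonneg_right (le_abs_self β) hgap
      have h14 : 2 * Real.pi ≤ 7 := by linarith [Real.pi_lt_d2]
      have h15 : 0 ≤ |β| * (ord (n + 1) - ord n) := by positivity
      nlinarith
    have h16 := div_le_div_of_nonneg_right e1 (by positivity : 0 ≤ 2 * Real.pi)
    have h17 : (ord (n + 1) - ord n) * (Real.log T + b) / (2 * Real.pi) =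
        (ord (n + 1) - ord n) * (Real.log T + 3) / (2 * Real.pi) +
          7 * |β| * (ord (n + 1) - ord n) / (2 * Real.pi) := by
      rw [hb0]; ring
    linarith
  refine lt_of_le_of_lt e2 ?_
  set L := Real.log T with hLdef
  have hb : L / 2 ≤ Real.log (ord n) := by
    have h20 : Real.log (T / 2) ≤ Real.log (ord n) := Real.log_le_log (by positivity) h3
    rw [Real.log_div hTpos.ne' (by norm_num)] at h20
    linarith
  have hCL : 0 ≤ 1 - C2 / L := by
    have : C2 / L ≤ 1 := by rw [div_le_one hL]; linarith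
    linarith
  have k1 : (ord (n + 1) - ord n) * (L + b) / (2 * Real.pi) ≤
      1 / 2 * (1 - C2 / L) * ((L + b) / L) := by
    rw [div_le_iff₀ (by positivity)]
    calc (ord (n + 1) - ord n) * (L + b) ≤ Real.pi / L * (1 - C2 / L) * (L + b) :=
          mul_le_mul_of_nonneg_right h6 (by linarith)
      _ = 1 / 2 * (1 - C2 / L) * ((L + b) / L) * (2 * Real.pi) := by ring
  have k2 : 1 / 2 * (1 - C2 / L) * ((L + b) / L) < 1 / 2 - 2 * C1 / L := by
    have e1 : (L + b) / L = 1 + b * (1 / L) := by field_simp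
    rw [e1]
    have hL1 : 0 < 1 / L := by positivity
    have e2 : C2 / L = C2 * (1 / L) := by ring
    have e3 : 2 * C1 / L = 2 * C1 * (1 / L) := by ring
    rw [e2, e3, hC2]
    set u := 1 / L
    have hh : 0 ≤ b * (4 * C1 + b + 1) * u ^ 2 := by positivity
    nlinarith
  have k3 : C / Real.log (ord n) ≤ 2 * C1 / L := by
    calc C / Real.log (ord n) ≤ C1 / Real.log (ord n) :=
          div_le_div_of_nonneg_right hCC1 (by linarith)
      _ ≤ C1 / (L / 2) := div_le_div_of_nonneg_left hC10 (by linarith) hb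
      _ = 2 * C1 / L := by field_simp
  linarith

/-- **many small gaps in every long window** -/
theorem many_gaps (RH : RiemannHypothesis) (C β ε : ℝ) (hε : 0 < ε) :
    ∃ B T0 : ℝ, ∀ T : ℝ, T0 ≤ T →
      T ^ (1 - ε) ≤ ({j : ℕ | 1 ≤ j ∧ T ≤ ord j ∧ ord (j + 1) ≤ B * T ∧
        (ord (j + 1) * Real.log (ord (j + 1)) - ord j * Real.log (ord j)) / (2 * Real.pi) +
          β * (ord (j + 1) - ord j) < 1 / 2 - C / Real.log (ord j)}.ncard : ℝ) := by
  obtain ⟨C', T2, hC', hT2, h2⟩ := norm_gap2 C β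
  obtain ⟨ef, hef, hef1, hefε⟩ : ∃ ef : ℝ, 0 < ef ∧ ef ≤ 1 ∧ 2 * ef ≤ ε :=
    ⟨min ε 1 / 2, by positivity, by linarith [min_le_right ε 1], by linarith [min_le_left ε 1]⟩
  obtain ⟨K, ε', H, T1, hε', h1⟩ := coreL RH ef hef hef1 C' hC'.le
  obtain ⟨B, T3, hB, h3⟩ := Ban.chow_ban H K ε' hε'
  have hBr : (1 : ℝ) ≤ B := by exact_mod_cast hB
  have ev1 : ∀ᶠ T : ℝ in atTop, C' + 8 ≤ Real.log T :=
    Real.tendsto_log_atTop.eventually_ge_atTop _
  have ev2 : ∀ᶠ T : ℝ in atTop, 2 ≤ T ^ ef := (tendsto_rpow_atTop hef).eventually_ge_atTop _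
  obtain ⟨T4, hT4⟩ := eventually_atTop.mp (ev1.and ev2)
  refine ⟨12 * B, max (max T2 T4) (T1 + T3 + 3), fun T hT => ?_⟩
  have g1 : T2 ≤ T := ((le_max_left _ _).trans (le_max_left _ _)).trans hT
  have g2 : T4 ≤ T := ((le_max_right _ _).trans (le_max_left _ _)).trans hT
  have g3 : (T1 : ℝ) + T3 + 3 ≤ T := (le_max_right _ _).trans hT
  have hT1n : (0 : ℝ) ≤ T1 := Nat.cast_nonneg _
  have hT3n : (0 : ℝ) ≤ T3 := Nat.cast_nonneg _
  have hT0 : 0 < T := by linarith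
  have hTceil : 2 * T ≤ ⌈2 * T⌉₊ := Nat.le_ceil _
  have hTceil2 : (⌈2 * T⌉₊ : ℝ) ≤ 3 * T := by
    have := (Nat.ceil_lt_add_one (by linarith : 0 ≤ 2 * T)).le
    linarith
  obtain ⟨T', h5, h6, h7⟩ := h3 ⌈2 * T⌉₊ (by
    have : (T3 : ℝ) ≤ (⌈2 * T⌉₊ : ℝ) := by linarith
    exact_mod_cast this)
  have h5r : 2 * T ≤ T' := hTceil.trans (by exact_mod_cast h5.le)
  have h6r : (T' : ℝ) ≤ 3 * B * T := by
    have h8 : (T' : ℝ) ≤ B * (⌈2 * T⌉₊ : ℝ) := by exact_mod_cast h6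
    calc (T' : ℝ) ≤ B * (⌈2 * T⌉₊ : ℝ) := h8
      _ ≤ B * (3 * T) := mul_le_mul_of_nonneg_left hTceil2 (by linarith)
      _ = _ := by ring
  have hT1' : T1 ≤ T' := by
    have : (T1 : ℝ) ≤ (T' : ℝ) := by linarith
    exact_mod_cast this
  obtain ⟨l1, l2⟩ := hT4 T' (by linarith)
  obtain ⟨-, l3⟩ := hT4 T g2
  have hlogT' : 0 < Real.log T' := by linarith
  have hpi := Real.pi_pos
  have hpi4 := Real.pi_lt_four
  have hdc0 : 0 ≤ dc C' T' := by
    unfold dc
    have : C' / Real.log T' ≤ 1 := by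
      rw [div_le_one hlogT']; linarith
    have h9 : 0 ≤ 1 - C' / Real.log T' := by linarith
    positivity
  have hdc1 : dc C' T' ≤ 1 / 2 := by
    unfold dc
    have h9 : 0 ≤ C' / Real.log T' := by positivity
    have h10 : Real.pi / Real.log T' ≤ 1 / 2 := by
      rw [div_le_iff₀ hlogT']
      linarith
    have h11 : 0 ≤ Real.pi / Real.log T' := by positivity
    nlinarith
  have key := idx_count T' (dc C' T') ((T' : ℝ) ^ (1 - ef)) (by linarith) hdc0 hdc1
    (h1 T' hT1' h7)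
  set A : Set ℕ := {i : ℕ | 1 ≤ i ∧ (T' : ℝ) / 2 ≤ ord i ∧ ord (i + 1) ≤ 4 * T' ∧
      ord (i + 1) - ord i ≤ dc C' T'} with hA
  set A' : Set ℕ := {j : ℕ | 1 ≤ j ∧ T ≤ ord j ∧ ord (j + 1) ≤ 12 * B * T ∧
        (ord (j + 1) * Real.log (ord (j + 1)) - ord j * Real.log (ord j)) / (2 * Real.pi) +
          β * (ord (j + 1) - ord j) < 1 / 2 - C / Real.log (ord j)} with hA'
  have hfin : A'.Finite := by
    apply (Set.finite_Icc 1 (NZ (12 * B * T))).subset
    rintro i ⟨i1, _, i3, _⟩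
    have i4 := (ord_le_iff (by omega : 1 ≤ i + 1) (12 * B * T)).mp i3
    exact ⟨i1, by omega⟩
  have hsub : A ⊆ A' := by
    rintro i ⟨i1, i2, i3, i4⟩
    have hm := ord_mono i1 (by omega : i ≤ i + 1)
    exact ⟨i1, by linarith, by linarith, h2 T' (by linarith) i i2 hm i3 i4⟩
  have hcard : (A.ncard : ℝ) ≤ A'.ncard := by exact_mod_cast Set.ncard_le_ncard hsub hfin
  have hmono : T ^ (1 - ef) ≤ (T' : ℝ) ^ (1 - ef) :=
    Real.rpow_le_rpow hT0.le (by linarith) (by linarith)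
  have hfinal : 2 * T ^ (1 - ε) ≤ T ^ (1 - ef) := by
    calc 2 * T ^ (1 - ε) ≤ T ^ ef * T ^ (1 - ε) :=
          mul_le_mul_of_nonneg_right l3 (Real.rpow_nonneg hT0.le _)
      _ = T ^ (ef + (1 - ε)) := by rw [Real.rpow_add hT0]
      _ ≤ T ^ (1 - ef) := Real.rpow_le_rpow_of_exponent_le (by linarith) (by linarith)
  linarith

end Pool.Agent.T9h61.AH
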