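import Pool.Agent.T9h61.AH.WL
import Pool.Agent.H382R2.Rect
import Pool.Agent.H382R2.Gam

/-! The deep contour shift in local windows (copy of `N806/HG/DEEP.lean`). -/

set_option autoImplicit false

open Complex Filter Topology Set MeasureTheory

namespace Pool.Agent.T9h61.AH

open SG SG.Deep Pool.Agent.N806.HG

/-- (DEEP) products that decay like `r ^ σ`, `r ^ D ≤ exp (- log² T / 2)`, have negligible integral -/
def S_DEEPL (η : ℝ) : Prop := ∃ T0 : ℝ, 100 ≤ T0 ∧ ∀ T : ℝ, T0 ≤ T → ∀ δ t0 U1 U2 r : ℝ, 0 < δ →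
  δ * Real.log T ≤ 4 → WinL T (DE η T) t0 U1 U2 → 0 < r → r ≤ 1 →
  r ^ (DE η T) ≤ Real.exp (-(Real.log T ^ 2 / 2)) → ∀ F : ℂ → ℂ,
  (∀ s : ℂ, 5 / 2 ≤ s.re → 1 ≤ s.im → AnalyticAt ℂ F s) →
  (∀ s : ℂ, 5 / 2 ≤ s.re → 1 ≤ s.im → ‖F s‖ ≤ T ^ (20 : ℝ) * r ^ s.re) →
  ‖∫ t in U1..U2, phi t0 (DE η T) (⟨5 / 2, t⟩ : ℂ) * rr δ (⟨5 / 2, t⟩ : ℂ) * F (⟨5 / 2, t⟩ : ℂ)‖ ≤ 1

/-- **DEEP** -/
theorem p_DEEPL (h : S_RRB) (η : ℝ) (hη : 0 < η) (hη2 : η ≤ 1 / 8) : S_DEEPL η := by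
  obtain ⟨C, Ta, hC1, hTa, hrr⟩ := h
  have hC : 0 < C := by linarith
  -- asymptotic facts
  have ev1 : ∀ᶠ T : ℝ in atTop, T ^ (21 : ℝ) * Real.exp (-(DE η T)) < 1 / (4 * C) :=
    (tendsto_pow_expL 21 η hη).eventually_lt_const (by positivity)
  have ev3 : ∀ᶠ T : ℝ in atTop, 9 ≤ DE η T := (DE_tendsto η hη).eventually_ge_atTop 9
  have ev5 : ∀ᶠ T : ℝ in atTop, 44 ≤ Real.log T :=
    Real.tendsto_log_atTop.eventually_ge_atTop _
  have ev := (ev1.and ((eventually_ge_atTop (4 * C * Real.exp (1 / 2))).and (ev3.and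
    (ev5.and ((eventually_ge_atTop Ta).and 
      (eventually_ge_atTop 256))))))
  obtain ⟨T0, hT0⟩ := eventually_atTop.mp ev
  refine ⟨max T0 100, le_max_right _ _, ?_⟩
  intro T hT δ t0 U1 U2 r hδ0 hδ4 hwin hr0 hr1 hrD F hFa hFb
  obtain ⟨hU1, hU1', hU2, hU2'⟩ := hwin
  obtain ⟨h1, h2, h3, h5, h6, h8⟩ := hT0 T ((le_max_left _ _).trans hT)
  have hTpos : 0 < T := by linarith
  have hlog : 0 < Real.log T := by linarith
  have hdl : |δ| ≤ 1 := by
    rw [abs_of_pos hδ0]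
    by_contra hcon
    push Not at hcon
    nlinarith
  have hDpos : 0 < DE η T := DE_pos η hTpos
  have hD8 : DE η T ≤ T / 8 := (DE_basic η hη hη2 T h8).2.2
  set D := DE η T with hDdef
  have hD2 : 0 < D ^ 2 := by positivity
  have hU12 : U1 ≤ U2 := by linarith
  -- the right end
  have h2' : T ^ (21 : ℝ) * Real.exp (-(Real.log T ^ 2 / 2)) ≤ 1 / (4 * C * Real.exp (1 / 2)) := by
    have e1 : T ^ (21 : ℝ) * Real.exp (-(Real.log T ^ 2 / 2)) =
        Real.exp (21 * Real.log T - Real.log T ^ 2 / 2) := by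
      rw [Real.rpow_def_of_pos hTpos, ← Real.exp_add]
      congr 1
      ring
    have e2 : Real.exp (21 * Real.log T - Real.log T ^ 2 / 2) ≤ Real.exp (-Real.log T) := by
      apply Real.exp_le_exp.2
      nlinarith
    have e3 : Real.exp (-Real.log T) = 1 / T := by
      rw [Real.exp_neg, Real.exp_log hTpos, one_div]
    rw [e1]
    refine e2.trans ?_
    rw [e3]
    exact one_div_le_one_div_of_le (by positivity) h2
  set H : ℂ → ℂ := fun s => phi t0 D s * rr δ s * F s with hH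
  have hrect := rect_zero H (5 / 2) (1 / 2 + D) U1 U2 (by linarith) (by linarith) (by
    intro s hs
    rw [mem_reProdIm] at hs
    obtain ⟨⟨hs1, hs2⟩, hs3, hs4⟩ := hs
    exact ((phi_analytic _ _ s).mul (rr_analytic _ hdl s (by linarith))).mul
      (hFa s hs1 (by linarith)))
  -- horizontal bound
  have hhor : ∀ U : ℝ, T ≤ U → U ≤ 2 * T → D ^ 2 / 2 ≤ |U - t0| →
      ‖∫ x in (5 / 2 : ℝ)..(1 / 2 + D), H (⟨x, U⟩ : ℂ)‖ ≤ 1 / 4 := by
    intro U hUa hUb hUc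
    have hb : ∀ x ∈ Set.uIoc (5 / 2 : ℝ) (1 / 2 + D), ‖H (⟨x, U⟩ : ℂ)‖ ≤
        Real.exp (-D) * C * T ^ (20 : ℝ) := by
      intro x hx
      rw [uIoc_of_le (by linarith)] at hx
      obtain ⟨hx1, hx2⟩ := hx
      have b1 := phi_tinyL t0 D h3 (⟨x, U⟩ : ℂ) (by
        simp only
        rw [abs_of_nonneg (by linarith)]
        linarith) hUc
      have b2 := hrr T h6 δ hδ0 hδ4 (⟨x, U⟩ : ℂ) hUa hUb (by
        simp only
        rw [abs_of_nonneg (by linarith)]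
        linarith)
      have b3 := hFb (⟨x, U⟩ : ℂ) hx1.le (by simp only; linarith)
      have b4 : ‖F (⟨x, U⟩ : ℂ)‖ ≤ T ^ (20 : ℝ) := by
        refine b3.trans ?_
        have : r ^ (⟨x, U⟩ : ℂ).re ≤ 1 :=
          Real.rpow_le_one hr0.le hr1 (by simp only; linarith)
        have hp : (0 : ℝ) < T ^ (20 : ℝ) := Real.rpow_pos_of_pos hTpos _
        nlinarith
      simp only [hH]
      rw [norm_mul, norm_mul]
      apply mul_le_mul _ b4 (norm_nonneg _) (by positivity)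
      exact mul_le_mul b1 b2 (norm_nonneg _) (by positivity)
    refine (intervalIntegral.norm_integral_le_of_norm_le_const hb).trans ?_
    have hlen : |1 / 2 + D - 5 / 2| ≤ T := by
      rw [abs_of_nonneg (by linarith)]
      linarith
    have hp : (0 : ℝ) < T ^ (20 : ℝ) := Real.rpow_pos_of_pos hTpos _
    calc Real.exp (-D) * C * T ^ (20 : ℝ) * |1 / 2 + D - 5 / 2|
        ≤ Real.exp (-D) * C * T ^ (20 : ℝ) * T :=
          mul_le_mul_of_nonneg_left hlen (by positivity)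
      _ = C * (T ^ (21 : ℝ) * Real.exp (-D)) := by
          rw [show (21 : ℝ) = 20 + 1 by norm_num, Real.rpow_add hTpos, Real.rpow_one]
          ring
      _ ≤ C * (1 / (4 * C)) := mul_le_mul_of_nonneg_left h1.le (by linarith)
      _ = 1 / 4 := by field_simp
  -- right side
  have hright : ‖∫ y in U1..U2, H (⟨1 / 2 + D, y⟩ : ℂ)‖ ≤ 1 / 4 := by
    have hb : ∀ y ∈ Set.uIoc U1 U2, ‖H (⟨1 / 2 + D, y⟩ : ℂ)‖ ≤
        Real.exp (1 / 2) * C * (T ^ (20 : ℝ) * Real.exp (-(Real.log T ^ 2 / 2))) := by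
      intro y hy
      rw [uIoc_of_le hU12] at hy
      obtain ⟨hy1, hy2⟩ := hy
      have b1 : ‖phi t0 D (⟨1 / 2 + D, y⟩ : ℂ)‖ ≤ Real.exp (1 / 2) := by
        rw [phi_norm _ _ hDpos]
        apply Real.exp_le_exp.mpr
        simp only
        rw [div_le_iff₀ (by positivity)]
        nlinarith [sq_nonneg (y - t0)]
      have b2 := hrr T h6 δ hδ0 hδ4 (⟨1 / 2 + D, y⟩ : ℂ) (by simp only; linarith)
        (by simp only; linarith) (by
        simp only
        rw [abs_of_nonneg (by linarith)]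
        linarith)
      have b3 := hFb (⟨1 / 2 + D, y⟩ : ℂ) (by simp only; linarith) (by simp only; linarith)
      have b4 : ‖F (⟨1 / 2 + D, y⟩ : ℂ)‖ ≤
          T ^ (20 : ℝ) * Real.exp (-(Real.log T ^ 2 / 2)) := by
        refine b3.trans ?_
        apply mul_le_mul_of_nonneg_left _ (Real.rpow_pos_of_pos hTpos _).le
        simp only
        refine le_trans ?_ hrD
        exact Real.rpow_le_rpow_of_exponent_ge hr0 hr1 (by linarith)
      simp only [hH]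
      rw [norm_mul, norm_mul]
      apply mul_le_mul _ b4 (norm_nonneg _) (by positivity)
      exact mul_le_mul b1 b2 (norm_nonneg _) (by positivity)
    refine (intervalIntegral.norm_integral_le_of_norm_le_const hb).trans ?_
    have hlen : |U2 - U1| ≤ T := by
      rw [abs_of_nonneg (by linarith)]
      linarith
    calc Real.exp (1 / 2) * C * (T ^ (20 : ℝ) * Real.exp (-(Real.log T ^ 2 / 2))) * |U2 - U1|
        ≤ Real.exp (1 / 2) * C * (T ^ (20 : ℝ) * Real.exp (-(Real.log T ^ 2 / 2))) * T :=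
          mul_le_mul_of_nonneg_left hlen (by positivity)
      _ = Real.exp (1 / 2) * C * (T ^ (21 : ℝ) * Real.exp (-(Real.log T ^ 2 / 2))) := by
          rw [show (21 : ℝ) = 20 + 1 by norm_num, Real.rpow_add hTpos, Real.rpow_one]
          ring
      _ ≤ Real.exp (1 / 2) * C * (1 / (4 * C * Real.exp (1 / 2))) :=
          mul_le_mul_of_nonneg_left h2' (by positivity)
      _ = 1 / 4 := by field_simp
  have hbot := hhor U1 hU1 (by linarith) (by rw [abs_of_nonpos (by linarith)]; linarith)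
  have htop := hhor U2 (by linarith) hU2' (by rw [abs_of_nonneg (by linarith)]; linarith)
  unfold rectI at hrect
  have hleft : I * (∫ t in U1..U2, H (⟨5 / 2, t⟩ : ℂ)) =
      (∫ x in (5 / 2 : ℝ)..(1 / 2 + D), H (⟨x, U1⟩ : ℂ)) -
      (∫ x in (5 / 2 : ℝ)..(1 / 2 + D), H (⟨x, U2⟩ : ℂ)) +
      I * (∫ y in U1..U2, H (⟨1 / 2 + D, y⟩ : ℂ)) := by
    linear_combination -hrect
  have hn : ‖I * (∫ t in U1..U2, H (⟨5 / 2, t⟩ : ℂ))‖ = ‖∫ t in U1..U2, H (⟨5 / 2, t⟩ : ℂ)‖ := by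
    rw [norm_mul, norm_I, one_mul]
  rw [← hn, hleft]
  refine (norm_add_le _ _).trans ?_
  have hn2 : ‖I * (∫ y in U1..U2, H (⟨1 / 2 + D, y⟩ : ℂ))‖ =
      ‖∫ y in U1..U2, H (⟨1 / 2 + D, y⟩ : ℂ)‖ := by
    rw [norm_mul, norm_I, one_mul]
  rw [hn2]
  have := norm_sub_le (∫ x in (5 / 2 : ℝ)..(1 / 2 + D), H (⟨x, U1⟩ : ℂ))
    (∫ x in (5 / 2 : ℝ)..(1 / 2 + D), H (⟨x, U2⟩ : ℂ))
  linarith

end Pool.Agent.T9h61.AH
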