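import Pool.Agent.T9h61.AH.WL
import Pool.Agent.N806.HG.LINE

/-! The main integral on the critical line, local windows (copy of `N806/HG/LINE.lean`). -/

set_option autoImplicit false

open Complex Filter Topology Set MeasureTheory

namespace Pool.Agent.T9h61.AH

open SG SG.MVaux SG.MNaux Pool.Agent.N806.HG Pool.Agent.N806.HG.LINE

/-- the tail of the main integral is small -/
theorem tailL (η : ℝ) (hη : 0 < η) (hη2 : η ≤ 1 / 8) (K : ℝ) : ∃ T0 : ℝ, 400 ≤ T0 ∧ ∀ T : ℝ, T0 ≤ T →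
    ∀ t0 U1 U2 : ℝ, WinL T (DE η T) t0 U1 U2 → ∀ N : ℕ, (N : ℝ) ≤ Real.exp K * T → ∀ a b : ℝ,
    ‖(∫ t : ℝ, (Real.exp (-(t - t0) ^ 2 / (2 * DE η T ^ 2)) : ℂ) *
        AA N (1 / 2 + I * (t + a)) * AA N (1 / 2 - I * (t + b))) -
      ∫ t in U1..U2, (Real.exp (-(t - t0) ^ 2 / (2 * DE η T ^ 2)) : ℂ) *
        AA N (1 / 2 + I * (t + a)) * AA N (1 / 2 - I * (t + b))‖ ≤ 1 := by
  have ev1 : ∀ᶠ T : ℝ in atTop, T ^ (4 : ℝ) * Real.exp (-(DE η T)) < 1 / (6 * Real.exp K ^ 2) :=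
    (tendsto_pow_expL 4 η hη).eventually_lt_const (by positivity)
  have ev2 : ∀ᶠ T : ℝ in atTop, 16 ≤ DE η T := (DE_tendsto η hη).eventually_ge_atTop 16
  obtain ⟨T0, hT0⟩ := eventually_atTop.mp (ev1.and ev2)
  refine ⟨max T0 400, le_max_right _ _, fun T hT t0 U1 U2 hw N hN a b => ?_⟩
  obtain ⟨e1, e2⟩ := hT0 T ((le_max_left _ _).trans hT)
  have hT400 : 400 ≤ T := (le_max_right _ _).trans hT
  have hTpos : 0 < T := by linarith
  obtain ⟨hU1, hU1', hU2, hU2'⟩ := hw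
  obtain ⟨hD1, -, hDT8⟩ := DE_basic η hη hη2 T (by linarith)
  set D := DE η T with hDdef
  have hD : 0 < D := by linarith
  set F : ℝ → ℂ := fun t => (Real.exp (-(t - t0) ^ 2 / (2 * D ^ 2)) : ℂ) *
        AA N (1 / 2 + I * (t + a)) * AA N (1 / 2 - I * (t + b)) with hF
  have hFi : Integrable F := main_int N D t0 a b hD
  have hD2p : 0 < D ^ 2 := by positivity
  have h12 : U1 ≤ U2 := by linarith
  rw [intervalIntegral.integral_of_le h12]
  have hsplit := integral_add_compl (μ := volume) (measurableSet_Ioc (a := U1) (b := U2)) hFi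
  rw [← hsplit, add_sub_cancel_left]
  have hDT : D ≤ T := by linarith
  have hNn : (0 : ℝ) ≤ N := Nat.cast_nonneg _
  have hpt : ∀ t ∈ (Ioc U1 U2)ᶜ, ‖F t‖ ≤
      (Real.exp K * T) ^ 2 * Real.exp (-D) *
        Real.exp (-(t - t0) ^ 2 / (2 * (√2 * D) ^ 2)) := by
    intro t ht
    have hs2 : (√2 * D) ^ 2 = 2 * D ^ 2 := by
      rw [mul_pow, Real.sq_sqrt (by norm_num)]
    have htt : (D ^ 2 / 2) ^ 2 ≤ (t - t0) ^ 2 := by
      rw [mem_compl_iff, mem_Ioc, not_and_or, not_lt, not_le] at ht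
      rw [← sq_abs (t - t0)]
      apply pow_le_pow_left₀ (by positivity)
      rcases ht with ht | ht
      · rw [abs_of_nonpos (by linarith)]
        linarith
      · rw [abs_of_nonneg (by linarith)]
        linarith
    have hA : ‖AA N (1 / 2 + I * (t + a))‖ ≤ Real.exp K * T := by
      have := AA_half N (t + a)
      push_cast at this
      linarith
    have hB : ‖AA N (1 / 2 - I * (t + b))‖ ≤ Real.exp K * T := by
      have := AA_half' N (t + b)
      push_cast at this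
      linarith
    have hE : Real.exp (-(t - t0) ^ 2 / (2 * D ^ 2)) ≤
        Real.exp (-D) *
          Real.exp (-(t - t0) ^ 2 / (2 * (√2 * D) ^ 2)) := by
      rw [← Real.exp_add, hs2]
      apply Real.exp_le_exp.mpr
      have e1 : -(t - t0) ^ 2 / (2 * D ^ 2) = -(t - t0) ^ 2 / (2 * (2 * D ^ 2)) -
          (t - t0) ^ 2 / (4 * D ^ 2) := by
        field_simp
        ring
      rw [e1]
      have e2' : D ≤ (t - t0) ^ 2 / (4 * D ^ 2) := by
        rw [le_div_iff₀ (by positivity)]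
        have : D * (4 * D ^ 2) ≤ (D ^ 2 / 2) ^ 2 := by
          have h5 : D * (4 * D ^ 2) = (D ^ 2 * D) * 4 := by ring
          have h6 : (D ^ 2 / 2) ^ 2 = (D ^ 2 * D) * (D / 4) := by ring
          rw [h5, h6]
          apply mul_le_mul_of_nonneg_left _ (by positivity)
          linarith
        linarith
      linarith
    rw [hF]
    simp only
    rw [norm_mul, norm_mul, Complex.norm_real, Real.norm_of_nonneg (Real.exp_pos _).le]
    have hKT : 0 ≤ Real.exp K * T := by positivity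
    calc Real.exp (-(t - t0) ^ 2 / (2 * D ^ 2)) * ‖AA N (1 / 2 + I * (t + a))‖ *
          ‖AA N (1 / 2 - I * (t + b))‖
        ≤ (Real.exp (-D) *
            Real.exp (-(t - t0) ^ 2 / (2 * (√2 * D) ^ 2))) * (Real.exp K * T) *
              (Real.exp K * T) := by
          apply mul_le_mul _ hB (norm_nonneg _) (by positivity)
          exact mul_le_mul hE hA (norm_nonneg _) (by positivity)
      _ = _ := by ring
  have hs2D : 0 < √2 * D := by positivity
  have hgi := Deep.gauss_integrable (√2 * D) t0 hs2D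
  have hgI := Deep.gauss_integral (√2 * D) t0 hs2D
  have hs : Real.sqrt (2 * Real.pi) ≤ 3 := by
    rw [Real.sqrt_le_left (by norm_num)]
    have := Real.pi_lt_d2
    norm_num at this ⊢
    linarith
  have hsq2 : √2 ≤ 2 := by
    rw [Real.sqrt_le_left (by norm_num)]; norm_num
  calc ‖∫ t in (Ioc U1 U2)ᶜ, F t‖ ≤ ∫ t in (Ioc U1 U2)ᶜ,
        (Real.exp K * T) ^ 2 * Real.exp (-D) *
          Real.exp (-(t - t0) ^ 2 / (2 * (√2 * D) ^ 2)) := by
        apply norm_integral_le_of_norm_le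
        · exact (hgi.const_mul _).integrableOn
        · rw [ae_restrict_iff' measurableSet_Ioc.compl]
          exact Eventually.of_forall hpt
    _ ≤ ∫ t, (Real.exp K * T) ^ 2 * Real.exp (-D) *
          Real.exp (-(t - t0) ^ 2 / (2 * (√2 * D) ^ 2)) :=
        setIntegral_le_integral (hgi.const_mul _) (ae_of_all _ fun t => by positivity)
    _ = (Real.exp K * T) ^ 2 * Real.exp (-D) *
          (√2 * D * Real.sqrt (2 * Real.pi)) := by
        rw [integral_const_mul, hgI]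
    _ ≤ (Real.exp K * T) ^ 2 * Real.exp (-D) * (2 * T * 3) := by
        apply mul_le_mul_of_nonneg_left _ (by positivity)
        apply mul_le_mul _ hs (Real.sqrt_nonneg _) (by positivity)
        exact mul_le_mul hsq2 hDT hD.le (by norm_num)
    _ ≤ (6 * Real.exp K ^ 2) * (T ^ (4 : ℝ) * Real.exp (-D)) := by
        have hE : 0 ≤ Real.exp (-D) * (6 * Real.exp K ^ 2) := by
          positivity
        have : T ^ 3 ≤ T ^ 4 := pow_le_pow_right₀ (by linarith) (by norm_num)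
        have h1 := mul_le_mul_of_nonneg_left this hE
        have h2 : T ^ (4 : ℝ) = T ^ 4 := by
          rw [← Real.rpow_natCast]
          norm_num
        rw [h2]
        calc (Real.exp K * T) ^ 2 * Real.exp (-D) * (2 * T * 3) =
              Real.exp (-D) * (6 * Real.exp K ^ 2) * T ^ 3 := by ring
          _ ≤ _ := h1
          _ = _ := by ring
    _ ≤ (6 * Real.exp K ^ 2) * (1 / (6 * Real.exp K ^ 2)) :=
        mul_le_mul_of_nonneg_left e1.le (by positivity)
    _ = 1 := by field_simp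

/-- the product of the two polynomials is at most half the sum of the mean squares -/
theorem JJ_le (t0 D δ : ℝ) (N : ℕ) (hD : 0 < D) :
    ‖JJ t0 D δ N‖ ≤ (MS t0 D (δ / 2) N + MS t0 D (-(δ / 2)) N) / 2 := by
  set G : ℝ → ℂ := fun t => (Real.exp (-(t - t0) ^ 2 / (2 * D ^ 2)) : ℂ) *
        AA N (1 / 2 + I * (t + (δ / 2 : ℝ))) * AA N (1 / 2 - I * (t + (-(δ / 2) : ℝ))) with hG
  set G1 : ℝ → ℝ := fun t => Real.exp (-(t - t0) ^ 2 / (2 * D ^ 2)) *
        ‖AA N (1 / 2 + I * (t + (δ / 2 : ℝ)))‖ ^ 2 with hG1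
  set G2 : ℝ → ℝ := fun t => Real.exp (-(t - t0) ^ 2 / (2 * D ^ 2)) *
        ‖AA N (1 / 2 + I * (t + (-(δ / 2) : ℝ)))‖ ^ 2 with hG2
  have hG1i : Integrable G1 := ms_int N D t0 (δ / 2) hD
  have hG2i : Integrable G2 := ms_int N D t0 (-(δ / 2)) hD
  have hGle : ∀ t, ‖G t‖ ≤ (G1 t + G2 t) / 2 := by
    intro t
    rw [hG, hG1, hG2]
    simp only
    rw [norm_mul, norm_mul, Complex.norm_real, Real.norm_of_nonneg (Real.exp_pos _).le]
    have h1 := AA_conj N (t + (-(δ / 2)))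
    push_cast at h1
    push_cast
    rw [h1, Complex.norm_conj]
    have h2 := two_mul_le_add_sq ‖AA N (1 / 2 + I * (t + δ / 2))‖ ‖AA N (1 / 2 + I * (t + -(δ / 2)))‖
    have h3 := Real.exp_pos (-(t - t0) ^ 2 / (2 * D ^ 2))
    nlinarith
  have hM1 : MS t0 D (δ / 2) N = ∫ t, G1 t := rfl
  have hM2 : MS t0 D (-(δ / 2)) N = ∫ t, G2 t := rfl
  have hJ : JJ t0 D δ N = ∫ t, G t := rfl
  rw [hJ, hM1, hM2, ← integral_add hG1i hG2i, ← integral_div]
  exact norm_integral_le_of_norm_le ((hG1i.add hG2i).div_const 2) (ae_of_all _ hGle)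

/-- **LINE**, local -/
theorem p_LINEL (h : S_RRP) (η : ℝ) (hη : 0 < η) (hη2 : η ≤ 1 / 8) : ∃ B : ℝ, 0 < B ∧
    ∀ K : ℝ, 0 ≤ K → ∃ T0 : ℝ, 100 ≤ T0 ∧ ∀ T : ℝ, T0 ≤ T →
    ∀ δ t0 U1 U2 : ℝ, 0 < δ → δ * Real.log T ≤ 4 → WinL T (DE η T) t0 U1 U2 →
    ∀ N : ℕ, 1 ≤ N → (N : ℝ) ≤ Real.exp K * T →
    ‖(∫ t in U1..U2, YY t0 (DE η T) δ N (⟨1 / 2, t⟩ : ℂ)) -
      cexp (-((δ * Real.log T / 2 : ℝ) : ℂ) * I) * JJ t0 (DE η T) δ N‖ ≤
    B / Real.log T * (MS t0 (DE η T) (δ / 2) N + MS t0 (DE η T) (-(δ / 2)) N) + 1 := by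
  obtain ⟨B, T1, hB, hT1, hph⟩ := h
  refine ⟨B, by linarith, fun K hK => ?_⟩
  obtain ⟨T2, hT2, htail⟩ := tailL η hη hη2 K
  refine ⟨max (max T1 T2) (Real.exp 4), hT1.trans ((le_max_left _ _).trans (le_max_left _ _)),
    fun T hT δ t0 U1 U2 hδ0 hδL hw N hN1 hN => ?_⟩
  have hTa : T1 ≤ T := ((le_max_left _ _).trans (le_max_left _ _)).trans hT
  have hTb : T2 ≤ T := ((le_max_right _ _).trans (le_max_left _ _)).trans hT
  have hTc : Real.exp 4 ≤ T := (le_max_right _ _).trans hT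
  have hT400 : 400 ≤ T := hT2.trans hTb
  have hTpos : 0 < T := by linarith
  have hlog4 : 4 ≤ Real.log T := by
    rwa [Real.le_log_iff_exp_le hTpos]
  set L := Real.log T with hL
  have hL0 : 0 < L := by linarith
  set D := DE η T with hDdef
  have hD : 0 < D := DE_pos η hTpos
  have hδ1 : |δ| ≤ 1 := by
    rw [abs_of_pos hδ0]
    by_contra hcon
    rw [not_le] at hcon
    nlinarith
  have hm2 := htail T hTb t0 U1 U2 hw N hN (δ / 2) (-(δ / 2))
  obtain ⟨hU1, hU1', hU2, hU2'⟩ := hw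
  have hD2p : 0 < D ^ 2 := by positivity
  have h12 : U1 ≤ U2 := by linarith
  -- the functions
  set G : ℝ → ℂ := fun t => (Real.exp (-(t - t0) ^ 2 / (2 * D ^ 2)) : ℂ) *
        AA N (1 / 2 + I * (t + (δ / 2 : ℝ))) * AA N (1 / 2 - I * (t + (-(δ / 2) : ℝ))) with hG
  set e : ℂ := cexp (-((δ * L / 2 : ℝ) : ℂ) * I) with he
  have henorm : ‖e‖ = 1 := by
    rw [he, Complex.norm_exp]
    have : (-((δ * L / 2 : ℝ) : ℂ) * I : ℂ).re = 0 := by simp
    rw [this, Real.exp_zero]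
  have hGi : Integrable G := main_int N D t0 _ _ hD
  have hcongr : (∫ t in U1..U2, YY t0 D δ N (⟨1 / 2, t⟩ : ℂ)) =
      ∫ t in U1..U2, (e * G t + (rr δ (⟨1 / 2, t⟩ : ℂ) - e) * G t) := by
    apply intervalIntegral.integral_congr
    intro t _
    simp only
    unfold YY
    rw [phi_line, AAp, AAm, hG]
    ring
  have hcont : IntervalIntegrable (fun t => (rr δ (⟨1 / 2, t⟩ : ℂ) - e) * G t) volume U1 U2 := by
    apply IntervalIntegrable.continuousOn_mul (f := G) hGi.intervalIntegrable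
    rw [uIcc_of_le h12]
    exact (rr_cont δ hδ1 U1 U2 (by linarith)).sub continuousOn_const
  rw [hcongr, intervalIntegral.integral_add (hGi.intervalIntegrable.const_mul e) hcont,
    intervalIntegral.integral_const_mul]
  -- error term
  set G1 : ℝ → ℝ := fun t => Real.exp (-(t - t0) ^ 2 / (2 * D ^ 2)) *
        ‖AA N (1 / 2 + I * (t + (δ / 2 : ℝ)))‖ ^ 2 with hG1
  set G2 : ℝ → ℝ := fun t => Real.exp (-(t - t0) ^ 2 / (2 * D ^ 2)) *
        ‖AA N (1 / 2 + I * (t + (-(δ / 2) : ℝ)))‖ ^ 2 with hG2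
  have hG1i : Integrable G1 := ms_int N D t0 (δ / 2) hD
  have hG2i : Integrable G2 := ms_int N D t0 (-(δ / 2)) hD
  have hg1 : ∀ t, 0 ≤ G1 t := fun t => mul_nonneg (Real.exp_pos _).le (by positivity)
  have hg2 : ∀ t, 0 ≤ G2 t := fun t => mul_nonneg (Real.exp_pos _).le (by positivity)
  have hM1 : MS t0 D (δ / 2) N = ∫ t, G1 t := rfl
  have hM2 : MS t0 D (-(δ / 2)) N = ∫ t, G2 t := rfl
  have hGle : ∀ t, ‖G t‖ ≤ (G1 t + G2 t) / 2 := by
    intro t
    rw [hG, hG1, hG2]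
    simp only
    rw [norm_mul, norm_mul, Complex.norm_real, Real.norm_of_nonneg (Real.exp_pos _).le]
    have h1 := AA_conj N (t + (-(δ / 2)))
    push_cast at h1
    push_cast
    rw [h1, Complex.norm_conj]
    have h2 := two_mul_le_add_sq ‖AA N (1 / 2 + I * (t + δ / 2))‖ ‖AA N (1 / 2 + I * (t + -(δ / 2)))‖
    have h3 := Real.exp_pos (-(t - t0) ^ 2 / (2 * D ^ 2))
    nlinarith
  have herr : ‖∫ t in U1..U2, (rr δ (⟨1 / 2, t⟩ : ℂ) - e) * G t‖ ≤
      B / L * (((∫ t, G1 t) + ∫ t, G2 t) / 2) := by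
    have hCL : 0 ≤ B / L := by positivity
    calc ‖∫ t in U1..U2, (rr δ (⟨1 / 2, t⟩ : ℂ) - e) * G t‖
        ≤ ∫ t in U1..U2, (B / L) * ((G1 t + G2 t) / 2) := by
          apply intervalIntegral.norm_integral_le_of_norm_le h12
          · refine ae_of_all _ fun t ht => ?_
            rw [norm_mul]
            apply mul_le_mul _ (hGle t) (norm_nonneg _) hCL
            exact hph T hTa δ hδ0 hδL t (by linarith [ht.1]) (by linarith [ht.2])
          · exact (((hG1i.add hG2i).div_const 2).const_mul (B / L)).intervalIntegrable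
      _ ≤ ∫ t, (B / L) * ((G1 t + G2 t) / 2) := by
          rw [intervalIntegral.integral_of_le h12]
          apply setIntegral_le_integral (((hG1i.add hG2i).div_const 2).const_mul (B / L))
          refine ae_of_all _ fun t => ?_
          exact mul_nonneg hCL (div_nonneg (add_nonneg (hg1 t) (hg2 t)) (by norm_num))
      _ = (B / L) * (((∫ t, G1 t) + ∫ t, G2 t) / 2) := by
          rw [integral_const_mul, integral_div, integral_add hG1i hG2i]
  have hJ : JJ t0 D δ N = ∫ t, G t := rfl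
  rw [hJ, hM1, hM2]
  have e1 : e * (∫ t in U1..U2, G t) + (∫ t in U1..U2, (rr δ (⟨1 / 2, t⟩ : ℂ) - e) * G t) -
      e * (∫ t, G t) = (∫ t in U1..U2, (rr δ (⟨1 / 2, t⟩ : ℂ) - e) * G t) -
        e * ((∫ t, G t) - ∫ t in U1..U2, G t) := by ring
  rw [e1]
  refine (norm_sub_le _ _).trans ?_
  rw [norm_mul, henorm, one_mul]
  have hI1 : 0 ≤ ∫ t, G1 t := integral_nonneg hg1
  have hI2 : 0 ≤ ∫ t, G2 t := integral_nonneg hg2
  have hBL : 0 ≤ B / L := by positivity
  have h3 : B / L * (((∫ t, G1 t) + ∫ t, G2 t) / 2) ≤ B / L * ((∫ t, G1 t) + ∫ t, G2 t) :=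
    mul_le_mul_of_nonneg_left (by linarith) hBL
  linarith

end Pool.Agent.T9h61.AH
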