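import Pool.Agent.T9h61.AH.MVR
import Pool.Agent.T9h61.AH.DEEPL

/-! Replacing `ζ A / ζ` by `A` on the line `Re s = 5/2`, local windows (copy of
`N806/HG/NEAR.lean`; the near terms are bounded in mean). -/

set_option autoImplicit false

open Complex Filter Topology Set MeasureTheory

namespace Pool.Agent.T9h61.AH

open SG SG.Vert Pool.Agent.N806.HG Pool.Agent.N806.HG.NEARM

/-- the parameters for large `T` -/
theorem paramsL (η K ε B C : ℝ) (hη : 0 < η) (hη2 : η ≤ 1 / 8) (hε : 0 < ε)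
    (hB : 1 ≤ B) (hC : 0 < C) :
    ∃ T0 : ℝ, 256 ≤ T0 ∧ ∀ T : ℝ, T0 ≤ T →
      0 < Real.log T ^ 2 / DE η T ∧ Real.log T ^ 2 / DE η T ≤ 1 / 2 ∧ 1 ≤ DE η T ∧
      DE η T ≤ T / 8 ∧ Real.exp K ≤ T / 4 ∧ 44 ≤ Real.log T ∧
      ∀ M : ℝ, T / 2 ≤ M → M ≤ Real.exp K * T → 1 ≤ Real.log T ^ 2 / DE η T * M ∧
        B * Real.exp 2 * ((T + 8 * (2 * M) * (1 + Real.log (2 * M))) *
          (Real.log T ^ 2 / DE η T) * (C ^ 4 * (2 * M) ^ (4 * (η / 16)) + 2) / 2) ≤ ε * T := by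
  set E := Real.exp K with hE
  have hE0 : 0 < E := Real.exp_pos K
  set A1 := 1 + 48 * E with hA1
  have hA10 : 0 < A1 := by positivity
  set κ := ε / (B * Real.exp 2 * A1 * (C ^ 4 + 2)) with hκ
  have hκ0 : 0 < κ := by positivity
  have ev1 : ∀ᶠ T : ℝ in atTop, Real.log T ^ 2 ≤ 1 / 2 * T ^ η := by
    have h1 : (fun x : ℝ => Real.log x ^ (2 : ℝ)) =o[atTop] fun x => x ^ η :=
      isLittleO_log_rpow_rpow_atTop 2 hη
    filter_upwards [h1.bound (show (0 : ℝ) < 1 / 2 by positivity), eventually_ge_atTop 1] with T h4 h6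
    have hlog : 0 ≤ Real.log T := Real.log_nonneg h6
    rw [Real.norm_eq_abs, Real.norm_eq_abs, abs_of_nonneg (Real.rpow_nonneg hlog _),
      abs_of_nonneg (Real.rpow_nonneg (by linarith) _)] at h4
    have h7 : Real.log T ^ (2 : ℝ) = Real.log T ^ 2 := by
      rw [← Real.rpow_natCast]
      norm_num
    rw [h7] at h4
    exact h4
  have ev2 : ∀ᶠ T : ℝ in atTop, Real.log T ^ 3 ≤ κ * T ^ (η / 2) := by
    have h1 : (fun x : ℝ => Real.log x ^ (3 : ℝ)) =o[atTop] fun x => x ^ (η / 2) :=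
      isLittleO_log_rpow_rpow_atTop 3 (by positivity)
    filter_upwards [h1.bound hκ0, eventually_ge_atTop 1] with T h4 h6
    have hlog : 0 ≤ Real.log T := Real.log_nonneg h6
    rw [Real.norm_eq_abs, Real.norm_eq_abs, abs_of_nonneg (Real.rpow_nonneg hlog _),
      abs_of_nonneg (Real.rpow_nonneg (by linarith) _)] at h4
    have h7 : Real.log T ^ (3 : ℝ) = Real.log T ^ 3 := by
      rw [← Real.rpow_natCast]
      norm_num
    rw [h7] at h4
    exact h4
  have ev3 : ∀ᶠ T : ℝ in atTop, 44 ≤ Real.log T := Real.tendsto_log_atTop.eventually_ge_atTop _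
  obtain ⟨T0, hT0⟩ := eventually_atTop.mp (ev1.and (ev2.and (ev3.and
    (eventually_ge_atTop (4 * E)))))
  refine ⟨max T0 256, le_max_right _ _, ?_⟩
  intro T hT
  obtain ⟨h1, h2, h3, h4⟩ := hT0 T ((le_max_left _ _).trans hT)
  have hT256 : 256 ≤ T := (le_max_right _ _).trans hT
  have hTpos : 0 < T := by linarith
  obtain ⟨hD1, -, hD8⟩ := DE_basic η hη hη2 T hT256
  have hD0 : 0 < DE η T := by linarith
  have hL0 : 0 < Real.log T := by linarith
  have hx0 : 0 < Real.log T ^ 2 / DE η T := by positivity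
  refine ⟨hx0, ?_, hD1, hD8, by linarith, h3, ?_⟩
  · rw [div_le_iff₀ hD0]
    exact h1
  · intro M hM1 hM2
    have hM0 : 0 < M := by linarith
    constructor
    · rw [div_mul_eq_mul_div, le_div_iff₀ hD0]
      have : 1 ≤ Real.log T ^ 2 := by nlinarith
      nlinarith
    · have hET : E ≤ T / 4 := by linarith
      have h2M : 2 * M ≤ T ^ 2 := by
        have : E * T ≤ T / 4 * T := mul_le_mul_of_nonneg_right hET hTpos.le
        nlinarith
      have hlog2M : Real.log (2 * M) ≤ 2 * Real.log T := by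
        have := Real.log_le_log (by linarith) h2M
        rw [Real.log_pow] at this
        push_cast at this
        exact this
      have hlog2M0 : 0 ≤ Real.log (2 * M) := Real.log_nonneg (by linarith)
      have a1 : T + 8 * (2 * M) * (1 + Real.log (2 * M)) ≤ T * (A1 * Real.log T) := by
        have b1 : 8 * (2 * M) * (1 + Real.log (2 * M)) ≤ 8 * (2 * (E * T)) * (3 * Real.log T) := by
          gcongr
          linarith
        have b2 : T ≤ T * Real.log T := by nlinarith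
        calc _ ≤ T * Real.log T + 8 * (2 * (E * T)) * (3 * Real.log T) := by linarith
          _ = _ := by
              rw [hA1]
              ring
      have a2 : (2 * M) ^ (4 * (η / 16)) ≤ T ^ (η / 2) := by
        calc (2 * M) ^ (4 * (η / 16)) ≤ (T ^ 2) ^ (4 * (η / 16)) :=
              Real.rpow_le_rpow (by linarith) h2M (by positivity)
          _ = T ^ (η / 2) := by
              rw [← Real.rpow_natCast, ← Real.rpow_mul hTpos.le]
              congr 1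
              push_cast
              ring
      have hT1 : 1 ≤ T ^ (η / 2) := Real.one_le_rpow (by linarith) (by positivity)
      have a3 : C ^ 4 * (2 * M) ^ (4 * (η / 16)) + 2 ≤ (C ^ 4 + 2) * T ^ (η / 2) := by
        have : C ^ 4 * (2 * M) ^ (4 * (η / 16)) ≤ C ^ 4 * T ^ (η / 2) :=
          mul_le_mul_of_nonneg_left a2 (by positivity)
        nlinarith
      have hDE : DE η T = T ^ (η / 2) * T ^ (η / 2) := by
        unfold DE
        rw [← Real.rpow_add hTpos]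
        congr 1
        ring
      set w := T ^ (η / 2) with hw
      have hw0 : 0 < w := by linarith
      have a4 : 0 ≤ C ^ 4 * (2 * M) ^ (4 * (η / 16)) + 2 := by positivity
      calc _ ≤ B * Real.exp 2 * ((T * (A1 * Real.log T)) *
          (Real.log T ^ 2 / DE η T) * ((C ^ 4 + 2) * w) / 2) := by gcongr
        _ = (B * Real.exp 2 * A1 * (C ^ 4 + 2)) * (Real.log T ^ 3) / w * T / 2 := by
            rw [hDE]
            field_simp
        _ ≤ (B * Real.exp 2 * A1 * (C ^ 4 + 2)) * (κ * w) / w * T / 2 := by gcongr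
        _ = ε * T / 2 := by
            rw [hκ]
            field_simp
        _ ≤ ε * T := by
            have : 0 < ε * T := by positivity
            linarith

/-- (NEAR) -/
def S_NEARL (η : ℝ) : Prop := ∀ K ε : ℝ, 0 ≤ K → 0 < ε → ∃ T0 : ℝ, 100 ≤ T0 ∧ ∀ T : ℝ, T0 ≤ T →
  ∀ δ : ℝ, 0 < δ → δ * Real.log T ≤ 4 → ∀ N : ℕ, T / 2 ≤ N → (N : ℝ) ≤ Real.exp K * T →
  ∃ G : ℝ → ℝ, Continuous G ∧ (∀ t, 0 ≤ G t) ∧ ∫ t in T..2 * T, G t ≤ ε * T ∧
  ∀ t0 U1 U2 : ℝ, WinL T (DE η T) t0 U1 U2 →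
  ‖(∫ t in U1..U2, XX t0 (DE η T) δ N (⟨5 / 2, t⟩ : ℂ)) -
    ∫ t in U1..U2, YY t0 (DE η T) δ N (⟨5 / 2, t⟩ : ℂ)‖ ≤
    2 + ∫ t in T..2 * T, Real.exp (-(t - t0) ^ 2 / (2 * DE η T ^ 2)) * G t

/-- **NEAR** -/
theorem p_NEARL (hrr : S_RRB) (ht : S_TAIL) (η : ℝ) (hη : 0 < η) (hη2 : η ≤ 1 / 8) :
    S_NEARL η := by
  have hd := p_DEEPL hrr η hη hη2
  intro K ε _ hε
  obtain ⟨B, Ta, hB, hTa, hrr⟩ := hrr
  obtain ⟨Tb, hTb, hdeep⟩ := hd
  obtain ⟨C, hC, hdiv⟩ := Pool.Agent.H510R2.divisor_bound (η / 16) (by positivity)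
  obtain ⟨Tc, hTc, hpar⟩ := paramsL η K ε B C hη hη2 hε hB hC
  refine ⟨max Ta (max Tb Tc), le_trans hTa (le_max_left _ _), ?_⟩
  intro T hT δ hδ0 hδ4 N hNT2 hN
  have hTa' : Ta ≤ T := (le_max_left _ _).trans hT
  have hTb' : Tb ≤ T := (le_max_left _ _).trans ((le_max_right _ _).trans hT)
  have hTc' : Tc ≤ T := (le_max_right _ _).trans ((le_max_right _ _).trans hT)
  obtain ⟨hx0, hx2, hD1, hD8, hEK, hL44, hM⟩ := hpar T hTc'
  obtain ⟨hxN1, hMb⟩ := hM N hNT2 hN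
  set x := Real.log T ^ 2 / DE η T with hx
  have hT100 : 256 ≤ T := hTc.trans hTc'
  have hTpos : 0 < T := by linarith
  set D := DE η T with hDdef
  have hD0 : 0 < D := by linarith
  have hD2p : 0 < D ^ 2 := by positivity
  have hL0 : 0 < Real.log T := by linarith
  have hδ1 : δ ≤ 1 := by
    by_contra h
    push Not at h
    have : 1 * Real.log T < δ * Real.log T := mul_lt_mul_of_pos_right h hL0
    linarith
  have hδabs : |δ| ≤ 1 := by rwa [abs_of_pos hδ0]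
  have hNr1 : (1 : ℝ) ≤ N := by linarith
  have hN1 : 1 ≤ N := by exact_mod_cast hNr1
  have hN0 : (0 : ℝ) < N := by linarith
  obtain ⟨c, hc1, hc2⟩ := ht δ N hN1
  have hc2' : ∀ M : ℕ, N ≤ M → ∀ s : ℂ, 5 / 2 ≤ s.re →
      ‖Rf δ N s - Rn c N M s‖ ≤ 16 * ((M : ℝ) + 1) ^ (5 / 2 - s.re) := hc2
  have hNx0 : 0 ≤ (N : ℝ) * x := by positivity
  have hNx2 : (N : ℝ) * x ≤ N * (1 / 2) := mul_le_mul_of_nonneg_left hx2 hN0.le
  have hx1 : x ≤ 1 := by linarith
  have em : (N : ℝ) * (1 - x) = N - N * x := by ring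
  have ep : (N : ℝ) * (1 + x) = N + N * x := by ring
  have ec : x * (N : ℝ) = N * x := mul_comm _ _
  -- the truncations
  set N1 : ℕ := ⌊(N : ℝ) * (1 - x)⌋₊ with hN1def
  set N2 : ℕ := ⌊(N : ℝ) * (1 + x)⌋₊ with hN2def
  have hN1le : (N1 : ℝ) ≤ N * (1 - x) := Nat.floor_le (by rw [em]; linarith)
  have hN1gt : (N : ℝ) * (1 - x) < N1 + 1 := Nat.lt_floor_add_one _
  have hN2le : (N2 : ℝ) ≤ N * (1 + x) := Nat.floor_le (by positivity)
  have hN2gt : (N : ℝ) * (1 + x) < N2 + 1 := Nat.lt_floor_add_one _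
  have hN1N : N1 ≤ N := by
    have : (N1 : ℝ) ≤ N := by linarith
    exact_mod_cast this
  have hNN2 : N ≤ N2 := Nat.le_floor (by linarith)
  have hN2N : N2 ≤ 2 * N := by
    have : (N2 : ℝ) ≤ 2 * N := by linarith
    exact_mod_cast this
  have hNT : (N : ℝ) ≤ T ^ 2 / 4 := by
    calc (N : ℝ) ≤ Real.exp K * T := hN
      _ ≤ T / 4 * T := by gcongr
      _ = T ^ 2 / 4 := by ring
  have hT3 : 1 ≤ T ^ 2 / 4 := by
    have : (2 : ℝ) ^ 2 ≤ T ^ 2 := pow_le_pow_left₀ (by norm_num) (by linarith) 2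
    linarith
  -- powers of T
  have hTpow : ∀ y : ℝ, 0 ≤ y → y ≤ T ^ 2 → 32 * y ^ (5 / 2 : ℝ) ≤ T ^ (20 : ℝ) := by
    intro y hy0 hy
    have a1 : y ^ (5 / 2 : ℝ) ≤ T ^ (5 : ℝ) := by
      calc y ^ (5 / 2 : ℝ) ≤ (T ^ 2) ^ (5 / 2 : ℝ) := Real.rpow_le_rpow hy0 hy (by norm_num)
        _ = _ := by
            rw [← Real.rpow_natCast, ← Real.rpow_mul hTpos.le]
            norm_num
    calc 32 * y ^ (5 / 2 : ℝ) ≤ T ^ (1 : ℝ) * T ^ (5 : ℝ) := by
          rw [Real.rpow_one]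
          gcongr
          linarith
      _ = T ^ (6 : ℝ) := by rw [← Real.rpow_add hTpos]; norm_num
      _ ≤ _ := Real.rpow_le_rpow_of_exponent_le (by linarith) (by norm_num)
  have hxD : x * D = Real.log T ^ 2 := by
    rw [hx]
    field_simp
  -- the three pieces
  set F1 : ℂ → ℂ := fun s => Rf δ N s * As δ N1 s with hF1
  set F2 : ℂ → ℂ := fun s => (Rf δ N s - Rn c N N2 s) * (As δ N s - As δ N1 s) with hF2
  set F3 : ℂ → ℂ := fun s => Rn c N N2 s * (As δ N s - As δ N1 s) with hF3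
  have anF1 : ∀ s : ℂ, 5 / 2 ≤ s.re → AnalyticAt ℂ F1 s := an_of_diff fun s hs =>
    (Rf_diff δ N s hs).mul (As_diff δ N1 s)
  have anF2 : ∀ s : ℂ, 5 / 2 ≤ s.re → AnalyticAt ℂ F2 s := an_of_diff fun s hs =>
    ((Rf_diff δ N s hs).sub (Rn_diff c N N2 s)).mul ((As_diff δ N s).sub (As_diff δ N1 s))
  have anF3 : ∀ s : ℂ, 5 / 2 ≤ s.re → AnalyticAt ℂ F3 s := an_of_diff fun s _ =>
    (Rn_diff c N N2 s).mul ((As_diff δ N s).sub (As_diff δ N1 s))
  have cF3 : Continuous fun t : ℝ => ‖F3 (⟨5 / 2, t⟩ : ℂ)‖ := by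
    have h : Differentiable ℂ F3 := (Rn_diff c N N2).mul ((As_diff δ N).sub (As_diff δ N1))
    exact (h.continuous.comp line_cont).norm
  have hG3 : ∫ t in T..2 * T, ‖F3 (⟨5 / 2, t⟩ : ℂ)‖ ≤
      (T + 8 * (2 * N) * (1 + Real.log (2 * N))) * x *
        (C ^ 4 * (2 * N : ℝ) ^ (4 * (η / 16)) + 2) / 2 :=
    mvP δ C (η / 16) x _ c N N1 N2 hN1 hN1N hNN2 hx0.le hxN1 (by linarith) (by linarith)
      hN2N hC (by positivity) hdiv hc1 T hTpos.le le_rfl
  set G : ℝ → ℝ := fun t => B * Real.exp 2 * ‖F3 (⟨5 / 2, t⟩ : ℂ)‖ with hG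
  have cG : Continuous G := continuous_const.mul cF3
  have hG0 : ∀ t, 0 ≤ G t := fun t => by
    simp only [hG]
    positivity
  refine ⟨G, cG, hG0, ?_, ?_⟩
  · rw [hG, intervalIntegral.integral_const_mul]
    exact (mul_le_mul_of_nonneg_left hG3 (by positivity)).trans hMb
  intro t0 U1 U2 hwin
  obtain ⟨hU1, hU1', hU2, hU2'⟩ := id hwin
  have h12 : U1 ≤ U2 := by linarith
  have hI1 : ‖∫ t in U1..U2, phi t0 D (⟨5 / 2, t⟩ : ℂ) * rr δ (⟨5 / 2, t⟩ : ℂ) *
      F1 (⟨5 / 2, t⟩ : ℂ)‖ ≤ 1 := by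
    apply hdeep T hTb' δ t0 U1 U2 (1 - x) hδ0 hδ4 hwin (by linarith) (by linarith) ?_ F1
      (fun s hs _ => anF1 s hs)
    · intro s hs _
      have h1 := dec1 δ N N1 c hc2' (1 - x) (by linarith) (by
        have : ((N : ℝ) + 1) * (1 - x) = N * (1 - x) + (1 - x) := by ring
        linarith) s hs
      have h2 := hTpow ((N : ℝ) + 1) (by positivity) (by linarith)
      have h3 : 0 ≤ ((N : ℝ) + 1) ^ (5 / 2 : ℝ) := by positivity
      have h4 : 0 ≤ (1 - x) ^ s.re := Real.rpow_nonneg (by linarith) _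
      refine h1.trans ?_
      apply mul_le_mul_of_nonneg_right _ h4
      linarith
    · have h1 : 1 - x ≤ Real.exp (-x) := by
        have := Real.add_one_le_exp (-x)
        linarith
      calc (1 - x) ^ D ≤ (Real.exp (-x)) ^ D :=
            Real.rpow_le_rpow (by linarith) h1 hD0.le
        _ = Real.exp (-(Real.log T ^ 2)) := by
            rw [← Real.exp_mul, ← hxD]
            ring_nf
        _ ≤ _ := by
            apply Real.exp_le_exp.mpr
            have := sq_nonneg (Real.log T)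
            linarith
  have hI2 : ‖∫ t in U1..U2, phi t0 D (⟨5 / 2, t⟩ : ℂ) * rr δ (⟨5 / 2, t⟩ : ℂ) *
      F2 (⟨5 / 2, t⟩ : ℂ)‖ ≤ 1 := by
    have h1x : 0 < 1 + x := by linarith
    apply hdeep T hTb' δ t0 U1 U2 (1 + x)⁻¹ hδ0 hδ4 hwin (by positivity)
      (inv_le_one_of_one_le₀ (by linarith)) ?_ F2 (fun s hs _ => anF2 s hs)
    · intro s hs _
      have h0 : (N : ℝ) ≤ ((N2 : ℝ) + 1) * (1 + x)⁻¹ := by
        rw [← div_eq_mul_inv, le_div_iff₀ h1x]
        exact hN2gt.le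
      have h1 := dec2 δ N N1 N2 c hc2' (1 + x)⁻¹ (by positivity) hN1N hNN2 h0 s hs
      have h2 := hTpow ((N2 : ℝ) + 1) (by positivity) (by
        have h3 : (1 : ℝ) ≤ T ^ 2 / 4 := hT3
        linarith)
      refine h1.trans ?_
      apply mul_le_mul_of_nonneg_right h2 (by positivity)
    · have h1 : (1 + x)⁻¹ ≤ Real.exp (-(x / 2)) := by
        have h2 := Real.add_one_le_exp (-(x / 2))
        have h3 : 0 < 1 - x / 2 := by linarith
        have h4 : (1 + x)⁻¹ ≤ 1 - x / 2 := by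
          rw [inv_le_iff_one_le_mul₀ h1x]
          have h5 : (1 - x / 2) * (1 + x) = 1 + x * (1 - x) / 2 := by ring
          have h6 : 0 ≤ x * (1 - x) := mul_nonneg hx0.le (by linarith)
          rw [h5]
          linarith
        linarith
      calc ((1 + x)⁻¹) ^ D ≤ (Real.exp (-(x / 2))) ^ D :=
            Real.rpow_le_rpow (by positivity) h1 hD0.le
        _ = Real.exp (-(Real.log T ^ 2 / 2)) := by
            rw [← Real.exp_mul, ← hxD]
            ring_nf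
        _ ≤ _ := le_rfl
  have cE : Continuous fun t : ℝ => Real.exp (-(t - t0) ^ 2 / (2 * D ^ 2)) * G t := by
    apply Continuous.mul _ cG
    fun_prop
  have hI3 : ‖∫ t in U1..U2, phi t0 D (⟨5 / 2, t⟩ : ℂ) * rr δ (⟨5 / 2, t⟩ : ℂ) *
      F3 (⟨5 / 2, t⟩ : ℂ)‖ ≤
      ∫ t in T..2 * T, Real.exp (-(t - t0) ^ 2 / (2 * D ^ 2)) * G t := by
    have h1 : ‖∫ t in U1..U2, phi t0 D (⟨5 / 2, t⟩ : ℂ) * rr δ (⟨5 / 2, t⟩ : ℂ) *
      F3 (⟨5 / 2, t⟩ : ℂ)‖ ≤ ∫ t in U1..U2, Real.exp (-(t - t0) ^ 2 / (2 * D ^ 2)) * G t := by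
      apply intervalIntegral.norm_integral_le_of_norm_le h12 _ (cE.intervalIntegrable _ _)
      refine ae_of_all _ fun t ht => ?_
      have ht1 : U1 < t := ht.1
      have ht2 : t ≤ U2 := ht.2
      have b1 := hrr T hTa' δ hδ0 hδ4 (⟨5 / 2, t⟩ : ℂ) (by simp only; linarith)
        (by simp only; linarith) (by
        simp only
        rw [abs_of_nonneg (by norm_num)]
        linarith)
      have b2 : ‖phi t0 D (⟨5 / 2, t⟩ : ℂ)‖ ≤ Real.exp 2 *
          Real.exp (-(t - t0) ^ 2 / (2 * D ^ 2)) := by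
        rw [phi_norm _ _ hD0, ← Real.exp_add]
        apply Real.exp_le_exp.mpr
        have e1 : ((⟨5 / 2, t⟩ : ℂ).re - 1 / 2) ^ 2 - ((⟨5 / 2, t⟩ : ℂ).im - t0) ^ 2 =
            4 - (t - t0) ^ 2 := by
          simp only
          norm_num
        rw [e1, sub_div, neg_div, ← sub_eq_add_neg]
        have e2 : 4 / (2 * D ^ 2) ≤ 2 := by
          rw [div_le_iff₀ (by positivity)]
          have : 1 ≤ D ^ 2 := one_le_pow₀ hD1
          linarith
        linarith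
      rw [norm_mul, norm_mul]
      simp only [hG]
      calc _ ≤ (Real.exp 2 * Real.exp (-(t - t0) ^ 2 / (2 * D ^ 2))) * B *
            ‖F3 (⟨5 / 2, t⟩ : ℂ)‖ := by gcongr
        _ = _ := by ring
    refine h1.trans ?_
    apply intervalIntegral.integral_mono_interval hU1 h12 hU2'
    · exact ae_of_all _ fun t => mul_nonneg (Real.exp_pos _).le (hG0 t)
    · exact cE.intervalIntegrable _ _
  -- integrability
  have hint : ∀ F : ℂ → ℂ, (∀ s : ℂ, 5 / 2 ≤ s.re → AnalyticAt ℂ F s) →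
      IntervalIntegrable (fun t : ℝ => phi t0 D (⟨5 / 2, t⟩ : ℂ) * rr δ (⟨5 / 2, t⟩ : ℂ) *
        F (⟨5 / 2, t⟩ : ℂ)) volume U1 U2 := by
    intro F hF
    apply int_of_contAt h12
    intro t ht1 _
    exact line_contAt (f := fun s => phi t0 D s * rr δ s * F s)
      (((SG.Deep.phi_analytic _ _ _).mul (rr_analytic _ hδabs _ (by simp only; linarith))).mul
        (hF _ (by simp only; norm_num))).continuousAt
  -- `XX` and `YY` are integrable
  have iX : IntervalIntegrable (fun t : ℝ => XX t0 D δ N (⟨5 / 2, t⟩ : ℂ)) volume U1 U2 := by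
    refine (hint (fun s => riemannZeta (s - hh δ) * AA N (s - hh δ) * AA N (1 - (s - hh δ)) /
      riemannZeta (s + hh δ)) ?_)
    apply an_of_diff
    intro s hs
    have hre : 2 ≤ (s + hh δ).re := by simp [hh_re, hs]
    have hre' : 2 ≤ (s - hh δ).re := by simp [hh_re, hs]
    have h1 : DifferentiableAt ℂ (fun s => riemannZeta (s - hh δ)) s := by
      apply DifferentiableAt.comp s (g := riemannZeta) (f := fun s => s - hh δ)
      · exact differentiableAt_riemannZeta (ne_one_of_re hre')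
      · fun_prop
    have h2 : DifferentiableAt ℂ (fun s => AA N (s - hh δ)) s := by
      apply DifferentiableAt.comp s (g := AA N) (f := fun s => s - hh δ)
      · exact AA_diff N _
      · fun_prop
    have h3 : DifferentiableAt ℂ (fun s => riemannZeta (s + hh δ)) s := by
      apply DifferentiableAt.comp s (g := riemannZeta) (f := fun s => s + hh δ)
      · exact differentiableAt_riemannZeta (ne_one_of_re hre)
      · fun_prop
    exact ((h1.mul h2).mul (As_diff δ N s)).div h3 (zeta_inv_bound _ hre).1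
  have iY : IntervalIntegrable (fun t : ℝ => YY t0 D δ N (⟨5 / 2, t⟩ : ℂ)) volume U1 U2 := by
    refine (hint (fun s => AA N (s + hh δ) * AA N (1 - (s - hh δ))) ?_)
    apply an_of_diff
    intro s hs
    have h4 : DifferentiableAt ℂ (fun s => AA N (s + hh δ)) s := by
      apply DifferentiableAt.comp s (g := AA N) (f := fun s => s + hh δ)
      · exact AA_diff N _
      · fun_prop
    exact h4.mul (As_diff δ N s)
  rw [← intervalIntegral.integral_sub iX iY]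
  have key : ∫ t in U1..U2, (XX t0 D δ N (⟨5 / 2, t⟩ : ℂ) -
      YY t0 D δ N (⟨5 / 2, t⟩ : ℂ)) =
      (∫ t in U1..U2, phi t0 D (⟨5 / 2, t⟩ : ℂ) * rr δ (⟨5 / 2, t⟩ : ℂ) *
        F1 (⟨5 / 2, t⟩ : ℂ)) +
      (∫ t in U1..U2, phi t0 D (⟨5 / 2, t⟩ : ℂ) * rr δ (⟨5 / 2, t⟩ : ℂ) *
        F2 (⟨5 / 2, t⟩ : ℂ)) +
      (∫ t in U1..U2, phi t0 D (⟨5 / 2, t⟩ : ℂ) * rr δ (⟨5 / 2, t⟩ : ℂ) *
        F3 (⟨5 / 2, t⟩ : ℂ)) := by
    rw [← intervalIntegral.integral_add (hint F1 anF1) (hint F2 anF2),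
      ← intervalIntegral.integral_add ((hint F1 anF1).add (hint F2 anF2)) (hint F3 anF3)]
    apply intervalIntegral.integral_congr
    intro t _
    simp only
    rw [XXYY]
    simp only [hF1, hF2, hF3]
    ring
  rw [key]
  have n1 := norm_add_le ((∫ t in U1..U2, phi t0 D (⟨5 / 2, t⟩ : ℂ) * rr δ (⟨5 / 2, t⟩ : ℂ) *
        F1 (⟨5 / 2, t⟩ : ℂ)) +
      (∫ t in U1..U2, phi t0 D (⟨5 / 2, t⟩ : ℂ) * rr δ (⟨5 / 2, t⟩ : ℂ) *
        F2 (⟨5 / 2, t⟩ : ℂ))) (∫ t in U1..U2, phi t0 D (⟨5 / 2, t⟩ : ℂ) *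
        rr δ (⟨5 / 2, t⟩ : ℂ) * F3 (⟨5 / 2, t⟩ : ℂ))
  have n2 := norm_add_le (∫ t in U1..U2, phi t0 D (⟨5 / 2, t⟩ : ℂ) * rr δ (⟨5 / 2, t⟩ : ℂ) *
        F1 (⟨5 / 2, t⟩ : ℂ)) (∫ t in U1..U2, phi t0 D (⟨5 / 2, t⟩ : ℂ) *
        rr δ (⟨5 / 2, t⟩ : ℂ) * F2 (⟨5 / 2, t⟩ : ℂ))
  linarith

end Pool.Agent.T9h61.AH
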