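import Pool.Agent.T9h61.AH.AVG
import Pool.Agent.T9h61.AH.IDL
import Pool.Agent.T9h61.AH.LINEL
import Pool.Agent.T9h61.AH.NEARL
import Pool.Agent.N806.HG.Main

/-! Many small gaps under RH: the assembly. -/

set_option autoImplicit false

open Complex Filter Topology Set MeasureTheory

namespace Pool.Agent.T9h61.AH

open SG Pool.Agent.N806.HG

/-- the bad ordinates in `[T, 2T]`: multiple zeros, or another zero within `δ` -/
def Bad (δ T g : ℝ) : Prop := T ≤ g ∧ g ≤ 2 * T ∧ riemannZeta (1 / 2 + I * g) = 0 ∧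
  (deriv riemannZeta (1 / 2 + I * g) = 0 ∨
    ∃ g' : ℝ, g' ≠ g ∧ riemannZeta (1 / 2 + I * g') = 0 ∧ |g - g'| ≤ δ)

/-- under RH a window without bad ordinates is separated -/
lemma sepL_of (RH : RiemannHypothesis) (δ T lo hi : ℝ) (h0 : 0 < lo) (hlo : T ≤ lo)
    (hhi : hi ≤ 2 * T) (h : ∀ g : ℝ, lo ≤ g → g ≤ hi → ¬ Bad δ T g) : SepL δ lo hi := by
  have line : ∀ s : ℂ, 0 < s.re → s.re < 1 → lo ≤ s.im → s.im ≤ hi → riemannZeta s = 0 →
      s.re = 1 / 2 := by
    intro s _ _ h3 _ h5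
    refine RH s h5 ?_ ?_
    · rintro ⟨n, hn⟩
      have h1 := congrArg Complex.im hn
      simp at h1
      linarith
    · intro h1
      have h2 := congrArg Complex.im h1
      simp at h2
      linarith
  have eqh : ∀ s : ℂ, 0 < s.re → s.re < 1 → lo ≤ s.im → s.im ≤ hi → riemannZeta s = 0 →
      (1 / 2 + I * (s.im : ℂ)) = s := by
    intro s h1 h2 h3 h4 h5
    have h6 := line s h1 h2 h3 h4 h5
    apply Complex.ext
    · simp [h6]
    · simp
  refine ⟨line, ?_, ?_⟩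
  · intro s h1 h2 h3 h4 h5 h6
    have e := eqh s h1 h2 h3 h4 h5
    exact h s.im h3 h4 ⟨by linarith, by linarith, by rw [e]; exact h5, Or.inl (by rw [e]; exact h6)⟩
  · intro s s' h1 h2 h3 h4 h5 k1 k2 k3 k4 k5 hne
    by_contra hc
    push Not at hc
    have e := eqh s h1 h2 h3 h4 h5
    have e' := eqh s' k1 k2 k3 k4 k5
    refine h s.im h3 h4 ⟨by linarith, by linarith, by rw [e]; exact h5, Or.inr ⟨s'.im, ?_,
      by rw [e']; exact k5, hc⟩⟩
    intro him
    apply hne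
    rw [← e, ← e', him]

/-- the inequality for one centre -/
lemma pointL (η : ℝ) (hID : S_IDL η) (hNEAR : S_NEARL η) (hη : 0 < η) (hη2 : η ≤ 1 / 8)
    (hRRP : S_RRP) : ∃ B : ℝ, 0 < B ∧ ∀ K : ℝ, 0 ≤ K →
    ∃ T0 : ℝ, 100 ≤ T0 ∧ ∀ T : ℝ, T0 ≤ T → ∀ δ : ℝ, 2 ≤ δ * Real.log T → δ * Real.log T ≤ 4 →
    ∀ N : ℕ, T / 2 ≤ N → (N : ℝ) ≤ Real.exp K * T →
    ∃ G : ℝ → ℝ, Continuous G ∧ (∀ t, 0 ≤ G t) ∧ ∫ t in T..2 * T, G t ≤ T ∧
    ∀ t0 : ℝ, Cen T t0 → SepL δ (t0 - DE η T ^ 2) (t0 + DE η T ^ 2) →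
    (cexp (-((δ * Real.log T / 2 : ℝ) : ℂ) * I) * JJ t0 (DE η T) δ N).im ≤
      5 + (∫ t in T..2 * T, ga (DE η T) (t - t0) * G t) +
        B / Real.log T * (MS t0 (DE η T) (δ / 2) N + MS t0 (DE η T) (-(δ / 2)) N) := by
  obtain ⟨B, hB, hL⟩ := p_LINEL hRRP η hη hη2
  refine ⟨B, hB, fun K hK => ?_⟩
  obtain ⟨T1, hT1, h1⟩ := hID K hK
  obtain ⟨T2, hT2, h2⟩ := hNEAR K 1 hK one_pos
  obtain ⟨T3, hT3, h3⟩ := hL K hK
  refine ⟨max T1 (max T2 T3), hT1.trans (le_max_left _ _), ?_⟩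
  intro T hT δ hδ2 hδ4 N hNT hN
  have a1 : T1 ≤ T := (le_max_left _ _).trans hT
  have a2 : T2 ≤ T := ((le_max_left _ _).trans (le_max_right _ _)).trans hT
  have a3 : T3 ≤ T := ((le_max_right _ _).trans (le_max_right _ _)).trans hT
  have hT100 : 100 ≤ T := hT1.trans a1
  have hlog : 0 < Real.log T := Real.log_pos (by linarith)
  have hδ : 0 < δ := by
    by_contra h
    push Not at h
    have := mul_nonpos_of_nonpos_of_nonneg h hlog.le
    linarith
  have hN1 : 1 ≤ N := by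
    have : (1 : ℝ) ≤ N := by linarith
    exact_mod_cast this
  obtain ⟨G, cG, hG0, hGi, hG⟩ := h2 T a2 δ hδ hδ4 N hNT hN
  refine ⟨G, cG, hG0, by linarith, ?_⟩
  intro t0 ht0 hS
  obtain ⟨U1, U2, hW, b1, b2⟩ := h1 T a1 δ hδ2 hδ4 t0 ht0 hS N hN1 hN
  have b3 := hG t0 U1 U2 hW
  have b4 := h3 T a3 δ t0 U1 U2 hδ hδ4 hW N hN1 hN
  have e1 : (∫ t in T..2 * T, ga (DE η T) (t - t0) * G t) =
      ∫ t in T..2 * T, Real.exp (-(t - t0) ^ 2 / (2 * DE η T ^ 2)) * G t := rfl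
  rw [e1]
  set X5 := ∫ t in U1..U2, XX t0 (DE η T) δ N (⟨5 / 2, t⟩ : ℂ)
  set Y5 := ∫ t in U1..U2, YY t0 (DE η T) δ N (⟨5 / 2, t⟩ : ℂ)
  set Y1 := ∫ t in U1..U2, YY t0 (DE η T) δ N (⟨1 / 2, t⟩ : ℂ)
  set J := cexp (-((δ * Real.log T / 2 : ℝ) : ℂ) * I) * JJ t0 (DE η T) δ N
  have c1 := (Complex.abs_im_le_norm (Y5 - Y1)).trans b2
  have c2 := (Complex.abs_im_le_norm (X5 - Y5)).trans b3
  have c3 := (Complex.abs_im_le_norm (Y1 - J)).trans b4
  rw [Complex.sub_im, abs_le] at c1 c2 c3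
  linarith [c1.1, c2.1, c3.1]

/-- the averaged inequality with bad ordinates -/
lemma averagedL (RH : RiemannHypothesis) (η : ℝ) (hID : S_IDL η) (hNEAR : S_NEARL η) (hη : 0 < η)
    (hη2 : η ≤ 1 / 8) (ε : ℝ) (hε : 0 < ε) (hε2 : ε ≤ 1 / 2)
    (hRRP : S_RRP) (hAVJ : S_AVJ) (hCONT : S_CONT) (hAVMS : S_AVMS) : ∃ B C0 : ℝ, 0 < B ∧ 0 < C0 ∧
    ∀ K : ℝ, 0 ≤ K → ∃ T0 : ℝ, 256 ≤ T0 ∧ ∀ T : ℝ, T0 ≤ T → ∀ δ : ℝ, 2 ≤ δ * Real.log T →
    δ * Real.log T ≤ 4 → ∀ N : ℕ, T / 2 ≤ N → (N : ℝ) ≤ Real.exp K * T → ∀ Bd : Finset ℝ,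
    (∀ g : ℝ, Bad δ T g → g ∈ Bd) →
    -(∑ m ∈ Finset.Icc 1 N, ∑ n ∈ Finset.Icc 1 N, TT T (DE η T) δ m n) ≤
      B * T ^ 2 + C0 * (Bd.card : ℝ) * T * T ^ (12 * ε) * DE η T ^ 3 := by
  obtain ⟨B1, hB1, hP⟩ := pointL η hID hNEAR hη hη2 hRRP
  obtain ⟨B2, hB2, hM⟩ := hAVMS
  obtain ⟨C1, hC1, hMS⟩ := MS_le RH ε hε hε2
  refine ⟨2 + 4 * B1 * B2, 2 * C1, by positivity, by positivity, fun K hK => ?_⟩
  obtain ⟨T1, hT1, h1⟩ := hP K hK
  have ev : ∀ᶠ T : ℝ in atTop, 1 + K + Real.exp (2 * K) ≤ Real.log T :=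
    Real.tendsto_log_atTop.eventually_ge_atTop _
  obtain ⟨T2, hT2⟩ := eventually_atTop.mp (ev.and (eventually_ge_atTop (Real.exp K)))
  refine ⟨max (max T1 256) T2, (le_max_right _ _).trans (le_max_left _ _), ?_⟩
  intro T hT δ hδ2 hδ4 N hNT2 hN Bd hBd
  have a1 : T1 ≤ T := ((le_max_left _ _).trans (le_max_left _ _)).trans hT
  have a0 : 256 ≤ T := ((le_max_right _ _).trans (le_max_left _ _)).trans hT
  obtain ⟨a2, a3⟩ := hT2 T ((le_max_right _ _).trans hT)
  have hT100 : 100 ≤ T := hT1.trans a1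
  have hT0 : 0 < T := by linarith
  have hlog4 := SG.Hor.four_le_log T hT100
  have hlog : 0 < Real.log T := by linarith
  obtain ⟨hD1, hDsq, hD8⟩ := DE_basic η hη hη2 T a0
  set D := DE η T with hDdef
  have hD : 0 < D := by linarith
  have hNr : (1 : ℝ) ≤ N := by linarith
  have hN1 : 1 ≤ N := by exact_mod_cast hNr
  have hNTsq : (N : ℝ) ≤ T ^ 2 := by
    calc (N : ℝ) ≤ Real.exp K * T := hN
      _ ≤ T * T := mul_le_mul_of_nonneg_right a3 hT0.le
      _ = T ^ 2 := by ring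
  have hδ0 : 0 < δ := by
    by_contra h
    push Not at h
    have := mul_nonpos_of_nonpos_of_nonneg h hlog.le
    linarith
  have hδ1 : δ ≤ 1 := by
    by_contra h
    push Not at h
    have : 1 * Real.log T < δ * Real.log T := mul_lt_mul_of_pos_right h hlog
    linarith
  obtain ⟨G, cG, hG0, hGi, hG⟩ := h1 T a1 δ hδ2 hδ4 N hNT2 hN
  set W : ℝ := C1 * T ^ (12 * ε) * D ^ 2 with hW
  have hW0 : 0 ≤ W := by positivity
  have cJ : Continuous (fun t0 => (cexp (-((δ * Real.log T / 2 : ℝ) : ℂ) * I) * JJ t0 D δ N).im) :=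
    Complex.continuous_im.comp (continuous_const.mul (hCONT D δ 0 N hD).1)
  have cM1 := (hCONT D δ (δ / 2) N hD).2
  have cM2 := (hCONT D δ (-(δ / 2)) N hD).2
  have cNE : Continuous (fun t0 => ∫ t in T..2 * T, ga D (t - t0) * G t) := by
    apply intervalIntegral.continuous_parametric_intervalIntegral_of_continuous'
    apply Continuous.mul
    · exact (ga_cont D).comp (by fun_prop)
    · exact cG.comp continuous_snd
  have hD2 : 0 < D ^ 2 := by positivity
  have cB1 : ∀ g : ℝ, Continuous (fun t0 : ℝ => 2 * ga (D ^ 2) (t0 - g)) := fun g =>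
    continuous_const.mul ((ga_cont _).comp (by fun_prop))
  have cB : Continuous (fun t0 : ℝ => ∑ g ∈ Bd, 2 * ga (D ^ 2) (t0 - g)) :=
    continuous_finsetSum _ fun g _ => cB1 g
  have hNEnn : ∀ t0 : ℝ, 0 ≤ ∫ t in T..2 * T, ga D (t - t0) * G t := fun t0 =>
    intervalIntegral.integral_nonneg (by linarith) fun t _ => mul_nonneg (ga_pos _ _).le (hG0 t)
  have hMSnn : ∀ t0 a : ℝ, 0 ≤ MS t0 D a N := fun t0 a =>
    integral_nonneg fun t => mul_nonneg (Real.exp_pos _).le (by positivity)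
  have hBnn : ∀ t0 : ℝ, 0 ≤ ∑ g ∈ Bd, 2 * ga (D ^ 2) (t0 - g) := fun t0 =>
    Finset.sum_nonneg fun g _ => mul_nonneg (by norm_num) (ga_pos _ _).le
  have key := AV_mono (T := T) (by linarith) cJ
    (g := fun t0 => (5 + (∫ t in T..2 * T, ga D (t - t0) * G t)) +
      ((B1 / Real.log T * MS t0 D (δ / 2) N +
      B1 / Real.log T * MS t0 D (-(δ / 2)) N) + W * ∑ g ∈ Bd, 2 * ga (D ^ 2) (t0 - g)))
    ((continuous_const.add cNE).add (((continuous_const.mul cM1).add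
      (continuous_const.mul cM2)).add (continuous_const.mul cB)))
    (fun t0 ht0 => by
      by_cases hgood : ∃ g ∈ Bd, |t0 - g| ≤ D ^ 2
      · obtain ⟨g, hgB, hg⟩ := hgood
        have b1 : 1 ≤ 2 * ga (D ^ 2) (t0 - g) := by
          unfold ga
          have e1 : -(t0 - g) ^ 2 / (2 * (D ^ 2) ^ 2) ≥ -(1 / 2) := by
            rw [ge_iff_le, le_div_iff₀ (by positivity)]
            have : (t0 - g) ^ 2 ≤ (D ^ 2) ^ 2 := by
              rw [← sq_abs (t0 - g)]
              exact pow_le_pow_left₀ (abs_nonneg _) hg 2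
            linarith
          have e2 := Real.exp_le_exp.mpr e1
          have e3 := Real.add_one_le_exp (-(1 / 2) : ℝ)
          linarith
        have b2 : 2 * ga (D ^ 2) (t0 - g) ≤ ∑ g ∈ Bd, 2 * ga (D ^ 2) (t0 - g) :=
          Finset.single_le_sum (f := fun g => 2 * ga (D ^ 2) (t0 - g))
            (fun g _ => mul_nonneg (by norm_num) (ga_pos _ _).le) hgB
        have b3 : ‖JJ t0 D δ N‖ ≤ W := by
          have c1 := hMS T a0 t0 D (δ / 2) ht0 hD1 (by rw [abs_of_pos (by linarith)]; linarith) N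
            hN1 hNTsq
          have c2 := hMS T a0 t0 D (-(δ / 2)) ht0 hD1
            (by rw [abs_neg, abs_of_pos (by linarith)]; linarith) N hN1 hNTsq
          have c3 := JJ_le t0 D δ N hD
          linarith
        have b4 : (cexp (-((δ * Real.log T / 2 : ℝ) : ℂ) * I) * JJ t0 D δ N).im ≤ W := by
          refine (Complex.im_le_norm _).trans ?_
          rw [norm_mul, Complex.norm_exp]
          have : (-((δ * Real.log T / 2 : ℝ) : ℂ) * I : ℂ).re = 0 := by simp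
          rw [this, Real.exp_zero, one_mul]
          exact b3
        have b5 : W ≤ W * ∑ g ∈ Bd, 2 * ga (D ^ 2) (t0 - g) := by
          have := mul_le_mul_of_nonneg_left (b1.trans b2) hW0
          linarith
        have b6 := hNEnn t0
        have b7 := hMSnn t0 (δ / 2)
        have b8 := hMSnn t0 (-(δ / 2))
        have b9 : 0 ≤ B1 / Real.log T * MS t0 D (δ / 2) N := by positivity
        have b10 : 0 ≤ B1 / Real.log T * MS t0 D (-(δ / 2)) N := by positivity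
        linarith
      · push Not at hgood
        have hc1 := ht0.1
        have hc2 := ht0.2
        have hS : SepL δ (t0 - D ^ 2) (t0 + D ^ 2) := by
          apply sepL_of RH δ T _ _ (by linarith) (by linarith) (by linarith)
          intro g g1 g2 hbad
          have := hgood g (hBd g hbad)
          rw [lt_abs] at this
          rcases this with h | h
          · linarith
          · linarith
        have := hG t0 ht0 hS
        have b1 := mul_nonneg hW0 (hBnn t0)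
        rw [mul_add] at this
        linarith)
  have d1 : Continuous (fun t0 => B1 / Real.log T * MS t0 D (δ / 2) N) := continuous_const.mul cM1
  have d2 : Continuous (fun t0 => B1 / Real.log T * MS t0 D (-(δ / 2)) N) := continuous_const.mul cM2
  have d3 : Continuous (fun t0 => B1 / Real.log T * MS t0 D (δ / 2) N +
    B1 / Real.log T * MS t0 D (-(δ / 2)) N) := d1.add d2
  have d4 : Continuous (fun t0 => W * ∑ g ∈ Bd, 2 * ga (D ^ 2) (t0 - g)) := continuous_const.mul cB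
  have d5 : Continuous (fun t0 : ℝ => (5 : ℝ) + ∫ t in T..2 * T, ga D (t - t0) * G t) :=
    continuous_const.add cNE
  have d6 : Continuous (fun t0 => (B1 / Real.log T * MS t0 D (δ / 2) N +
    B1 / Real.log T * MS t0 D (-(δ / 2)) N) + W * ∑ g ∈ Bd, 2 * ga (D ^ 2) (t0 - g)) := d3.add d4
  rw [hAVJ T D δ N (by linarith) hD, AV_add T d5 d6, AV_add T continuous_const cNE,
    AV_add T d3 d4, AV_add T d1 d2, AV_smul, AV_smul, AV_smul,
    AV_const, AV_sum Bd T (fun g t0 => 2 * ga (D ^ 2) (t0 - g)) cB1] at key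
  have m1 := hM T D (δ / 2) N (by linarith) hD hN1
  have m2 := hM T D (-(δ / 2)) N (by linarith) hD hN1
  set S := ∑ m ∈ Finset.Icc 1 N, ∑ n ∈ Finset.Icc 1 N, TT T D δ m n with hSdef
  have hlogN : Real.log N ≤ K + Real.log T := by
    have := Real.log_le_log (by linarith) hN
    rwa [Real.log_mul (Real.exp_pos K).ne' (by linarith), Real.log_exp] at this
  have hN2 : (N : ℝ) ^ 2 ≤ Real.exp (2 * K) * T ^ 2 := by
    have := pow_le_pow_left₀ (by linarith) hN 2
    rw [mul_pow, ← Real.exp_nat_mul] at this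
    push_cast at this
    exact this
  have hT2p : 0 < T ^ 2 := by positivity
  have hm : D * B2 * (T ^ 2 * (1 + Real.log N) + (N : ℝ) ^ 2) ≤ D * B2 * (T ^ 2 * (2 * Real.log T)) := by
    apply mul_le_mul_of_nonneg_left _ (by positivity)
    have : T ^ 2 * (1 + Real.log N) ≤ T ^ 2 * (1 + (K + Real.log T)) :=
      mul_le_mul_of_nonneg_left (by linarith) hT2p.le
    have h5 : T ^ 2 * (1 + (K + Real.log T)) + Real.exp (2 * K) * T ^ 2 =
        T ^ 2 * ((1 + K + Real.exp (2 * K)) + Real.log T) := by ring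
    have h6 : T ^ 2 * ((1 + K + Real.exp (2 * K)) + Real.log T) ≤ T ^ 2 * (2 * Real.log T) :=
      mul_le_mul_of_nonneg_left (by linarith) hT2p.le
    linarith
  have e1 : B1 / Real.log T * (D * B2 * (T ^ 2 * (2 * Real.log T))) = 2 * B1 * B2 * D * T ^ 2 := by
    field_simp
  have k1 : B1 / Real.log T * AV T (fun t0 => MS t0 D (δ / 2) N) ≤ 2 * B1 * B2 * D * T ^ 2 := by
    rw [← e1]
    exact mul_le_mul_of_nonneg_left (m1.trans hm) (by positivity)
  have k2 : B1 / Real.log T * AV T (fun t0 => MS t0 D (-(δ / 2)) N) ≤ 2 * B1 * B2 * D * T ^ 2 := by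
    rw [← e1]
    exact mul_le_mul_of_nonneg_left (m2.trans hm) (by positivity)
  have hs3 : Real.sqrt (2 * Real.pi) ≤ 3 := by
    rw [Real.sqrt_le_left (by norm_num)]
    have := Real.pi_lt_d2
    norm_num at this ⊢
    linarith
  have hs0 : 0 ≤ Real.sqrt (2 * Real.pi) := Real.sqrt_nonneg _
  -- the near terms
  have k4 : AV T (fun t0 => ∫ t in T..2 * T, ga D (t - t0) * G t) ≤ 3 / 4 * D * T ^ 2 := by
    refine (AV_conv T (D * Real.sqrt (2 * Real.pi)) hT0.le (ga D) (ga_cont D) (ga_int D hD) G cG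
      hG0).trans ?_
    have hGi0 : 0 ≤ ∫ t in T..2 * T, G t :=
      intervalIntegral.integral_nonneg (by linarith) fun t _ => hG0 t
    calc T / 4 * (D * Real.sqrt (2 * Real.pi) * ∫ t in T..2 * T, G t) ≤ T / 4 * (D * 3 * T) := by
          gcongr
      _ = _ := by ring
  -- the bad ordinates
  have k5 : ∑ g ∈ Bd, AV T (fun t0 => 2 * ga (D ^ 2) (t0 - g)) ≤ (Bd.card : ℝ) * (2 * T * D ^ 2) := by
    calc _ ≤ ∑ g ∈ Bd, (2 * T * D ^ 2) := by
          apply Finset.sum_le_sum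
          intro g _
          rw [AV_smul]
          have := AV_shift T (D ^ 2 * Real.sqrt (2 * Real.pi)) g hT0.le (ga (D ^ 2)) (ga_cont _)
            (ga_int (D ^ 2) hD2)
          calc 2 * AV T (fun t => ga (D ^ 2) (t - g)) ≤
                2 * (T / 4 * (D ^ 2 * Real.sqrt (2 * Real.pi))) := by linarith
            _ ≤ 2 * (T / 4 * (D ^ 2 * 3)) := by gcongr
            _ ≤ _ := by
                have : 0 ≤ T * D ^ 2 := by positivity
                linarith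
      _ = _ := by rw [Finset.sum_const, nsmul_eq_mul]
  have k6 : W * ∑ g ∈ Bd, AV T (fun t0 => 2 * ga (D ^ 2) (t0 - g)) ≤
      D * (2 * C1 * (Bd.card : ℝ) * T * T ^ (12 * ε) * D ^ 3) := by
    calc _ ≤ W * ((Bd.card : ℝ) * (2 * T * D ^ 2)) := mul_le_mul_of_nonneg_left k5 hW0
      _ = _ := by
          rw [hW]
          ring
  have k3 : T ^ 2 / 16 * 5 ≤ D * T ^ 2 * (5 / 16) := by
    have := mul_le_mul_of_nonneg_right hD1 hT2p.le
    linarith
  set Q := 2 * C1 * (Bd.card : ℝ) * T * T ^ (12 * ε) * D ^ 3 with hQ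
  have hQ0 : 0 ≤ Q := by positivity
  have hfin : D * (Real.sqrt (2 * Real.pi) * (-S)) ≤ D * ((2 + 4 * B1 * B2) * T ^ 2 + Q) := by
    have : D * (Real.sqrt (2 * Real.pi) * (-S)) = -(D * Real.sqrt (2 * Real.pi)) * S := by ring
    rw [this]
    have h5 : 0 ≤ D * T ^ 2 := by positivity
    have h6 : D * ((2 + 4 * B1 * B2) * T ^ 2 + Q) = 2 * (D * T ^ 2) +
        (2 * B1 * B2 * D * T ^ 2 + 2 * B1 * B2 * D * T ^ 2) + D * Q := by ring
    have h7 : 3 / 4 * D * T ^ 2 = 3 / 4 * (D * T ^ 2) := by ring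
    have h8 : D * T ^ 2 * (5 / 16) = 5 / 16 * (D * T ^ 2) := by ring
    rw [h7] at k4
    rw [h8] at k3
    rw [h6]
    linarith
  have hfin2 := le_of_mul_le_mul_left hfin hD
  rcases le_or_gt (-S) 0 with h | h
  · have : 0 ≤ (2 + 4 * B1 * B2) * T ^ 2 := by positivity
    linarith
  · have hs : 1 ≤ Real.sqrt (2 * Real.pi) := by
      rw [Real.one_le_sqrt]
      linarith [Real.pi_gt_three]
    have := mul_le_mul_of_nonneg_right hs h.le
    linarith

end Pool.Agent.T9h61.AH
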