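import Pool.Agent.T9h61.AH.WL
import Pool.Agent.H370R2.MV
import Pool.Agent.N806.HG.NEAR
import Pool.Agent.H382R2.Sign
import Pool.Agent.H382R2.Hor

/-! Mean values of the two short Dirichlet polynomials in `NEAR`. -/

set_option autoImplicit false

open Complex Filter Topology Set MeasureTheory

namespace Pool.Agent.T9h61.AH

open SG SG.Vert Pool.Agent.N806.HG Pool.Agent.N806.HG.NEARM

lemma cpow_line (n : ℕ) (hn : 1 ≤ n) (z : ℂ) (t : ℝ) :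
    (n : ℂ) ^ (z - (t : ℂ) * I) = (n : ℂ) ^ z * (n : ℂ) ^ (-(t : ℂ) * I) := by
  have hn0 : (n : ℂ) ≠ 0 := by exact_mod_cast (by omega : n ≠ 0)
  rw [← Complex.cpow_add _ _ hn0]
  congr 1
  ring

lemma mk_eq (σ t : ℝ) : (⟨σ, t⟩ : ℂ) = (σ : ℂ) + (t : ℂ) * I := by
  apply Complex.ext <;> simp

theorem mvR (c : ℕ → ℂ) (N N2 : ℕ) (T : ℝ) (hT : 0 ≤ T) :
    ∫ t in T..2 * T, ‖Rn c N N2 (⟨5 / 2, t⟩ : ℂ)‖ ^ 2 ≤
      (T + 8 * N2 * (1 + Real.log N2)) * ∑ n ∈ Finset.Ioc N N2, ‖c n‖ ^ 2 * (n : ℝ) ^ (-5 : ℝ) := by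
  classical
  set b : ℕ → ℂ := fun n => if N < n then c n * (n : ℂ) ^ (-(5 / 2 : ℂ)) else 0 with hb
  have hfil : (Finset.Icc 1 N2).filter (fun n => N < n) = Finset.Ioc N N2 := by
    ext n
    simp only [Finset.mem_filter, Finset.mem_Icc, Finset.mem_Ioc]
    omega
  have e1 : ∀ t : ℝ, Rn c N N2 (⟨5 / 2, t⟩ : ℂ) =
      ∑ n ∈ Finset.Icc 1 N2, b n * (n : ℂ) ^ (-(t : ℂ) * I) := by
    intro t
    unfold Rn
    rw [← hfil, Finset.sum_filter]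
    apply Finset.sum_congr rfl
    intro n hn
    rw [Finset.mem_Icc] at hn
    simp only [hb]
    split_ifs with h
    · rw [mul_assoc, ← cpow_line n hn.1, mk_eq]
      congr 2
      push_cast
      ring
    · rw [zero_mul]
  have e2 : ∑ n ∈ Finset.Icc 1 N2, ‖b n‖ ^ 2 =
      ∑ n ∈ Finset.Ioc N N2, ‖c n‖ ^ 2 * (n : ℝ) ^ (-5 : ℝ) := by
    rw [← hfil, Finset.sum_filter]
    apply Finset.sum_congr rfl
    intro n hn
    rw [Finset.mem_Icc] at hn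
    have hn0 : (0 : ℝ) < n := by exact_mod_cast hn.1
    simp only [hb]
    split_ifs with h
    · rw [norm_mul, Complex.norm_natCast_cpow_of_pos hn.1, mul_pow]
      congr 1
      have : (-(5 / 2 : ℂ)).re = -(5 / 2) := by norm_num
      rw [this, ← Real.rpow_natCast, ← Real.rpow_mul hn0.le]
      norm_num
    · simp
  have h := H370.mean_value b N2 T (2 * T) (by linarith)
  rw [e2] at h
  simp_rw [e1]
  refine h.trans (le_of_eq ?_)
  ring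

theorem mvA (δ : ℝ) (N N1 : ℕ) (hN : 1 ≤ N) (hN1 : N1 ≤ N) (T : ℝ) (hT : 0 ≤ T) :
    ∫ t in T..2 * T, ‖As δ N (⟨5 / 2, t⟩ : ℂ) - As δ N1 (⟨5 / 2, t⟩ : ℂ)‖ ^ 2 ≤
      (T + 8 * N * (1 + Real.log N)) * (((N : ℝ) - N1) * (N : ℝ) ^ 3) := by
  classical
  set b : ℕ → ℂ := fun n => if N1 < n then
    ((ArithmeticFunction.moebius n : ℤ) : ℂ) * (n : ℂ) ^ (3 / 2 + hh δ) else 0 with hb
  have hfil : (Finset.Icc 1 N).filter (fun n => N1 < n) = Finset.Ioc N1 N := by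
    ext n
    simp only [Finset.mem_filter, Finset.mem_Icc, Finset.mem_Ioc]
    omega
  have hsub : Finset.Icc 1 N1 ⊆ Finset.Icc 1 N := Finset.Icc_subset_Icc le_rfl hN1
  have hsd : Finset.Icc 1 N \ Finset.Icc 1 N1 = Finset.Ioc N1 N := by
    ext n
    simp only [Finset.mem_sdiff, Finset.mem_Icc, Finset.mem_Ioc]
    omega
  have hconj : ∀ (M : ℕ) (t : ℝ), (starRingEnd ℂ) (As δ M (⟨5 / 2, t⟩ : ℂ)) =
      AA M (-(3 / 2 + hh δ) + (t : ℂ) * I) := by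
    intro M t
    unfold As
    rw [← SG.SignAux.AA_conj]
    congr 1
    rw [map_sub, map_sub, map_one]
    have h1 : (starRingEnd ℂ) (hh δ) = -hh δ := SG.Hor.conj_hh δ
    rw [h1, mk_eq]
    simp only [map_add, map_mul, Complex.conj_ofReal, Complex.conj_I]
    push_cast
    ring
  have e1 : ∀ t : ℝ, ‖As δ N (⟨5 / 2, t⟩ : ℂ) - As δ N1 (⟨5 / 2, t⟩ : ℂ)‖ =
      ‖∑ n ∈ Finset.Icc 1 N, b n * (n : ℂ) ^ (-(t : ℂ) * I)‖ := by
    intro t
    rw [← Complex.norm_conj, map_sub, hconj, hconj]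
    congr 1
    unfold AA
    rw [← Finset.sum_sdiff hsub, add_sub_cancel_right, hsd, ← hfil, Finset.sum_filter]
    apply Finset.sum_congr rfl
    intro n hn
    rw [Finset.mem_Icc] at hn
    simp only [hb]
    split_ifs with h
    · rw [mul_assoc, ← cpow_line n hn.1]
      congr 2
      ring
    · rw [zero_mul]
  have e2 : ∑ n ∈ Finset.Icc 1 N, ‖b n‖ ^ 2 ≤ ((N : ℝ) - N1) * (N : ℝ) ^ 3 := by
    calc ∑ n ∈ Finset.Icc 1 N, ‖b n‖ ^ 2 = ∑ n ∈ Finset.Ioc N1 N, ‖b n‖ ^ 2 := by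
          rw [← hfil, Finset.sum_filter]
          apply Finset.sum_congr rfl
          intro n hn
          simp only [hb]
          split_ifs with h
          · rfl
          · simp
      _ ≤ ∑ n ∈ Finset.Ioc N1 N, (N : ℝ) ^ 3 := by
          apply Finset.sum_le_sum
          intro n hn
          rw [Finset.mem_Ioc] at hn
          have hn1 : 1 ≤ n := by omega
          have hn0 : (0 : ℝ) < n := by exact_mod_cast hn1
          simp only [hb]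
          rw [if_pos hn.1, norm_mul, Complex.norm_natCast_cpow_of_pos hn1, mul_pow]
          have e3 : (3 / 2 + hh δ : ℂ).re = 3 / 2 := by
            simp [hh_re]
          rw [e3]
          have hμ : ‖((ArithmeticFunction.moebius n : ℤ) : ℂ)‖ ≤ 1 := by
            rw [Complex.norm_intCast]
            exact_mod_cast ArithmeticFunction.abs_moebius_le_one
          have e4 : ((n : ℝ) ^ (3 / 2 : ℝ)) ^ 2 = (n : ℝ) ^ 3 := by
            rw [← Real.rpow_natCast, ← Real.rpow_mul hn0.le, ← Real.rpow_natCast]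
            norm_num
          rw [e4]
          have h5 : (n : ℝ) ^ 3 ≤ (N : ℝ) ^ 3 := pow_le_pow_left₀ hn0.le (by exact_mod_cast hn.2) 3
          have h6 : ‖((ArithmeticFunction.moebius n : ℤ) : ℂ)‖ ^ 2 ≤ 1 := by
            have := pow_le_pow_left₀ (norm_nonneg _) hμ 2
            simpa using this
          calc _ ≤ 1 * (N : ℝ) ^ 3 := mul_le_mul h6 h5 (by positivity) (by norm_num)
            _ = _ := one_mul _
      _ = _ := by
          rw [Finset.sum_const, Nat.card_Ioc, nsmul_eq_mul, Nat.cast_sub hN1]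
  have h := H370.mean_value b N T (2 * T) (by linarith)
  simp_rw [e1]
  refine h.trans ?_
  have hN1r : (1 : ℝ) ≤ N := by exact_mod_cast hN
  have hlog : 0 ≤ Real.log N := Real.log_nonneg hN1r
  rw [show 2 * T - T = T by ring]
  exact mul_le_mul_of_nonneg_left e2 (by positivity)

/-- the mean value of the product -/
theorem mvP (δ C ε1 x M : ℝ) (c : ℕ → ℂ) (N N1 N2 : ℕ) (hN1 : 1 ≤ N) (hN12 : N1 ≤ N) (hN2 : N ≤ N2)
    (_hx : 0 ≤ x) (hxN : 1 ≤ x * N) (ha : (N : ℝ) - N1 ≤ x * N + 1) (hb : (N2 : ℝ) - N ≤ x * N)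
    (hN2' : N2 ≤ 2 * N) (hC : 0 < C) (hε1 : 0 < ε1)
    (hd : ∀ n : ℕ, 1 ≤ n → (n.divisors.card : ℝ) ≤ C * (n : ℝ) ^ ε1)
    (hc : ∀ n, ‖c n‖ ≤ (n.divisors.card : ℝ) ^ 2) (T : ℝ) (hT : 0 ≤ T)
    (hM : T + 8 * (2 * N) * (1 + Real.log (2 * N)) ≤ M) :
    ∫ t in T..2 * T, ‖Rn c N N2 (⟨5 / 2, t⟩ : ℂ) *
      (As δ N (⟨5 / 2, t⟩ : ℂ) - As δ N1 (⟨5 / 2, t⟩ : ℂ))‖ ≤
      M * x * (C ^ 4 * (2 * N : ℝ) ^ (4 * ε1) + 2) / 2 := by
  have hN0 : (0 : ℝ) < N := by exact_mod_cast hN1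
  have hN1r : (1 : ℝ) ≤ N := by exact_mod_cast hN1
  have cR : Continuous fun t : ℝ => Rn c N N2 (⟨5 / 2, t⟩ : ℂ) :=
    (Rn_diff c N N2).continuous.comp SG.Vert.line_cont
  have cA : Continuous fun t : ℝ => As δ N (⟨5 / 2, t⟩ : ℂ) - As δ N1 (⟨5 / 2, t⟩ : ℂ) :=
    ((As_diff δ N).continuous.comp SG.Vert.line_cont).sub
      ((As_diff δ N1).continuous.comp SG.Vert.line_cont)
  have h1 := mvR c N N2 T hT
  have h2 := mvA δ N N1 hN1 hN12 T hT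
  have hM0 : 0 ≤ M := by
    refine le_trans ?_ hM
    have : 0 ≤ Real.log (2 * N) := Real.log_nonneg (by linarith)
    positivity
  have hMN2 : T + 8 * N2 * (1 + Real.log N2) ≤ M := by
    refine le_trans ?_ hM
    have h3 : (N2 : ℝ) ≤ 2 * N := by exact_mod_cast hN2'
    have h3' : (0 : ℝ) < N2 := by
      have : (N : ℝ) ≤ N2 := by exact_mod_cast hN2
      linarith
    have h4 : Real.log N2 ≤ Real.log (2 * N) := Real.log_le_log h3' h3
    have h5 : 0 ≤ Real.log N2 := Real.log_nonneg (by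
      have : (N : ℝ) ≤ N2 := by exact_mod_cast hN2
      linarith)
    gcongr
  have hMN : T + 8 * N * (1 + Real.log N) ≤ M := by
    refine le_trans ?_ hM
    have h4 : Real.log N ≤ Real.log (2 * N) := Real.log_le_log hN0 (by linarith)
    have h5 : 0 ≤ Real.log N := Real.log_nonneg hN1r
    have h6 : (N : ℝ) ≤ 2 * N := by linarith
    gcongr
  -- the coefficient sum
  have hcs : ∑ n ∈ Finset.Ioc N N2, ‖c n‖ ^ 2 * (n : ℝ) ^ (-5 : ℝ) ≤
      (x * N) * (C ^ 4 * (2 * N : ℝ) ^ (4 * ε1) * (N : ℝ) ^ (-5 : ℝ)) := by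
    calc _ ≤ ∑ n ∈ Finset.Ioc N N2, (C ^ 4 * (2 * N : ℝ) ^ (4 * ε1) * (N : ℝ) ^ (-5 : ℝ)) := by
          apply Finset.sum_le_sum
          intro n hn
          rw [Finset.mem_Ioc] at hn
          have hn1 : 1 ≤ n := by omega
          have hn0 : (0 : ℝ) < n := by exact_mod_cast hn1
          have hn2 : (n : ℝ) ≤ 2 * N := by exact_mod_cast hn.2.trans hN2'
          have hNn : (N : ℝ) ≤ n := by exact_mod_cast hn.1.le
          have a1 : ‖c n‖ ^ 2 ≤ C ^ 4 * (2 * N : ℝ) ^ (4 * ε1) := by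
            calc ‖c n‖ ^ 2 ≤ ((n.divisors.card : ℝ) ^ 2) ^ 2 :=
                  pow_le_pow_left₀ (norm_nonneg _) (hc n) 2
              _ = (n.divisors.card : ℝ) ^ 4 := by ring
              _ ≤ (C * (n : ℝ) ^ ε1) ^ 4 := pow_le_pow_left₀ (by positivity) (hd n hn1) 4
              _ = C ^ 4 * (n : ℝ) ^ (4 * ε1) := by
                  rw [mul_pow, ← Real.rpow_natCast ((n : ℝ) ^ ε1), ← Real.rpow_mul hn0.le]
                  congr 2
                  push_cast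
                  ring
              _ ≤ _ := by
                  apply mul_le_mul_of_nonneg_left _ (by positivity)
                  exact Real.rpow_le_rpow hn0.le hn2 (by positivity)
          have a2 : (n : ℝ) ^ (-5 : ℝ) ≤ (N : ℝ) ^ (-5 : ℝ) :=
            Real.rpow_le_rpow_of_nonpos hN0 hNn (by norm_num)
          exact mul_le_mul a1 a2 (by positivity) (by positivity)
      _ = ((N2 : ℝ) - N) * (C ^ 4 * (2 * N : ℝ) ^ (4 * ε1) * (N : ℝ) ^ (-5 : ℝ)) := by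
          rw [Finset.sum_const, Nat.card_Ioc, nsmul_eq_mul, Nat.cast_sub hN2]
      _ ≤ _ := mul_le_mul_of_nonneg_right hb (by positivity)
  have e5 : (N : ℝ) ^ (-5 : ℝ) = 1 / (N : ℝ) ^ 5 := by
    rw [Real.rpow_neg hN0.le, one_div]
    norm_cast
  have r1 : (N : ℝ) ^ 4 * ∫ t in T..2 * T, ‖Rn c N N2 (⟨5 / 2, t⟩ : ℂ)‖ ^ 2 ≤
      M * x * (C ^ 4 * (2 * N : ℝ) ^ (4 * ε1)) := by
    calc _ ≤ (N : ℝ) ^ 4 * (M * ((x * N) * (C ^ 4 * (2 * N : ℝ) ^ (4 * ε1) *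
          (N : ℝ) ^ (-5 : ℝ)))) := by
          apply mul_le_mul_of_nonneg_left _ (by positivity)
          refine h1.trans ?_
          apply mul_le_mul hMN2 hcs (Finset.sum_nonneg fun n _ => by positivity) hM0
      _ = _ := by
          rw [e5]
          field_simp
  have r2 : ((N : ℝ) ^ 4)⁻¹ * ∫ t in T..2 * T, ‖As δ N (⟨5 / 2, t⟩ : ℂ) -
      As δ N1 (⟨5 / 2, t⟩ : ℂ)‖ ^ 2 ≤ M * x * 2 := by
    calc _ ≤ ((N : ℝ) ^ 4)⁻¹ * (M * ((2 * (x * N)) * (N : ℝ) ^ 3)) := by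
          apply mul_le_mul_of_nonneg_left _ (by positivity)
          refine h2.trans ?_
          have hNN1 : (0 : ℝ) ≤ (N : ℝ) - N1 := by
            have : (N1 : ℝ) ≤ N := by exact_mod_cast hN12
            linarith
          apply mul_le_mul hMN _ (by positivity) hM0
          apply mul_le_mul_of_nonneg_right _ (by positivity)
          linarith
      _ = _ := by
          field_simp
  have hpt : ∀ t : ℝ, ‖Rn c N N2 (⟨5 / 2, t⟩ : ℂ) *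
      (As δ N (⟨5 / 2, t⟩ : ℂ) - As δ N1 (⟨5 / 2, t⟩ : ℂ))‖ ≤
      (N : ℝ) ^ 4 / 2 * ‖Rn c N N2 (⟨5 / 2, t⟩ : ℂ)‖ ^ 2 +
      ((N : ℝ) ^ 4)⁻¹ / 2 * ‖As δ N (⟨5 / 2, t⟩ : ℂ) - As δ N1 (⟨5 / 2, t⟩ : ℂ)‖ ^ 2 := by
    intro t
    rw [norm_mul]
    set a := ‖Rn c N N2 (⟨5 / 2, t⟩ : ℂ)‖
    set b := ‖As δ N (⟨5 / 2, t⟩ : ℂ) - As δ N1 (⟨5 / 2, t⟩ : ℂ)‖
    have hp : 0 < (N : ℝ) ^ 2 := by positivity
    have e : (N : ℝ) ^ 4 / 2 * a ^ 2 + ((N : ℝ) ^ 4)⁻¹ / 2 * b ^ 2 - a * b =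
        ((N : ℝ) ^ 2 * a - ((N : ℝ) ^ 2)⁻¹ * b) ^ 2 / 2 := by
      field_simp
      ring
    have := sq_nonneg ((N : ℝ) ^ 2 * a - ((N : ℝ) ^ 2)⁻¹ * b)
    linarith
  have hT2 : T ≤ 2 * T := by linarith
  have cR2 : Continuous fun t : ℝ => ‖Rn c N N2 (⟨5 / 2, t⟩ : ℂ)‖ ^ 2 := cR.norm.pow 2
  have cA2 : Continuous fun t : ℝ => ‖As δ N (⟨5 / 2, t⟩ : ℂ) - As δ N1 (⟨5 / 2, t⟩ : ℂ)‖ ^ 2 :=
    cA.norm.pow 2
  have iR2 : IntervalIntegrable (fun t : ℝ => (N : ℝ) ^ 4 / 2 *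
      ‖Rn c N N2 (⟨5 / 2, t⟩ : ℂ)‖ ^ 2) volume T (2 * T) :=
    (continuous_const.mul cR2).intervalIntegrable _ _
  have iA2 : IntervalIntegrable (fun t : ℝ => ((N : ℝ) ^ 4)⁻¹ / 2 *
      ‖As δ N (⟨5 / 2, t⟩ : ℂ) - As δ N1 (⟨5 / 2, t⟩ : ℂ)‖ ^ 2) volume T (2 * T) :=
    (continuous_const.mul cA2).intervalIntegrable _ _
  calc _ ≤ ∫ t in T..2 * T, ((N : ℝ) ^ 4 / 2 * ‖Rn c N N2 (⟨5 / 2, t⟩ : ℂ)‖ ^ 2 +
      ((N : ℝ) ^ 4)⁻¹ / 2 * ‖As δ N (⟨5 / 2, t⟩ : ℂ) - As δ N1 (⟨5 / 2, t⟩ : ℂ)‖ ^ 2) := by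
        apply intervalIntegral.integral_mono_on hT2
        · exact (cR.mul cA).norm.intervalIntegrable _ _
        · exact ((continuous_const.mul cR2).add (continuous_const.mul cA2)).intervalIntegrable _ _
        · intro t _
          exact hpt t
    _ = (N : ℝ) ^ 4 / 2 * (∫ t in T..2 * T, ‖Rn c N N2 (⟨5 / 2, t⟩ : ℂ)‖ ^ 2) +
        ((N : ℝ) ^ 4)⁻¹ / 2 * ∫ t in T..2 * T, ‖As δ N (⟨5 / 2, t⟩ : ℂ) -
          As δ N1 (⟨5 / 2, t⟩ : ℂ)‖ ^ 2 := by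
        rw [intervalIntegral.integral_add iR2 iA2, intervalIntegral.integral_const_mul,
          intervalIntegral.integral_const_mul]
    _ = ((N : ℝ) ^ 4 * (∫ t in T..2 * T, ‖Rn c N N2 (⟨5 / 2, t⟩ : ℂ)‖ ^ 2) +
        ((N : ℝ) ^ 4)⁻¹ * ∫ t in T..2 * T, ‖As δ N (⟨5 / 2, t⟩ : ℂ) -
          As δ N1 (⟨5 / 2, t⟩ : ℂ)‖ ^ 2) / 2 := by ring
    _ ≤ (M * x * (C ^ 4 * (2 * N : ℝ) ^ (4 * ε1)) + M * x * 2) / 2 := by linarith
    _ = _ := by ring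

end Pool.Agent.T9h61.AH
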