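import Pool.Agent.H295R2.M

/-! Twisted sums of the Möbius function in a zero-free half plane. -/

set_option autoImplicit false

open MeasureTheory Filter Topology Set

namespace Pool.Agent.T9h61.AH

open Pool.Agent.H295R2

noncomputable section

/-- twisted Heaviside step -/
def stepT (t u : ℝ) : ℂ := if 0 ≤ u then Complex.exp (((t * u : ℝ) : ℂ) * Complex.I) else 0

lemma stepT_norm_le (t u : ℝ) : ‖stepT t u‖ ≤ 1 := by
  unfold stepT
  split_ifs
  · rw [Complex.norm_exp_ofReal_mul_I]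
  · simp

lemma stepT_nice (t : ℝ) : Nice (stepT t) 1 0 0 where
  meas := by
    unfold stepT
    apply Measurable.ite measurableSet_Ici _ measurable_const
    fun_prop
  bound := by
    intro u
    simpa using stepT_norm_le t u
  zero := by
    intro u hu
    unfold stepT
    rw [if_neg (by linarith)]

lemma Lap_stepT (t : ℝ) {s : ℂ} (hs : 0 < s.re) : Lap (stepT t) s = 1 / (s - t * Complex.I) := by
  have hre : (s - t * Complex.I).re = s.re := by simp
  have hs0 : s - t * Complex.I ≠ 0 := by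
    intro h
    rw [h] at hre
    simp at hre
    linarith
  unfold Lap stepT
  have h1 : ∀ u : ℝ, (if 0 ≤ u then Complex.exp (((t * u : ℝ) : ℂ) * Complex.I) else 0) *
      Complex.exp (-(s * u)) =
      (Ici (0:ℝ)).indicator (fun u : ℝ => Complex.exp (-(s - t * Complex.I) * u)) u := by
    intro u
    by_cases hu : 0 ≤ u
    · rw [if_pos hu, indicator_of_mem (by exact hu), ← Complex.exp_add]
      congr 1
      push_cast
      ring
    · rw [if_neg hu, indicator_of_notMem (by exact hu), zero_mul]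
  simp_rw [h1]
  rw [integral_indicator measurableSet_Ici, integral_Ici_eq_integral_Ioi,
    integral_exp_mul_complex_Ioi (by rw [Complex.neg_re, hre]; linarith)]
  simp only [Complex.ofReal_zero, mul_zero, Complex.exp_zero]
  rw [neg_div_neg_eq]

/-- the constant of the average -/
def cc (η t : ℝ) : ℂ := (1 / (η : ℂ)) * ∫ v in (0:ℝ)..η, Complex.exp (((t * v : ℝ) : ℂ) * Complex.I)

lemma avg_stepT (t : ℝ) {η : ℝ} (hη : 0 < η) {u : ℝ} (hu : 0 ≤ u) :
    avg η (stepT t) u = cc η t * Complex.exp (((t * u : ℝ) : ℂ) * Complex.I) := by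
  unfold avg cc
  have : ∫ v in (0:ℝ)..η, stepT t (u + v) = ∫ v in (0:ℝ)..η,
      Complex.exp (((t * v : ℝ) : ℂ) * Complex.I) * Complex.exp (((t * u : ℝ) : ℂ) * Complex.I) := by
    apply intervalIntegral.integral_congr
    intro v hv
    rw [uIcc_of_le hη.le] at hv
    simp only [stepT]
    rw [if_pos (by linarith [hv.1]), ← Complex.exp_add]
    congr 1
    push_cast
    ring
  rw [this, intervalIntegral.integral_mul_const]
  ring

lemma avg2_stepT (t : ℝ) {η : ℝ} (hη : 0 < η) {u : ℝ} (hu : 0 ≤ u) :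
    avg η (avg η (stepT t)) u = cc η t ^ 2 * Complex.exp (((t * u : ℝ) : ℂ) * Complex.I) := by
  have h0 : avg η (avg η (stepT t)) u = (1 / (η:ℂ)) * (∫ v in (0:ℝ)..η, avg η (stepT t) (u + v)) := rfl
  rw [h0]
  have : ∫ v in (0:ℝ)..η, avg η (stepT t) (u + v) = ∫ v in (0:ℝ)..η,
      Complex.exp (((t * v : ℝ) : ℂ) * Complex.I) *
        (cc η t * Complex.exp (((t * u : ℝ) : ℂ) * Complex.I)) := by
    apply intervalIntegral.integral_congr
    intro v hv
    rw [uIcc_of_le hη.le] at hv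
    simp only
    rw [avg_stepT t hη (by linarith [hv.1])]
    have e : Complex.exp (((t * (u + v) : ℝ) : ℂ) * Complex.I) =
        Complex.exp (((t * v : ℝ) : ℂ) * Complex.I) * Complex.exp (((t * u : ℝ) : ℂ) * Complex.I) := by
      rw [← Complex.exp_add]
      congr 1
      push_cast
      ring
    rw [e]
    ring
  rw [this, intervalIntegral.integral_mul_const]
  unfold cc
  ring

lemma cc_norm (t : ℝ) {η : ℝ} (hη : 0 < η) (h : |t| * η ≤ 1) : 1 / 2 ≤ ‖cc η t‖ := by
  have hre : (cc η t).re = (1 / η) * ∫ v in (0:ℝ)..η, Real.cos (t * v) := by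
    unfold cc
    have e1 : (∫ v in (0:ℝ)..η, Complex.exp (((t * v : ℝ) : ℂ) * Complex.I)).re =
        ∫ v in (0:ℝ)..η, Real.cos (t * v) := by
      have h1 := intervalIntegral.intervalIntegral_eq_integral_uIoc
        (fun v : ℝ => Complex.exp (((t * v : ℝ) : ℂ) * Complex.I)) 0 η volume
      have h2 : IntervalIntegrable (fun v : ℝ => Complex.exp (((t * v : ℝ) : ℂ) * Complex.I))
          volume 0 η := Continuous.intervalIntegrable (by fun_prop) _ _
      have h3 := Complex.reCLM.intervalIntegral_comp_comm h2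
      simp only [Complex.reCLM_apply] at h3
      rw [← h3]
      apply intervalIntegral.integral_congr
      intro v _
      simp only
      rw [Complex.exp_ofReal_mul_I_re]
    have e2 : (1 / (η : ℂ)) = ((1 / η : ℝ) : ℂ) := by push_cast; ring
    rw [e2, Complex.re_ofReal_mul, e1]
  have hcos : ∀ v ∈ Set.Icc (0:ℝ) η, (1 / 2 : ℝ) ≤ Real.cos (t * v) := by
    intro v hv
    have h1 : |t * v| ≤ 1 := by
      rw [abs_mul, abs_of_nonneg hv.1]
      exact (mul_le_mul_of_nonneg_left hv.2 (abs_nonneg t)).trans h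
    have h2 := Real.one_sub_sq_div_two_le_cos (x := t * v)
    have h3 : (t * v) ^ 2 ≤ 1 := by
      rw [← sq_abs]
      exact pow_le_one₀ (abs_nonneg _) h1
    linarith
  have hint : (1 / 2 : ℝ) * η ≤ ∫ v in (0:ℝ)..η, Real.cos (t * v) := by
    have h1 : ∫ v in (0:ℝ)..η, (1 / 2 : ℝ) = (1 / 2) * η := by simp; ring
    rw [← h1]
    apply intervalIntegral.integral_mono_on hη.le (by simp)
    · exact Continuous.intervalIntegrable (by fun_prop) _ _
    · exact hcos
  refine le_trans ?_ ((le_abs_self _).trans (Complex.abs_re_le_norm _))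
  rw [hre]
  calc (1 / 2 : ℝ) = (1 / η) * ((1 / 2) * η) := by field_simp
    _ ≤ _ := mul_le_mul_of_nonneg_left hint (by positivity)

/-- twisted Mertens function -/
def Mt (t : ℝ) (N : ℕ) : ℂ := ∑ m ∈ Finset.Icc 1 N,
  ((ArithmeticFunction.moebius m : ℤ) : ℂ) * Complex.exp (((-(t * Real.log m) : ℝ) : ℂ) * Complex.I)

lemma peetre (a b : ℝ) : 1 + |a - b| ≤ (1 + |a|) * (1 + |b|) := by
  have h1 := abs_sub a b
  have h2 : 0 ≤ |a| * |b| := by positivity
  nlinarith

theorem Mt_bound (hz : ∀ s : ℂ, 1 / 2 < s.re → Zs s ≠ 0) {ε : ℝ} (hε : 0 < ε) (hε1 : ε ≤ 1) :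
    ∃ C : ℝ, 0 < C ∧ ∀ (t : ℝ) (n : ℕ), 1 ≤ n →
      ‖Mt t n‖ ≤ C * ((n : ℝ) ^ (1 / 2 + ε) * (1 + |t|) ^ ε) := by
  set e : ℝ := ε / 8 with he
  have he0 : 0 < e := by rw [he]; positivity
  set σ' : ℝ := 1 / 2 + ε / 2 with hσ'
  have h1 : 1 / 2 < σ' := by rw [hσ']; linarith
  have h2 : σ' ≤ 2 := by rw [hσ']; linarith
  have h14 : 1 / 4 ≤ σ' := by linarith
  obtain ⟨Cf, hCf0, hCf⟩ := fz_bound (by norm_num) hz h1 he0
  set I0 : ℝ := ∫ ξ : ℝ, (1 + |2 * Real.pi * ξ|) ^ (-(1 + e)) with hI0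
  have hI0' : 0 ≤ I0 := integral_nonneg fun ξ => by positivity
  refine ⟨4 * (5 * 550 * Cf * I0 + 20), by positivity, fun t n hn1 => ?_⟩
  set y : ℝ := (n : ℝ) with hy'
  have hy : 1 ≤ y := by rw [hy']; exact_mod_cast hn1
  have hy0 : 0 < y := by linarith
  set τ : ℝ := 1 + |t| with hτ
  have hτ1 : 1 ≤ τ := by rw [hτ]; linarith [abs_nonneg t]
  have hτ0 : 0 < τ := by linarith
  set x : ℝ := Real.log y with hx
  set η : ℝ := 1 / (y * τ) with hη
  have hyτ : 1 ≤ y * τ := one_le_mul_of_one_le_of_one_le hy hτ1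
  have hη0 : 0 < η := by rw [hη]; positivity
  have hη1 : η ≤ 1 := by rw [hη, div_le_one (by positivity)]; exact hyτ
  have hyη : y * η ≤ 1 := by
    rw [hη, mul_one_div, div_le_one (by positivity)]
    exact le_mul_of_one_le_right hy0.le hτ1
  have htη : |t| * η ≤ 1 := by
    rw [hη, mul_one_div, div_le_one (by positivity)]
    have : |t| ≤ τ := by rw [hτ]; linarith
    exact this.trans (le_mul_of_one_le_left hτ0.le hy)
  have hexpx : Real.exp x = y := by rw [hx, Real.exp_log hy0]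
  have key := perron (x := x) (by norm_num) hz h1 h2 (stepT_nice t) hη0 hη1
  -- the sum is finite
  set k2 := avg η (avg η (stepT t)) with hk2
  have hn : Nice k2 1 0 (0 - η - η) := ((stepT_nice t).avg hη0).avg hη0
  set N : ℕ := ⌊y * Real.exp (2 * η)⌋₊ with hN
  have hzero : ∀ m ∉ Finset.Icc 1 N, ((ArithmeticFunction.moebius m : ℤ) : ℂ) * k2 (x - Real.log m) = 0 := by
    intro m hm
    rcases Nat.eq_zero_or_pos m with rfl | hm0
    · simp
    · have hm1 : N < m := by
        by_contra hcon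
        exact hm (Finset.mem_Icc.mpr ⟨hm0, by omega⟩)
      have hm2 : y * Real.exp (2 * η) < m := (Nat.floor_lt (by positivity)).mp hm1
      rw [hn.zero, mul_zero]
      have h3 := Real.log_lt_log (by positivity) hm2
      rw [Real.log_mul hy0.ne' (Real.exp_pos _).ne', Real.log_exp] at h3
      linarith
  have hsum := (hasSum_sum_of_ne_finset_zero hzero).unique key
  -- compare with the twisted Mertens function
  have hfloor : n ≤ N := by
    rw [hN]
    refine Nat.le_floor ?_
    have : 1 ≤ Real.exp (2 * η) := Real.one_le_exp (by positivity)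
    exact le_mul_of_one_le_right hy0.le this
  set w : ℂ := cc η t ^ 2 * Complex.exp (((t * x : ℝ) : ℂ) * Complex.I) with hw
  have hsplit : ∑ m ∈ Finset.Icc 1 N, ((ArithmeticFunction.moebius m : ℤ) : ℂ) * k2 (x - Real.log m) =
      w * Mt t n + ∑ m ∈ Finset.Ioc n N, ((ArithmeticFunction.moebius m : ℤ) : ℂ) * k2 (x - Real.log m) := by
    have e0 : Finset.Icc 1 N = Finset.Icc 1 n ∪ Finset.Ioc n N := by
      ext m
      simp only [Finset.mem_Icc, Finset.mem_union, Finset.mem_Ioc]
      omega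
    rw [e0, Finset.sum_union]
    · congr 1
      unfold Mt
      rw [Finset.mul_sum]
      refine Finset.sum_congr rfl fun m hm => ?_
      rw [Finset.mem_Icc] at hm
      have hm1 : (m:ℝ) ≤ y := by rw [hy']; exact_mod_cast hm.2
      have hm0 : (0:ℝ) < m := by exact_mod_cast hm.1
      have : 0 ≤ x - Real.log m := by
        have := Real.log_le_log hm0 hm1
        linarith
      rw [hk2, avg2_stepT t hη0 this, hw]
      have e1 : Complex.exp (((t * (x - Real.log m) : ℝ) : ℂ) * Complex.I) =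
          Complex.exp (((t * x : ℝ) : ℂ) * Complex.I) *
            Complex.exp (((-(t * Real.log m) : ℝ) : ℂ) * Complex.I) := by
        rw [← Complex.exp_add]
        congr 1
        push_cast
        ring
      rw [e1]
      ring
    · rw [Finset.disjoint_left]
      intro m hm1 hm2
      rw [Finset.mem_Icc] at hm1
      rw [Finset.mem_Ioc] at hm2
      omega
  have hrest : ‖∑ m ∈ Finset.Ioc n N, ((ArithmeticFunction.moebius m : ℤ) : ℂ) * k2 (x - Real.log m)‖ ≤ 20 := by
    have hb : ∀ m ∈ Finset.Ioc n N, ‖((ArithmeticFunction.moebius m : ℤ) : ℂ) * k2 (x - Real.log m)‖ ≤ 1 := by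
      intro m _
      rw [norm_mul, Complex.norm_intCast]
      have h3 : |((ArithmeticFunction.moebius m : ℤ) : ℝ)| ≤ 1 := abs_mu_le m
      have h4 : ‖k2 (x - Real.log m)‖ ≤ 1 := by simpa using hn.bound (x - Real.log m)
      exact mul_le_one₀ h3 (norm_nonneg _) h4
    refine (norm_sum_le_of_le _ hb).trans ?_
    rw [Finset.sum_const, Nat.card_Ioc, nsmul_eq_mul, mul_one, Nat.cast_sub hfloor]
    have h3 : (N:ℝ) ≤ y * Real.exp (2 * η) := Nat.floor_le (by positivity)
    have h5 : Real.exp (2 * η) ≤ 1 + 2 * η * Real.exp (2 * η) := by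
      have h6 := Real.add_one_le_exp (-(2 * η))
      have h7 : Real.exp (-(2 * η)) * Real.exp (2 * η) = 1 := by rw [← Real.exp_add]; simp
      nlinarith [Real.exp_pos (2 * η)]
    have h6 : Real.exp (2 * η) ≤ 9 := by
      calc Real.exp (2 * η) ≤ Real.exp 2 := Real.exp_le_exp.mpr (by linarith)
        _ = Real.exp 1 * Real.exp 1 := by rw [← Real.exp_add]; norm_num
        _ ≤ 9 := by nlinarith [Real.exp_one_lt_d9, Real.exp_pos 1]
    have h8 : y * Real.exp (2 * η) ≤ y + 18 := by
      calc y * Real.exp (2 * η) ≤ y * (1 + 2 * η * 9) := by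
            gcongr
            calc Real.exp (2 * η) ≤ 1 + 2 * η * Real.exp (2 * η) := h5
              _ ≤ 1 + 2 * η * 9 := by gcongr
        _ = y + 18 * (y * η) := by ring
        _ ≤ y + 18 := by linarith
    linarith
  -- bound of the integral
  have hint : ‖∫ ξ : ℝ, PH η x (stepT t) (σ' + 2 * Real.pi * ξ * Complex.I)‖ ≤
      5 * 550 * Cf * I0 * (y ^ (1 / 2 + ε) * τ ^ ε) := by
    have hpt : ∀ ξ : ℝ, ‖PH η x (stepT t) (σ' + 2 * Real.pi * ξ * Complex.I)‖ ≤
        (5 * 550 * Cf * (y ^ (1 / 2 + ε) * τ ^ ε)) *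
          (1 + |2 * Real.pi * (ξ - t / (2 * Real.pi))|) ^ (-(1 + e)) := by
      intro ξ
      set s : ℂ := σ' + 2 * Real.pi * ξ * Complex.I with hs
      have hsre : s.re = σ' := line_re σ' ξ
      have hsim : s.im = 2 * Real.pi * ξ := line_im σ' ξ
      set T : ℝ := 1 + |2 * Real.pi * ξ| with hT
      set V : ℝ := 1 + |2 * Real.pi * (ξ - t / (2 * Real.pi))| with hV
      have hVe : V = 1 + |2 * Real.pi * ξ - t| := by
        rw [hV]
        congr 2
        have := Real.pi_pos
        field_simp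
      have hT1 : 1 ≤ T := by rw [hT]; linarith [abs_nonneg (2 * Real.pi * ξ)]
      have hT0 : 0 < T := by linarith
      have hV0 : 0 < V := by rw [hV]; positivity
      have hVT : V ≤ T * τ := by rw [hVe, hT, hτ]; exact peetre _ _
      unfold PH
      rw [norm_mul, norm_mul, norm_mul, norm_pow, Lap_stepT t (by rw [hsre]; linarith)]
      have a1 : ‖1 / (s - t * Complex.I)‖ ≤ 5 * V ^ (-(1:ℝ)) := by
        rw [norm_div, norm_one, Real.rpow_neg hV0.le, Real.rpow_one]
        have hre : (s - t * Complex.I).re = σ' := by simp [hsre]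
        have him : (s - t * Complex.I).im = 2 * Real.pi * ξ - t := by simp [hsim]
        have hs0 : 1 / 4 ≤ ‖s - t * Complex.I‖ := by
          have := Complex.abs_re_le_norm (s - t * Complex.I)
          rw [hre] at this
          exact h14.trans ((le_abs_self _).trans this)
        have hs1 : |2 * Real.pi * ξ - t| ≤ ‖s - t * Complex.I‖ := by
          rw [← him]; exact Complex.abs_im_le_norm _
        rw [← div_eq_mul_inv, div_le_div_iff₀ (by linarith) hV0]
        rw [hVe]; linarith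
      have a2 : ‖phi η s‖ ^ 2 ≤ 550 * (η * T) ^ (-(2 * e)) := by
        have := norm_phi_pow (a := 2 * e) hη0 hη1 (s := s) (by rw [hsre]; exact h14) (by rw [hsre]; exact h2)
          (by positivity) (by rw [he]; linarith)
        rw [hsim] at this
        exact this
      have a3 : ‖Complex.exp (s * x)‖ = y ^ σ' := by
        rw [Complex.norm_exp]
        simp only [Complex.mul_re, Complex.ofReal_re, Complex.ofReal_im, mul_zero, sub_zero, hsre]
        rw [Real.rpow_def_of_pos hy0, mul_comm]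
      have a4 : ‖fz s‖ ≤ Cf * T ^ e := by
        have := hCf s (by rw [hsre]) (by rw [hsre]; exact h2)
        rw [hsim] at this
        exact this
      rw [a3]
      have e1 : (η * T) ^ (-(2 * e)) = y ^ (2 * e) * τ ^ (2 * e) * T ^ (-(2 * e)) := by
        rw [Real.mul_rpow hη0.le hT0.le, hη, one_div, Real.inv_rpow (by positivity),
          ← Real.rpow_neg (by positivity), neg_neg, Real.mul_rpow hy0.le hτ0.le]
      have e3 : V ^ (-(1:ℝ)) * T ^ (-(2 * e)) * T ^ e ≤ V ^ (-(1 + e)) * τ ^ e := by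
        have f1 : T ^ (-(2 * e)) * T ^ e = T ^ (-e) := by
          rw [← Real.rpow_add hT0]; congr 1; ring
        have f2 : T ^ (-e) ≤ V ^ (-e) * τ ^ e := by
          have g1 : V ^ e ≤ T ^ e * τ ^ e := by
            rw [← Real.mul_rpow hT0.le hτ0.le]
            exact Real.rpow_le_rpow hV0.le hVT he0.le
          rw [Real.rpow_neg hT0.le, Real.rpow_neg hV0.le]
          have p1 : 0 < T ^ e := by positivity
          have p2 : 0 < V ^ e := by positivity
          rw [inv_mul_eq_div, le_div_iff₀ p2, inv_mul_eq_div, div_le_iff₀ p1]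
          linarith
        have f3 : V ^ (-(1 + e)) = V ^ (-(1:ℝ)) * V ^ (-e) := by
          rw [← Real.rpow_add hV0]; congr 1; ring
        rw [mul_assoc, f1, f3, mul_assoc]
        exact mul_le_mul_of_nonneg_left f2 (by positivity)
      have e4 : y ^ σ' * y ^ (2 * e) ≤ y ^ (1 / 2 + ε) := by
        rw [← Real.rpow_add hy0]
        apply Real.rpow_le_rpow_of_exponent_le hy
        rw [hσ', he]; linarith
      have e5 : τ ^ (2 * e) * τ ^ e ≤ τ ^ ε := by
        rw [← Real.rpow_add hτ0]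
        apply Real.rpow_le_rpow_of_exponent_le hτ1
        rw [he]; linarith
      calc ‖1 / (s - t * Complex.I)‖ * ‖phi η s‖ ^ 2 * y ^ σ' * ‖fz s‖
          ≤ (5 * V ^ (-(1:ℝ))) * (550 * (η * T) ^ (-(2 * e))) * y ^ σ' * (Cf * T ^ e) := by gcongr
        _ = (5 * 550 * Cf) * (y ^ σ' * y ^ (2 * e)) * τ ^ (2 * e) *
              (V ^ (-(1:ℝ)) * T ^ (-(2 * e)) * T ^ e) := by
          rw [e1]; ring
        _ ≤ (5 * 550 * Cf) * (y ^ (1 / 2 + ε)) * τ ^ (2 * e) * (V ^ (-(1 + e)) * τ ^ e) := by gcongr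
        _ = (5 * 550 * Cf * y ^ (1 / 2 + ε)) * (τ ^ (2 * e) * τ ^ e) * V ^ (-(1 + e)) := by ring
        _ ≤ (5 * 550 * Cf * y ^ (1 / 2 + ε)) * τ ^ ε * V ^ (-(1 + e)) := by gcongr
        _ = _ := by ring
    have hI1 := integrable_decay' (a := 1 + e) (by linarith)
    have hI2 : Integrable (fun ξ : ℝ => (1 + |2 * Real.pi * (ξ - t / (2 * Real.pi))|) ^ (-(1 + e))) :=
      hI1.comp_sub_right (t / (2 * Real.pi))
    have hI3 := hI2.const_mul (5 * 550 * Cf * (y ^ (1 / 2 + ε) * τ ^ ε))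
    calc _ ≤ ∫ ξ : ℝ, (5 * 550 * Cf * (y ^ (1 / 2 + ε) * τ ^ ε)) *
          (1 + |2 * Real.pi * (ξ - t / (2 * Real.pi))|) ^ (-(1 + e)) :=
          norm_integral_le_of_norm_le hI3 (Eventually.of_forall hpt)
      _ = (5 * 550 * Cf * (y ^ (1 / 2 + ε) * τ ^ ε)) * I0 := by
          rw [integral_const_mul, integral_sub_right_eq_self
            (fun ξ : ℝ => (1 + |2 * Real.pi * ξ|) ^ (-(1 + e)))]
      _ = _ := by ring
  have hfin : w * Mt t n = (∫ ξ : ℝ, PH η x (stepT t) (σ' + 2 * Real.pi * ξ * Complex.I)) -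
      ∑ m ∈ Finset.Ioc n N, ((ArithmeticFunction.moebius m : ℤ) : ℂ) * k2 (x - Real.log m) := by
    rw [← hsum, hsplit]; ring
  have hw1 : 1 / 4 ≤ ‖w‖ := by
    rw [hw, norm_mul, norm_pow, Complex.norm_exp_ofReal_mul_I, mul_one]
    have := cc_norm t hη0 htη
    calc (1 / 4 : ℝ) = (1 / 2) ^ 2 := by norm_num
      _ ≤ _ := pow_le_pow_left₀ (by norm_num) this 2
  have hb1 : ‖w * Mt t n‖ ≤ 5 * 550 * Cf * I0 * (y ^ (1 / 2 + ε) * τ ^ ε) + 20 := by
    rw [hfin]
    exact (norm_sub_le _ _).trans (add_le_add hint hrest)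
  have hyσ : 1 ≤ y ^ (1 / 2 + ε) * τ ^ ε :=
    one_le_mul_of_one_le_of_one_le (Real.one_le_rpow hy (by linarith)) (Real.one_le_rpow hτ1 hε.le)
  rw [norm_mul] at hb1
  have hb2 : 1 / 4 * ‖Mt t n‖ ≤ ‖w‖ * ‖Mt t n‖ := mul_le_mul_of_nonneg_right hw1 (norm_nonneg _)
  have hb3 : 20 ≤ 20 * (y ^ (1 / 2 + ε) * τ ^ ε) := by linarith
  calc ‖Mt t n‖ ≤ 4 * (5 * 550 * Cf * I0 * (y ^ (1 / 2 + ε) * τ ^ ε) + 20) := by linarith
    _ ≤ 4 * (5 * 550 * Cf * I0 * (y ^ (1 / 2 + ε) * τ ^ ε) + 20 * (y ^ (1 / 2 + ε) * τ ^ ε)) := by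
        linarith
    _ = _ := by ring

end

end Pool.Agent.T9h61.AH
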