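import Pool.Agent.N806.HG.Stm

/-!
Many gaps below one half of the mean spacing, under RH: definitions. The project follows
`N806/HG`, with Gaussians of width `T ^ η` and with zeros separated only in short windows.
-/

set_option autoImplicit false

open Complex Filter Topology Set MeasureTheory

namespace Pool.Agent.T9h61.AH

open SG Pool.Agent.N806.HG

/-- the width of the Gaussians -/
noncomputable def DE (η T : ℝ) : ℝ := T ^ η

/-- all zeros with ordinates in `[lo, hi]` are simple, on the line and more than `δ` apart -/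
structure SepL (δ lo hi : ℝ) : Prop where
  line : ∀ s : ℂ, 0 < s.re → s.re < 1 → lo ≤ s.im → s.im ≤ hi → riemannZeta s = 0 → s.re = 1 / 2
  simple : ∀ s : ℂ, 0 < s.re → s.re < 1 → lo ≤ s.im → s.im ≤ hi → riemannZeta s = 0 →
    deriv riemannZeta s ≠ 0
  sep : ∀ s s' : ℂ, 0 < s.re → s.re < 1 → lo ≤ s.im → s.im ≤ hi → riemannZeta s = 0 →
    0 < s'.re → s'.re < 1 → lo ≤ s'.im → s'.im ≤ hi → riemannZeta s' = 0 → s ≠ s' →
    δ < |s.im - s'.im|

/-- a good height -/
def GoodL (lo hi δ U : ℝ) : Prop := ∀ s : ℂ, 0 < s.re → s.re < 1 → riemannZeta s = 0 →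
  lo ≤ s.im → s.im ≤ hi → δ / 2 ≤ |s.im - (U + δ / 2)| ∧ δ / 2 ≤ |s.im - (U - δ / 2)|

end Pool.Agent.T9h61.AH
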